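import Pool.Agent.H37.CD.Defs
import Pool.Agent.H54.CW.Fv
import Pool.Agent.H98.FJ.Closed

/-!
# THEOREM CCA, (FV), (GT): fixed vertices

`fix_vtx`: `HO` = the half-spaces which separate two points of the orbit `O = B x` (invariant). A chain in `HO` has at most `M` elements
(`h_1 < .. < h_m`, `p ∈ O` in `h_1`, `q ∈ O` not in `h_m`: all of them are in `p.U \ q.U`, `ds q p ≤ M`). `up h`, `dn h` = the maximal lengths of
chains of elements of `HO` above and below `h`: `up (st h) = dn h`, strictly monotone. `QB = {h ∈ HO : up h = dn h}` is closed under `st`, two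
elements are equal, complementary or crossing: at most `2 n` elements. `B'` = the kernel of the action of `B` on `QB`.
`y = {h ∈ HO : up h < dn h} ∪ (one half-space of every pair of QB) ∪ {h : O ⊆ h}`. `y.U \ x.U` is contained in `HO`, has chains of length at
most `M`, no disjoint pairs, no element contains `x`: at most `n * M` elements.

`gate`: `z = y ∪ {k : y ∉ k, k ≥ b • w for some b ∈ B}`: no disjoint pairs, finite (`B w` has at most `n` elements), closed upwards off `y`
(`H54.CV.exists_mv`).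
-/

set_option autoImplicit false

namespace Pool.Agent.H37.CD

open Pool.Agent.H37.CC Pool.Agent.H98.FJ
open scoped Pointwise

variable {G H : Type} [Group G] [PartialOrder H] [Bas H] [MulAction G H] [BAct G H]

omit [Group G] [MulAction G H] [BAct G H] in
theorem crs_comm {h k : H} (hc : Crs h k) : Crs k h :=
  ⟨hc.2.1, hc.1, fun e => hc.2.2.1 (le_st_comm.1 e), fun e => hc.2.2.2 (st_le_comm.1 e)⟩

theorem fix_vtx {n : ℕ} (hd : Dim H n) (B : Subgroup G) (x : Vtx H) {M : ℕ} (hM : ∀ b ∈ B, ds x (b • x) ≤ M) :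
    ∃ B' ≤ B, B'.relIndex B ≠ 0 ∧ B'.relIndex B ≤ (2 * n).factorial ∧ ∃ y : Vtx H, (∀ b ∈ B', b • y = y) ∧ ds x y ≤ n * M := by
  obtain ⟨B', h1, h2, h3, y, h4, h5⟩ := Pool.Agent.H54.CW.fv hd B x M hM
  exact ⟨B', h1, h2, h3, y, h5, h4⟩

theorem gate {n : ℕ} (hd : Dim H n) (B : Subgroup G) {y : Vtx H} (hy : ∀ b ∈ B, b • y = y) {w : H} (hw : w ∉ y.U)
    (hc : ∀ b ∈ B, b • w = w ∨ Crs w (b • w)) : ∃ z : Vtx H, (∀ b ∈ B, b • z = z) ∧ dep y w ≤ ds y z := by
  exact Pool.Agent.H54.CW.gt hd B y hy w hw fun b hb => (hc b hb).imp id crs_comm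

/-- subgroups with a bounded orbit are in the class -/
theorem class_of_ell {C : (G : Type) → [Group G] → Prop} (hC : Inherits C) {n : ℕ} (hd : Dim H n)
    (hv : ∀ y : Vtx H, C (MulAction.stabilizer G y)) (B : Subgroup G) (hB : Ell H B) : C B := by
  obtain ⟨M, hM⟩ := hB
  obtain ⟨B', h1, h2, _, y, h5, _⟩ := fix_vtx hd B bs hM
  refine hC.index B (B'.subgroupOf B) ⟨h2⟩ ?_
  let f : B'.subgroupOf B →* MulAction.stabilizer G y :=
    { toFun := fun b => ⟨((b : B) : G), h5 _ b.2⟩
      map_one' := rfl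
      map_mul' := fun _ _ => rfl }
  refine hC.of_injective f ?_ (hv y)
  intro a b hab
  have h6 : ((a : B) : G) = ((b : B) : G) := congrArg (fun z : MulAction.stabilizer G y => (z : G)) hab
  exact Subtype.ext (Subtype.ext h6)

/-- a group with a bounded orbit which crosses or fixes a deep half-space is finite -/
theorem card_le {n k N : ℕ} (hd : Dim H n) (hA : Acy G H k N) (F : Subgroup G) (y : Vtx H) {M : ℕ}
    (hM : ∀ f ∈ F, ds y (f • y) ≤ M) {w : H} (hw : w ∉ y.U) (hc : ∀ f ∈ F, f • w = w ∨ Crs w (f • w))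
    (hk : k + n * M < dep y w) : (F : Set G).encard ≤ ((2 * n).factorial * N : ℕ) := by
  obtain ⟨F', h1, h2, h3, y1, h4, h5⟩ := fix_vtx hd F y hM
  have hw1 : w ∉ y1.U := by
    intro h6
    have h7 := dep_btw (y := y) h6
    omega
  have h6 := dep_le y y1 w
  obtain ⟨z, h7, h8⟩ := gate hd F' h4 hw1 fun b hb => hc b (h1 hb)
  have h9 := hA y1 z (by omega)
  have h10 : (F' : Set G).encard ≤ (N : ℕ∞) :=
    (Set.encard_le_encard (fun b (hb : b ∈ F') => (⟨h4 b hb, h7 b hb⟩ : b • y1 = y1 ∧ b • z = z))).trans h9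
  have hF'f : (F' : Set G).Finite := Set.finite_of_encard_le_coe h10
  have hF'c : Nat.card F' ≤ N := by
    rw [← hF'f.cast_ncard_eq] at h10
    have h11 : (F' : Set G).ncard ≤ N := by exact_mod_cast h10
    exact h11
  have : Finite F' := hF'f
  have hFc : Nat.card F = Nat.card F' * F'.relIndex F := by
    rw [Subgroup.relIndex, ← Subgroup.card_mul_index (F'.subgroupOf F)]
    congr 1
    exact Nat.card_congr (Subgroup.subgroupOfEquivOfLe h1).toEquiv
  have hFne : Nat.card F ≠ 0 := by
    rw [hFc]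
    exact Nat.mul_ne_zero Nat.card_pos.ne' h2
  have : Finite F := Nat.finite_of_card_ne_zero hFne
  have hFf : (F : Set G).Finite := this
  rw [← hFf.cast_ncard_eq]
  have h12 : (F : Set G).ncard ≤ (2 * n).factorial * N := by
    have h13 : (F : Set G).ncard = Nat.card F := rfl
    rw [h13, hFc, Nat.mul_comm]
    exact Nat.mul_le_mul h3 hF'c
  exact_mod_cast h12

end Pool.Agent.H37.CD
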