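import Pool.Agent.H37.CD.Bd

/-!
# helper37, CD, module PENCIL: exactness is an open condition in a linear pencil

PROOF. Let `D = D0 + t0 • D1`, `N = ker D = range D` (exactness and `D ∘ D = 0`).
Choose a linear `s : X →ₗ X` with `D (s y) = y` for all `y ∈ range D` (from
`LinearMap.exists_rightInverse_of_surjective` for `D.rangeRestrict`, extended by any linear extension, e.g.
`LinearMap.exists_extend`; the extension of `s0 : range D →ₗ X` to `X`), and a linear `π : X →ₗ X` with
values in `N` and `π x = x` for `x ∈ N` (projection on a complemented subspace,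
`Submodule.exists_isCompl`, `Submodule.linearProjOfIsCompl`, or `LinearMap.exists_extend`). Put
`S = s ∘ π`. For `t ∈ K` let `M t = (D0 + t•D1) ∘ S + S ∘ (D0 + t•D1)`.
(1) `M t0` is injective: `M t0 x = D s π x + s π D x = π x + s (D x)` (`D x ∈ N`). If it is zero, apply `D`:
`0 = D (π x) + D (s (D x)) = 0 + D x`, so `x ∈ N`, `x = π x = -s (D x) = 0`. So `det (M t0) ≠ 0`
(`LinearMap.isUnit_det`.. / `LinearMap.injective_iff_surjective`, `LinearMap.equivOfDetNeZero`...).
(2) `det (M t)` is a polynomial in `t`: in a basis (`Module.finBasis K X`) the matrix of `M t` is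
`P + t • Q` with constant matrices `P`, `Q`; take the matrix `C(P) + X • C(Q)` over `K[X]` and
`RingHom.map_det` for `Polynomial.evalRingHom t`. The polynomial is nonzero by (1), so it has finitely
many roots (`Polynomial.rootSet_finite` or `Polynomial.roots`).
(3) If `det (M t) ≠ 0` then `D_t = D0 + t•D1` is exact: `M t` commutes with `D_t` (`D_t ∘ D_t = 0`), is
bijective. Let `D_t x = 0`; `x = M t x'` for some `x'` and `M t (D_t x') = D_t (M t x') = D_t x = 0`, so
`D_t x' = 0` and `x = M t x' = D_t (S x')`.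
-/

namespace Pool.Agent.H37.CD

open Finset

variable {K : Type} [Field K] {X : Type*} [AddCommGroup X] [Module K X] [FiniteDimensional K X]

theorem pencil (D0 D1 : X →ₗ[K] X)
    (h2 : ∀ (t : K) (x : X), (D0 + t • D1) ((D0 + t • D1) x) = 0) (t0 : K)
    (hex : ∀ x, (D0 + t0 • D1) x = 0 → ∃ y, (D0 + t0 • D1) y = x) :
    {t : K | ¬ ∀ x, (D0 + t • D1) x = 0 → ∃ y, (D0 + t • D1) y = x}.Finite := by
  classical
  set D := D0 + t0 • D1 with hD
  obtain ⟨s0, hs0⟩ := LinearMap.exists_rightInverse_of_surjective D.rangeRestrict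
    (LinearMap.range_rangeRestrict D)
  obtain ⟨s, hs⟩ := LinearMap.exists_extend s0
  obtain ⟨g, hg⟩ := LinearMap.exists_extend (LinearMap.id : LinearMap.ker D →ₗ[K] LinearMap.ker D)
  have hsD : ∀ x, D (s (D x)) = D x := by
    intro x
    have h1 := LinearMap.congr_fun hs (⟨D x, LinearMap.mem_range_self D x⟩ : LinearMap.range D)
    have h2 := LinearMap.congr_fun hs0 (⟨D x, LinearMap.mem_range_self D x⟩ : LinearMap.range D)
    have h3 := congrArg Subtype.val h2
    simp only [LinearMap.comp_apply, Submodule.subtype_apply, LinearMap.id_apply] at h1 h3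
    rw [h1]
    exact h3
  have hDs : ∀ x, D x = 0 → D (s x) = x := by
    intro x hx
    obtain ⟨y, rfl⟩ := hex x hx
    exact hsD y
  have hpN : ∀ x, D ((g x : LinearMap.ker D) : X) = 0 := fun x => (g x).2
  have hp : ∀ x, D x = 0 → ((g x : LinearMap.ker D) : X) = x := by
    intro x hx
    have h1 := LinearMap.congr_fun hg (⟨x, hx⟩ : LinearMap.ker D)
    have h2 := congrArg Subtype.val h1
    simpa using h2
  let S : X →ₗ[K] X := s ∘ₗ (LinearMap.ker D).subtype ∘ₗ g
  have hS : ∀ x, S x = s ((g x : LinearMap.ker D) : X) := fun x => rfl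
  let P : X →ₗ[K] X := D0 ∘ₗ S + S ∘ₗ D0
  let Q : X →ₗ[K] X := D1 ∘ₗ S + S ∘ₗ D1
  have hM : ∀ (t : K) (x : X), (P + t • Q) x = (D0 + t • D1) (S x) + S ((D0 + t • D1) x) := by
    intro t x
    simp only [P, Q, LinearMap.add_apply, LinearMap.smul_apply, LinearMap.comp_apply, smul_add,
      map_add, map_smul]
    abel
  have inj0 : ∀ x, (P + t0 • Q) x = 0 → x = 0 := by
    intro x hx
    rw [hM, ← hD] at hx
    have hDD : D (D x) = 0 := h2 t0 x
    rw [hS, hS, hp (D x) hDD, hDs _ (hpN x)] at hx
    have h3 := congrArg D hx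
    rw [map_add, hpN, hDs _ hDD, map_zero, zero_add] at h3
    rw [hp x h3, h3, map_zero, add_zero] at hx
    exact hx
  have hbij : ∀ t : K, LinearMap.det (P + t • Q) ≠ 0 → Function.Surjective (P + t • Q) := by
    intro t ht
    have h1 : IsUnit (P + t • Q) := (LinearMap.isUnit_iff_isUnit_det _).2 (isUnit_iff_ne_zero.2 ht)
    exact ((Module.End.isUnit_iff _).1 h1).2
  have hdet0 : LinearMap.det (P + t0 • Q) ≠ 0 := by
    intro h
    have h1 := LinearMap.bot_lt_ker_of_det_eq_zero h
    have h4 : LinearMap.ker (P + t0 • Q) = ⊥ := (LinearMap.ker_eq_bot').2 inj0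
    rw [h4] at h1
    exact lt_irrefl _ h1
  let b := Module.finBasis K X
  let MP := LinearMap.toMatrix b b P
  let MQ := LinearMap.toMatrix b b Q
  let p : Polynomial K := (MP.map Polynomial.C + (Polynomial.X : Polynomial K) •
    MQ.map Polynomial.C).det
  have hpe : ∀ t : K, p.eval t = LinearMap.det (P + t • Q) := by
    intro t
    rw [← LinearMap.det_toMatrix b, map_add, map_smul]
    change (Polynomial.evalRingHom t) p = _
    rw [RingHom.map_det]
    congr 1
    ext i j
    simp [MP, MQ, Matrix.map_apply, Matrix.add_apply, Matrix.smul_apply]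
    ring
  have hp0 : p ≠ 0 := by
    intro h
    apply hdet0
    rw [← hpe, h, Polynomial.eval_zero]
  refine (Polynomial.finite_setOfPred_isRoot hp0).subset ?_
  intro t ht
  by_contra hroot
  apply ht
  intro x hx
  have hd : LinearMap.det (P + t • Q) ≠ 0 := by
    rw [← hpe]
    exact hroot
  obtain ⟨x', rfl⟩ := hbij t hd x
  have inj : ∀ x, (P + t • Q) x = 0 → x = 0 := by
    intro y hy
    have h1 : IsUnit (P + t • Q) := (LinearMap.isUnit_iff_isUnit_det _).2 (isUnit_iff_ne_zero.2 hd)
    exact ((Module.End.isUnit_iff _).1 h1).1 (by rw [hy, map_zero])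
  have hcomm : (P + t • Q) ((D0 + t • D1) x') = (D0 + t • D1) ((P + t • Q) x') := by
    rw [hM, hM, h2, map_zero, add_zero, map_add, h2, zero_add]
  rw [hx] at hcomm
  have h3 := inj _ hcomm
  refine ⟨S x', ?_⟩
  rw [hM, h3, map_zero, add_zero]

end Pool.Agent.H37.CD
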