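import Mathlib

/-!
# helper37: the Charney-Davis inequality and generic finite dimensional coefficients: definitions

Everything is over a field `K` of characteristic two, so there are no signs.
`V` is a finite vertex type, `G` a graph on it, a finite set `A` of vertices stands for the flag
complex (clique complex) of the induced graph.

All definitions used in the final statement are here (`bdg`, `ExG`, `CS` are used in proofs only).
-/

namespace Pool.Agent.H37.CD

open Finset

variable {V : Type} [Fintype V] [DecidableEq V]

/-- The boundary of a chain `f` (a function on vertex sets): `(bd f) τ = ∑ f (τ ∪ {v})` over the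
vertices `v` outside `τ`. No signs: coefficients have characteristic two. -/
def bd {U : Type*} [AddCommMonoid U] (f : Finset V → U) (τ : Finset V) : U :=
  ∑ v ∈ τᶜ, f (insert v τ)

open Classical in
/-- The vertex set of the link in `A` of the simplex `τ`: the common neighbours in `A` of all the
vertices of `τ`. -/
noncomputable def lk (G : SimpleGraph V) (A τ : Finset V) : Finset V :=
  A.filter (fun x => ∀ v ∈ τ, G.Adj v x)

open Classical in
/-- The vertices of `A` outside the closed star of `v`. -/
noncomputable def far (G : SimpleGraph V) (A : Finset V) (v : V) : Finset V :=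
  A.filter (fun w => w ≠ v ∧ ¬ G.Adj v w)

/-- The flag complex of `D` has no reduced homology with coefficients in the field with two
elements: every cycle `f` (supported on the cliques in `D`) is the boundary of some chain `h`. -/
def AcyclicTwo (G : SimpleGraph V) (D : Finset V) : Prop :=
  ∀ f : Finset V → ZMod 2, (∀ σ, f σ ≠ 0 → σ ⊆ D ∧ G.IsClique (σ : Set V)) →
    (∀ τ, bd f τ = 0) →
    ∃ h : Finset V → ZMod 2, (∀ σ, h σ ≠ 0 → σ ⊆ D ∧ G.IsClique (σ : Set V)) ∧
      ∀ τ, bd h τ = f τ

/-- `A` is a flag (mod 2 homology) sphere of rank `d` (dimension `d - 1`). Rank `0`: `A` is empty.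
Rank `d + 1`: `A` is nonempty and for every vertex `v` the link of `v` is a flag sphere of rank `d`
and the vertices outside the star of `v` span an acyclic complex. -/
def FlagSphere (G : SimpleGraph V) : ℕ → Finset V → Prop
  | 0, A => A = ∅
  | d + 1, A => A.Nonempty ∧ ∀ v ∈ A, FlagSphere G d (lk G A {v}) ∧ AcyclicTwo G (far G A v)

open Classical in
/-- `omega A = ∑ (-1/2)^|σ|` over all simplices (cliques) `σ ⊆ A`, the empty one included. -/
noncomputable def omega (G : SimpleGraph V) (A : Finset V) : ℚ :=
  ∑ σ ∈ A.powerset.filter (fun σ : Finset V => G.IsClique (σ : Set V)), (-1 / 2 : ℚ) ^ σ.card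

/-- The graph in which the neighbours of `a` are added to those of `b` (then deleting `a` contracts
`a` into `b`). -/
def contract (G : SimpleGraph V) (a b : V) : SimpleGraph V where
  Adj x y := x ≠ y ∧ (G.Adj x y ∨ (x = b ∧ G.Adj a y) ∨ (y = b ∧ G.Adj a x))
  symm := ⟨by
    intro x y h
    refine ⟨h.1.symm, ?_⟩
    rcases h.2 with h | h | h
    · exact Or.inl h.symm
    · exact Or.inr (Or.inr h)
    · exact Or.inr (Or.inl h)⟩
  loopless := ⟨fun _ h => h.1 rfl⟩

/-- The graph `G` with the edge `x y` added. -/
def addEdge (G : SimpleGraph V) (x y : V) : SimpleGraph V where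
  Adj u v := u ≠ v ∧ (G.Adj u v ∨ (u = x ∧ v = y) ∨ (u = y ∧ v = x))
  symm := ⟨by
    intro u v h
    refine ⟨h.1.symm, ?_⟩
    rcases h.2 with h | h | h
    · exact Or.inl h.symm
    · exact Or.inr (Or.inr ⟨h.2, h.1⟩)
    · exact Or.inr (Or.inl ⟨h.2, h.1⟩)⟩
  loopless := ⟨fun _ h => h.1 rfl⟩

/-- `Sep G A B`: no edge of `G` joins `A \ B` to `B \ A`. -/
def Sep (G : SimpleGraph V) (A B : Finset V) : Prop :=
  ∀ x ∈ A, x ∉ B → ∀ y ∈ B, y ∉ A → ¬ G.Adj x y

/-! ## Cells, exactness, systems of matrix units -/

section Cells

variable {K : Type} [Field K] {U : Type*} [AddCommGroup U] [Module K U]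

/-- The cell `p_σ U` of the simplex `σ` of `A`: the vectors fixed by all `p v`, `v ∈ σ`; it is zero
if `σ` is not a clique contained in `A`. -/
def cell (G : SimpleGraph V) (p : V → Module.End K U) (A σ : Finset V) : Submodule K U where
  carrier := {x | (x ≠ 0 → σ ⊆ A ∧ G.IsClique (σ : Set V)) ∧ ∀ v ∈ σ, p v x = x}
  add_mem' := by
    rintro x y ⟨hx, hx'⟩ ⟨hy, hy'⟩
    refine ⟨fun h => ?_, fun v hv => by rw [map_add, hx' v hv, hy' v hv]⟩
    by_cases h0 : x = 0
    · exact hy (fun h1 => h (by rw [h0, h1, add_zero]))
    · exact hx h0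
  zero_mem' := ⟨fun h => absurd rfl h, fun v _ => map_zero _⟩
  smul_mem' := by
    rintro c x ⟨hx, hx'⟩
    refine ⟨fun h => hx (fun h1 => h (by rw [h1, smul_zero])), fun v hv => by
      rw [map_smul, hx' v hv]⟩

/-- Exactness in degree `i` of the complex with cells `Y`: chains `f` with `f σ ∈ Y σ`, the degree
of `σ` is its number of elements. -/
def ExAt (Y : Finset V → Submodule K U) (i : ℕ) : Prop :=
  ∀ f : Finset V → U, (∀ σ, f σ ∈ Y σ) → (∀ σ, σ.card ≠ i → f σ = 0) → (∀ τ, bd f τ = 0) →
    ∃ h : Finset V → U, (∀ σ, h σ ∈ Y σ) ∧ ∀ τ, bd h τ = f τ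

/-- Exactness in all degrees. -/
def Ex (Y : Finset V → Submodule K U) : Prop :=
  ∀ f : Finset V → U, (∀ σ, f σ ∈ Y σ) → (∀ τ, bd f τ = 0) →
    ∃ h : Finset V → U, (∀ σ, h σ ∈ Y σ) ∧ ∀ τ, bd h τ = f τ

/-- The boundary twisted by operators `g v`. -/
def bdg (g : V → Module.End K U) (f : Finset V → U) (τ : Finset V) : U :=
  ∑ v ∈ τᶜ, g v (f (insert v τ))

/-- Exactness of the twisted complex. -/
def ExG (g : V → Module.End K U) (Y : Finset V → Submodule K U) : Prop :=
  ∀ f : Finset V → U, (∀ σ, f σ ∈ Y σ) → (∀ τ, bdg g f τ = 0) →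
    ∃ h : Finset V → U, (∀ σ, h σ ∈ Y σ) ∧ ∀ τ, bdg g h τ = f τ

/-- A commuting system: `p v` and `p w` commute when `v`, `w` are adjacent. -/
def CS (G : SimpleGraph V) (p : V → Module.End K U) : Prop :=
  (∀ v, p v * p v = p v) ∧ ∀ v w, G.Adj v w → p v * p w = p w * p v

end Cells

section MU

/-- 2 by 2 matrix units in a ring. -/
structure MU {R : Type*} [Ring R] (e : Fin 2 → Fin 2 → R) : Prop where
  mul : ∀ i j k l, e i j * e k l = if j = k then e i l else 0
  one : e 0 0 + e 1 1 = 1

/-- An M-system on the graph `G`: matrix units for every vertex, which commute for adjacent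
vertices. -/
structure MSys {R : Type*} [Ring R] (G : SimpleGraph V) (e : V → Fin 2 → Fin 2 → R) : Prop where
  mu : ∀ v, MU (e v)
  comm : ∀ v w, G.Adj v w → ∀ i j k l, e v i j * e w k l = e w k l * e v i j

variable {K : Type} [Field K] {ι : Type} [Fintype ι] [DecidableEq ι]

/-- The projections `p v = e v 1 1` of an M-system, as linear maps. -/
def proj (e : V → Fin 2 → Fin 2 → Matrix ι ι K) (v : V) : Module.End K (ι → K) :=
  Matrix.toLin' (e v 1 1)

/-- The complex of `A` with coefficients in the M-system is exact. -/
def ExM (G : SimpleGraph V) (e : V → Fin 2 → Fin 2 → Matrix ι ι K) (A : Finset V) : Prop :=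
  Ex (cell G (proj e) A)

end MU

/-- `A` is acyclic for some M-system over `K`. -/
def Acy (K : Type) [Field K] (G : SimpleGraph V) (A : Finset V) : Prop :=
  ∃ (ι : Type) (_ : Fintype ι) (_ : DecidableEq ι) (_ : Nonempty ι)
    (e : V → Fin 2 → Fin 2 → Matrix ι ι K), MSys G e ∧ ExM G e A

/-- `A` is M-acyclic: for some M-system over the algebraic closure of the field with two elements
the complex of `A` is exact. -/
def MAcyclic (G : SimpleGraph V) (A : Finset V) : Prop := Acy (AlgebraicClosure (ZMod 2)) G A

/-! ## The reducible sets and the certificates -/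

/-- `Legal G A st T`: a legal state system for `A`. `S` is a finite set of states, `st s` is the set
of vertices which are on in the state `s`; the moves `T v` are involutions of `S`, the move of `v`
changes the status of `v` and keeps that of the neighbours of `v`, the moves of adjacent vertices
commute; and in every state the vertices of `A` which are on span an acyclic complex (mod 2). -/
structure Legal (G : SimpleGraph V) (A : Finset V) {S : Type} (st : S → Finset V)
    (T : V → S → S) : Prop where
  invol : ∀ v ∈ A, ∀ s, T v (T v s) = s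
  flip : ∀ v ∈ A, ∀ s, v ∈ st (T v s) ↔ v ∉ st s
  keep : ∀ v ∈ A, ∀ w ∈ A, G.Adj v w → ∀ s, w ∈ st (T v s) ↔ w ∈ st s
  comm : ∀ v ∈ A, ∀ w ∈ A, G.Adj v w → ∀ s, T v (T w s) = T w (T v s)
  acyc : ∀ s, AcyclicTwo G (A ∩ st s)

/-- The reducible sets: the least family containing all M-acyclic sets (for instance the suspensions
and the sets with a legal state system, which are listed separately) and closed under
two-out-of-three for `A.erase v`, `A`, `lk A v`, two-out-of-three for `A ∩ B`, `A ∪ B`, (`A` and
`B`) when no edge joins `A \ B` to `B \ A`, deletion of an edge with reducible link, splitting of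
a vertex into an edge which is in no induced 4-cycle and has a reducible link, and change of the
graph outside `A`. -/
inductive Reducible : SimpleGraph V → Finset V → Prop
  /-- M-acyclic sets -/
  | gen (G : SimpleGraph V) (A : Finset V) : MAcyclic G A → Reducible G A
  /-- suspensions `{a, v} * B` -/
  | susp (G : SimpleGraph V) (A : Finset V) (a v : V) : a ∈ A → v ∈ A → a ≠ v → ¬ G.Adj a v →
      (∀ x ∈ A, x ≠ a → x ≠ v → G.Adj a x ∧ G.Adj v x) → Reducible G A
  /-- legal state systems -/
  | states (G : SimpleGraph V) (A : Finset V) (S : Type) [Fintype S] [Nonempty S]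
      (st : S → Finset V) (T : V → S → S) : Legal G A st T → Reducible G A
  /-- only the graph on `A` matters -/
  | congr (G G' : SimpleGraph V) (A : Finset V) : (∀ x ∈ A, ∀ y ∈ A, (G.Adj x y ↔ G'.Adj x y)) →
      Reducible G A → Reducible G' A
  /-- `A.erase v` and the link of `v` give `A` -/
  | vertexA (G : SimpleGraph V) (A : Finset V) (v : V) : v ∈ A → Reducible G (A.erase v) →
      Reducible G (lk G A {v}) → Reducible G A
  /-- `A` and the link of `v` give `A.erase v` -/
  | vertexB (G : SimpleGraph V) (A : Finset V) (v : V) : v ∈ A → Reducible G A →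
      Reducible G (lk G A {v}) → Reducible G (A.erase v)
  /-- `A` and `A.erase v` give the link of `v` -/
  | vertexC (G : SimpleGraph V) (A : Finset V) (v : V) : v ∈ A → Reducible G A →
      Reducible G (A.erase v) → Reducible G (lk G A {v})
  | unionA (G : SimpleGraph V) (A B : Finset V) : Sep G A B → Reducible G A → Reducible G B →
      Reducible G (A ∩ B) → Reducible G (A ∪ B)
  | unionB (G : SimpleGraph V) (A B : Finset V) : Sep G A B → Reducible G (A ∪ B) →
      Reducible G (A ∩ B) → Reducible G A
  | unionC (G : SimpleGraph V) (A B : Finset V) : Sep G A B → Reducible G A → Reducible G B →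
      Reducible G (A ∪ B) → Reducible G (A ∩ B)
  /-- deletion of an edge `x y` with reducible link -/
  | edge (G : SimpleGraph V) (A : Finset V) (x y : V) : x ∈ A → y ∈ A → x ≠ y → ¬ G.Adj x y →
      Reducible (addEdge G x y) A → Reducible G (lk G A {x, y}) → Reducible G A
  /-- `a b` is an edge in no induced 4-cycle `a x y b`; `A.erase a` with the graph `contract G a b`
  is the contraction of `A` along `a b` -/
  | split (G : SimpleGraph V) (A : Finset V) (a b : V) : a ∈ A → b ∈ A → G.Adj a b →
      (∀ x ∈ A, ∀ y ∈ A, G.Adj a x → x ≠ b → ¬ G.Adj b x → G.Adj b y → y ≠ a → ¬ G.Adj a y →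
        ¬ G.Adj x y) →
      Reducible (contract G a b) (A.erase a) → Reducible G (lk G A {a, b}) → Reducible G A

/-- `Bnd G P t A` (used with `P` = reducible): a certificate that the generic homology of `A`
vanishes in all degrees at least `t` (and, for spheres of rank `r`, also in the degrees at most
`r - t`): `A` has the property `P`; or all simplices of `A` have less than `t` vertices; or `t ≥ 1`
and for some vertex `v` of `A` the link of `v` has a certificate for `t` and the links of all
nonempty simplices of `far A v` have certificates for `t - 1`. -/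
inductive Bnd (G : SimpleGraph V) (P : Finset V → Prop) : ℕ → Finset V → Prop
  | base (t : ℕ) (A : Finset V) : P A → Bnd G P t A
  | top (t : ℕ) (A : Finset V) : (∀ σ ⊆ A, G.IsClique (σ : Set V) → σ.card < t) → Bnd G P t A
  | step (t : ℕ) (A : Finset V) (v : V) : v ∈ A → Bnd G P (t + 1) (lk G A {v}) →
      (∀ τ ⊆ far G A v, τ.Nonempty → G.IsClique (τ : Set V) → Bnd G P t (lk G A τ)) →
      Bnd G P (t + 1) A

end Pool.Agent.H37.CD
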