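import Pool.Agent.H37.CD.Basic

/-! # helper37, CD: elementary facts on the unsigned boundary -/

namespace Pool.Agent.H37.CD

open Finset

variable {V : Type} [Fintype V] [DecidableEq V] {U : Type*} [AddCommGroup U]

theorem bd_add (f h : Finset V → U) (τ : Finset V) :
    bd (fun σ => f σ + h σ) τ = bd f τ + bd h τ := by
  simp only [bd, sum_add_distrib]

theorem bd_zero (τ : Finset V) : bd (fun _ => (0 : U)) τ = 0 := by
  simp [bd]

theorem bd_congr {f h : Finset V → U} (e : ∀ σ, f σ = h σ) (τ : Finset V) : bd f τ = bd h τ := by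
  have : f = h := funext e
  rw [this]

theorem bd_map {W : Type*} [AddCommGroup W] (φ : U →+ W) (f : Finset V → U) (τ : Finset V) :
    bd (fun σ => φ (f σ)) τ = φ (bd f τ) := by
  simp only [bd, map_sum]

theorem bd_mapl {K : Type} [Field K] {W : Type*} [AddCommGroup W] [Module K U] [Module K W]
    (φ : U →ₗ[K] W) (f : Finset V → U) (τ : Finset V) :
    bd (fun σ => φ (f σ)) τ = φ (bd f τ) := by
  simp only [bd, map_sum]

theorem bd_bd (h2 : ∀ x : U, x + x = 0) (f : Finset V → U) (τ : Finset V) :
    bd (fun σ => bd f σ) τ = 0 := by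
  unfold bd
  rw [Finset.sum_sigma']
  refine Finset.sum_involution (fun x _ => ⟨x.2, x.1⟩) ?_ ?_ ?_ ?_
  · rintro ⟨v, w⟩ hx
    simp only [mem_sigma, mem_compl] at hx ⊢
    rw [Finset.insert_comm w v τ]
    exact h2 _
  · rintro ⟨v, w⟩ hx _ h
    simp only [mem_sigma, mem_compl, mem_insert, not_or] at hx
    simp only [Sigma.mk.injEq] at h
    exact hx.2.1 h.1
  · rintro ⟨v, w⟩ hx
    simp only [mem_sigma, mem_compl, mem_insert, not_or] at hx ⊢
    exact ⟨hx.2.2, fun h => hx.2.1 h.symm, hx.1⟩
  · rintro ⟨v, w⟩ hx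
    rfl

/-- the part of `f` on the simplices containing `v`, as a chain of the link of `v` -/
def ell (v : V) (f : Finset V → U) (τ : Finset V) : U := if v ∈ τ then 0 else f (insert v τ)

/-- join with `v` -/
def kap (v : V) (h : Finset V → U) (σ : Finset V) : U := if v ∈ σ then h (σ.erase v) else 0

theorem bd_ell (v : V) (f : Finset V → U) (τ : Finset V) :
    bd (ell v f) τ = ell v (bd f) τ := by
  unfold ell
  by_cases hv : v ∈ τ
  · rw [if_pos hv]
    unfold bd
    exact sum_eq_zero (fun w _ => if_pos (mem_insert_of_mem hv))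
  · rw [if_neg hv]
    unfold bd
    rw [← sum_erase (s := τᶜ) (a := v) (h := by simp)]
    refine sum_congr (by ext x; simp) (fun w hw => ?_)
    simp only [mem_compl, mem_insert, not_or] at hw
    change (if v ∈ insert w τ then (0 : U) else f (insert v (insert w τ))) = _
    rw [if_neg (by simp only [mem_insert, not_or]; exact ⟨fun h => hw.1 h.symm, hv⟩),
      Finset.insert_comm]

theorem bd_kap_of_notMem {v : V} {τ : Finset V} (hv : v ∉ τ) (h : Finset V → U) :
    bd (kap v h) τ = h τ := by
  unfold bd kap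
  rw [sum_eq_single v]
  · rw [if_pos (mem_insert_self _ _), erase_insert hv]
  · intro w _ hw
    rw [if_neg]
    simp only [mem_insert, not_or]
    exact ⟨fun h => hw h.symm, hv⟩
  · intro h; exact absurd (mem_compl.2 hv) h

theorem bd_kap_of_mem {v : V} {τ : Finset V} (hv : v ∈ τ) (h : Finset V → U)
    (h0 : ∀ σ, v ∈ σ → h σ = 0) : bd (kap v h) τ = bd h (τ.erase v) := by
  unfold bd kap
  have e : (τ.erase v)ᶜ = insert v τᶜ := by
    ext x; simp only [mem_compl, mem_erase, mem_insert]; tauto
  rw [e, sum_insert (by simp [hv]), insert_erase hv, h0 τ hv, zero_add]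
  refine sum_congr rfl (fun w hw => ?_)
  rw [if_pos (mem_insert_of_mem hv)]
  congr 1
  ext x
  simp only [mem_compl] at hw
  simp only [mem_erase, mem_insert]
  constructor
  · rintro ⟨h1, h2⟩; tauto
  · rintro (h1 | h1)
    · subst h1; exact ⟨fun h => hw (h ▸ hv), Or.inl rfl⟩
    · tauto

/-- restriction of a chain to one degree -/
def trunc (i : ℕ) (f : Finset V → U) (σ : Finset V) : U := if σ.card = i then f σ else 0

theorem bd_trunc_succ (i : ℕ) (f : Finset V → U) (τ : Finset V) :
    bd (trunc (i + 1) f) τ = trunc i (bd f) τ := by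
  unfold bd trunc
  by_cases h : τ.card = i
  · rw [if_pos h]
    refine sum_congr rfl (fun w hw => ?_)
    rw [if_pos (by rw [card_insert_of_notMem (mem_compl.1 hw), h])]
  · rw [if_neg h]
    refine sum_eq_zero (fun w hw => ?_)
    rw [if_neg (by rw [card_insert_of_notMem (mem_compl.1 hw)]; omega)]

theorem bd_trunc_zero (f : Finset V → U) (τ : Finset V) : bd (trunc 0 f) τ = 0 := by
  unfold bd trunc
  refine sum_eq_zero (fun w _ => ?_)
  rw [if_neg (by simp)]

/-- addition in characteristic two -/
theorem two_eq (K : Type) [Field K] [CharP K 2] {U : Type*} [AddCommGroup U] [Module K U] (x : U) :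
    x + x = 0 := by
  have : (2 : K) = 0 := by exact_mod_cast CharP.cast_eq_zero K 2
  have h : x + x = (2 : K) • x := by rw [two_smul]
  rw [h, this, zero_smul]

section Cell

variable {K : Type} [Field K] {U : Type*} [AddCommGroup U] [Module K U]

theorem mem_cell {G : SimpleGraph V} {p : V → Module.End K U} {A σ : Finset V} {x : U} :
    x ∈ cell G p A σ ↔ (x ≠ 0 → σ ⊆ A ∧ G.IsClique (σ : Set V)) ∧ ∀ v ∈ σ, p v x = x := Iff.rfl

/-- cells decrease with the simplex -/
theorem cell_anti (G : SimpleGraph V) (p : V → Module.End K U) (A : Finset V) {σ τ : Finset V}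
    (h : σ ⊆ τ) : cell G p A τ ≤ cell G p A σ := by
  rintro x ⟨h1, h2⟩
  refine ⟨fun hx => ?_, fun v hv => h2 v (h hv)⟩
  exact ⟨h.trans (h1 hx).1, (h1 hx).2.subset (by exact_mod_cast h)⟩

/-- the boundary preserves decreasing cells -/
theorem bd_mem {Y : Finset V → Submodule K U} (hY : ∀ σ τ, σ ⊆ τ → Y τ ≤ Y σ)
    {f : Finset V → U} (hf : ∀ σ, f σ ∈ Y σ) (τ : Finset V) : bd f τ ∈ Y τ :=
  Submodule.sum_mem _ (fun v _ => hY _ _ (subset_insert v τ) (hf _))

/-- exactness in all degrees, degree by degree -/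
theorem Ex_iff {Y : Finset V → Submodule K U} : Ex Y ↔ ∀ i, ExAt Y i := by
  constructor
  · intro h i f hf _ hb
    exact h f hf hb
  · intro h f hf hb
    have key : ∀ i, ∃ k : Finset V → U, (∀ σ, k σ ∈ Y σ) ∧ ∀ τ, bd k τ = trunc i f τ := by
      intro i
      refine h i (trunc i f) (fun σ => ?_) (fun σ hσ => if_neg hσ) (fun τ => ?_)
      · unfold trunc
        split_ifs
        · exact hf σ
        · exact zero_mem _
      · cases i with
        | zero => exact bd_trunc_zero f τ
        | succ i =>
          rw [bd_trunc_succ]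
          unfold trunc
          split_ifs
          · exact hb τ
          · rfl
    choose k hk1 hk2 using key
    refine ⟨fun σ => ∑ i ∈ range (Fintype.card V + 1), k i σ, fun σ =>
      Submodule.sum_mem _ (fun i _ => hk1 i σ), fun τ => ?_⟩
    have e : bd (fun σ => ∑ i ∈ range (Fintype.card V + 1), k i σ) τ =
        ∑ i ∈ range (Fintype.card V + 1), bd (k i) τ := by
      unfold bd; rw [sum_comm]
    rw [e, sum_congr rfl (fun i _ => hk2 i τ), sum_eq_single τ.card]
    · exact if_pos rfl
    · intro i _ hi; exact if_neg (fun h => hi h.symm)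
    · intro hh
      exact absurd (mem_range.2 (Nat.lt_succ_of_le (card_le_univ τ))) hh

end Cell

end Pool.Agent.H37.CD
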