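import Pool.Agent.H37.CD.Bd

/-!
# helper37, CD, module COEFF: from `ZMod 2` to arbitrary coefficients of characteristic two

`AcyclicTwo G D` (chains with values in `ZMod 2`) implies exactness with values in any `K`-vector space
`U`, `K` of characteristic two, when all `p v = 1`.
PROOF. `U` has exponent two (`two_eq K`), so it is a `ZMod 2`-module (`AddCommGroup.zmodModule`) and has
a basis `b` over `ZMod 2` (`Module.Basis.ofVectorSpace`). Let `f` be a cycle. For a basis index `j` the
coordinate `f_j σ = b.repr (f σ) j ∈ ZMod 2` is a cycle supported on the cliques of `D` (additive maps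
commute with `bd`, `bd_map`), so there is `h_j` with `bd h_j = f_j`, and we take `h_j = 0` if `f_j = 0`.
Only finitely many `f_j` are nonzero: `S = ` union over `σ` of `(b.repr (f σ)).support`. Put
`h σ = ∑ j ∈ S, h_j σ • b j`. Then `bd h τ = ∑ j ∈ S, (f_j τ) • b j = f τ` (`Basis.sum_repr`-like,
`Finsupp.sum` / `Basis.linearCombination_repr`), and `h σ ≠ 0` implies some `h_j σ ≠ 0`, so `σ` is a
clique in `D`; membership in `cell G (fun _ => 1) D σ` is then clear.
-/

namespace Pool.Agent.H37.CD

open Finset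

variable {V : Type} [Fintype V] [DecidableEq V]
variable {K : Type} [Field K] [CharP K 2] {U : Type*} [AddCommGroup U] [Module K U]

theorem coeff {G : SimpleGraph V} {D : Finset V} (h : AcyclicTwo G D) :
    Ex (cell G (fun _ => (1 : Module.End K U)) D) := by
  classical
  intro f hf hbf
  let _ : Module (ZMod 2) U :=
    AddCommGroup.zmodModule (n := 2) (fun x => by rw [two_nsmul]; exact two_eq K x)
  let b := Module.Basis.ofVectorSpace (ZMod 2) U
  have key : ∀ j, ∃ g : Finset V → ZMod 2, (∀ σ, g σ ≠ 0 → σ ⊆ D ∧ G.IsClique (σ : Set V)) ∧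
      ∀ τ, bd g τ = b.repr (f τ) j := by
    intro j
    refine h (fun σ => b.repr (f σ) j) ?_ ?_
    · intro σ hσ
      exact (hf σ).1 (fun h0 => hσ (by simp [h0]))
    · intro τ
      have h1 := bd_map ((Finsupp.applyAddHom j).comp b.repr.toLinearMap.toAddMonoidHom) f τ
      rw [hbf τ, map_zero] at h1
      exact h1
  choose g hg1 hg2 using key
  let S := (Finset.univ : Finset (Finset V)).biUnion (fun σ => (b.repr (f σ)).support)
  refine ⟨fun σ => ∑ j ∈ S, g j σ • b j, fun σ => ⟨fun hne => ?_, fun v _ => rfl⟩, fun τ => ?_⟩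
  · obtain ⟨j, _, hj⟩ := Finset.exists_ne_zero_of_sum_ne_zero hne
    exact hg1 j σ (fun h0 => hj (by rw [h0, zero_smul]))
  · have h1 : bd (fun σ => ∑ j ∈ S, g j σ • b j) τ = ∑ j ∈ S, bd (g j) τ • b j := by
      simp only [bd]
      rw [sum_comm]
      simp only [sum_smul]
    rw [h1]
    simp_rw [hg2]
    conv_rhs => rw [← b.linearCombination_repr (f τ)]
    rw [Finsupp.linearCombination_apply]
    exact (Finsupp.sum_of_support_subset (b.repr (f τ)) (s := S)
      (fun j hj => mem_biUnion.2 ⟨τ, mem_univ _, hj⟩) (fun i a => a • b i)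
        (fun j _ => zero_smul _ _)).symm

/-- a cone is acyclic -/
theorem acyclicTwo_cone {G : SimpleGraph V} {D : Finset V} {z : V} (hz : z ∈ D)
    (hc : ∀ x ∈ D, x ≠ z → G.Adj z x) : AcyclicTwo G D := by
  classical
  intro f hf hbf
  let f0 : Finset V → ZMod 2 := fun σ => if z ∈ σ then 0 else f σ
  refine ⟨kap z f0, fun σ hσ => ?_, fun τ => ?_⟩
  · unfold kap at hσ
    by_cases hzσ : z ∈ σ
    · rw [if_pos hzσ] at hσ
      have h1 : f0 (σ.erase z) = f (σ.erase z) := if_neg (notMem_erase z σ)
      rw [h1] at hσ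
      obtain ⟨h2, h3⟩ := hf _ hσ
      have h4 : ∀ x ∈ σ, x ≠ z → x ∈ D := fun x hx hxz => h2 (mem_erase.2 ⟨hxz, hx⟩)
      refine ⟨fun x hx => ?_, fun x hx y hy hxy => ?_⟩
      · by_cases hxz : x = z
        · exact hxz ▸ hz
        · exact h4 x hx hxz
      · by_cases hxz : x = z
        · subst hxz
          exact hc y (h4 y hy hxy.symm) hxy.symm
        · by_cases hyz : y = z
          · subst hyz
            exact (hc x (h4 x hx hxz) hxz).symm
          · exact h3 (mem_coe.2 (mem_erase.2 ⟨hxz, hx⟩)) (mem_coe.2 (mem_erase.2 ⟨hyz, hy⟩)) hxy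
    · rw [if_neg hzσ] at hσ
      exact absurd rfl hσ
  · by_cases hzτ : z ∈ τ
    · rw [bd_kap_of_mem hzτ f0 (fun σ hσ => if_pos hσ)]
      have h1 := hbf (τ.erase z)
      have hm : z ∈ (τ.erase z)ᶜ := by simp
      unfold bd at h1 ⊢
      rw [← add_sum_erase _ _ hm, insert_erase hzτ] at h1 ⊢
      have h2 : f0 τ = 0 := if_pos hzτ
      have h3 : ∑ x ∈ ((τ.erase z)ᶜ).erase z, f0 (insert x (τ.erase z)) =
          ∑ x ∈ ((τ.erase z)ᶜ).erase z, f (insert x (τ.erase z)) := by
        refine sum_congr rfl (fun x hx => if_neg ?_)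
        rw [mem_insert, not_or]
        exact ⟨fun h => (mem_erase.1 hx).1 h.symm, notMem_erase z τ⟩
      rw [h2, h3, zero_add]
      have h4 := CharTwo.add_self_eq_zero (f τ)
      exact (add_left_cancel (h1.trans h4.symm))
    · rw [bd_kap_of_notMem hzτ]
      exact if_neg hzτ

end Pool.Agent.H37.CD
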