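import Pool.Agent.H37.CD.Rules

/-!
# helper37, CD, module COLLAPSE: collapsing a family of simplices, deleting an edge

PROOFS (chains `f : Finset V → U`; see file Bd for `bd_add`, `bd_bd (two_eq K)`, `bd_mem`, ...).

`collapse`. `B` is a family of simplices closed upwards and under deleting `a`; `Y = Y'` off `B` and
`Y = 0` on `B`. KEY: if `f` is a chain of `Y'` and `bd f` vanishes on `B`, then there is a chain `h` of
`Y'` such that `f + bd h` vanishes on `B` (so is a chain of `Y`). Take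
`h σ = if a ∈ σ ∧ B (σ.erase a) then f (σ.erase a) else 0` (in `Y' σ` by `hc`, as
`insert a (σ.erase a) = σ`). For `B τ`, `a ∉ τ`: the only nonzero term of `bd h τ` is
`h (insert a τ) = f τ`, so `f1 = f + bd h` vanishes at `τ`. `bd f1 = bd f` vanishes on `B`. For `B τ`,
`a ∉ τ`: `0 = bd f1 τ = ∑_{w ∉ τ} f1 (insert w τ)`; for `w ≠ a` the set `insert w τ` is in `B` and does
not contain `a`, so that term is `0`; hence `f1 (insert a τ) = 0`. Every `σ ∋ a` in `B` is
`insert a (σ.erase a)` with `σ.erase a ∈ B`.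
`Ex Y → Ex Y'`: `f` a cycle of `Y'`; `f1 = f + bd h` is a cycle of `Y`, `= bd k`, `f = bd (h + k)`.
`Ex Y' → Ex Y`: `f` a cycle of `Y`, `f = bd h'`, apply KEY to `h'` (`bd h' = f` vanishes on `B`).

`edgeDel`. `H` is `G` without the edge `x y`. `f` a cycle of `cell H p A`; it is a chain of
`cell G p A`, so `f = bd h`. Let `m τ = if x ∈ τ ∨ y ∈ τ then 0 else h (insert x (insert y τ))`, i.e.
`m = ell x (ell y h)`; it is a chain of `cell G p (lk G A {x, y})`, and
`bd m = ell x (ell y f) = 0` since `f` vanishes on the sets containing `x` and `y` (not cliques of `H`).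
So `m = bd k`; `k' σ = p x (p y (k σ))` is again a chain of the link, fixed by `p x` and `p y`
(`p x`, `p y` commute with each other and with `p w`, `w` a common neighbour), and `bd k' = m`
(`m τ` is fixed by `p x`, `p y`). `c = kap x (kap y k')`, i.e. `σ ↦ k' (σ - x - y)` if `x, y ∈ σ`, is a
chain of `cell G p A`, and `bd c (insert x (insert y τ)) = bd k' τ = m τ` for `x, y ∉ τ` (use
`bd_kap_of_mem` twice, `k'` vanishes on sets containing `x` or `y`). So `h + bd c` vanishes on the sets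
containing `x` and `y`: it is a chain of `cell H p A` with boundary `f`.
-/

namespace Pool.Agent.H37.CD

open Finset

variable {V : Type} [Fintype V] [DecidableEq V]
variable {K : Type} [Field K] [CharP K 2] {U : Type*} [AddCommGroup U] [Module K U]

theorem collapse_key {Y' : Finset V → Submodule K U} (a : V) (B : Finset V → Prop)
    (hY : ∀ σ τ, σ ⊆ τ → Y' τ ≤ Y' σ) (hB1 : ∀ σ τ, σ ⊆ τ → B σ → B τ)
    (hB2 : ∀ σ, B σ → B (σ.erase a)) (hc : ∀ σ, B σ → Y' σ ≤ Y' (insert a σ))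
    {f : Finset V → U} (hf : ∀ σ, f σ ∈ Y' σ) (hb : ∀ τ, B τ → bd f τ = 0) :
    ∃ h : Finset V → U, (∀ σ, h σ ∈ Y' σ) ∧ ∀ τ, B τ → f τ + bd h τ = 0 := by
  classical
  set h : Finset V → U := fun σ => if a ∈ σ ∧ B (σ.erase a) then f (σ.erase a) else 0 with hh
  have hhm : ∀ σ, h σ ∈ Y' σ := by
    intro σ
    simp only [hh]
    split_ifs with h1
    · have := hc _ h1.2 (hf (σ.erase a))
      rwa [insert_erase h1.1] at this
    · exact zero_mem _
  have h0 : ∀ τ, B τ → a ∉ τ → f τ + bd h τ = 0 := by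
    intro τ hτ ha
    have e : bd h τ = f τ := by
      unfold bd
      rw [sum_eq_single a]
      · simp only [hh]
        rw [erase_insert ha, if_pos ⟨mem_insert_self _ _, hτ⟩]
      · intro w hw hwa
        simp only [hh]
        rw [if_neg]
        rintro ⟨h1, _⟩
        rcases mem_insert.1 h1 with h1 | h1
        · exact hwa h1.symm
        · exact ha h1
      · intro h1; exact absurd (mem_compl.2 ha) h1
    rw [e, two_eq K]
  refine ⟨h, hhm, fun τ hτ => ?_⟩
  by_cases ha : a ∈ τ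
  · have hτ' := hB2 τ hτ
    have e : bd (fun σ => f σ + bd h σ) (τ.erase a) = 0 := by
      rw [bd_add f (bd h), hb _ hτ', zero_add, bd_bd (two_eq K)]
    unfold bd at e
    rw [sum_eq_single a] at e
    · rw [insert_erase ha] at e
      exact e
    · intro w hw hwa
      exact h0 _ (hB1 _ _ (subset_insert _ _) hτ') (by
        simp only [mem_insert, not_or]
        exact ⟨fun h => hwa h.symm, notMem_erase a τ⟩)
    · intro h1; exact absurd (mem_compl.2 (notMem_erase a τ)) h1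
  · exact h0 τ hτ ha

theorem collapse {Y Y' : Finset V → Submodule K U} (a : V) (B : Finset V → Prop)
    (hY : ∀ σ τ, σ ⊆ τ → Y' τ ≤ Y' σ) (hB1 : ∀ σ τ, σ ⊆ τ → B σ → B τ)
    (hB2 : ∀ σ, B σ → B (σ.erase a)) (hc : ∀ σ, B σ → Y' σ ≤ Y' (insert a σ))
    (h1 : ∀ σ, B σ → Y σ = ⊥) (h2 : ∀ σ, ¬ B σ → Y σ = Y' σ) : Ex Y ↔ Ex Y' := by
  have hle : ∀ σ, Y σ ≤ Y' σ := by
    intro σ
    by_cases hσ : B σ
    · rw [h1 σ hσ]; exact bot_le
    · rw [h2 σ hσ]
  have hmem : ∀ {f : Finset V → U}, (∀ σ, f σ ∈ Y' σ) → (∀ σ, B σ → f σ = 0) →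
      ∀ σ, f σ ∈ Y σ := by
    intro f hf hf0 σ
    by_cases hσ : B σ
    · rw [hf0 σ hσ]; exact zero_mem _
    · rw [h2 σ hσ]; exact hf σ
  constructor
  · intro hex f hf hb
    obtain ⟨h, hh1, hh2⟩ := collapse_key a B hY hB1 hB2 hc hf (fun τ _ => hb τ)
    obtain ⟨k, hk1, hk2⟩ := hex (fun σ => f σ + bd h σ)
      (hmem (fun σ => add_mem (hf σ) (bd_mem hY hh1 σ)) hh2)
      (fun τ => by rw [bd_add f (bd h), hb, zero_add, bd_bd (two_eq K)])
    refine ⟨fun σ => k σ + h σ, fun σ => add_mem (hle σ (hk1 σ)) (hh1 σ), fun τ => ?_⟩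
    rw [bd_add, hk2, add_assoc, two_eq K, add_zero]
  · intro hex f hf hb
    obtain ⟨h', hh1, hh2⟩ := hex f (fun σ => hle σ (hf σ)) hb
    have hf0 : ∀ τ, B τ → f τ = 0 := by
      intro τ hτ
      have := hf τ
      rw [h1 τ hτ] at this
      exact (Submodule.mem_bot K).1 this
    obtain ⟨h, hk1, hk2⟩ := collapse_key a B hY hB1 hB2 hc hh1 (fun τ hτ => by rw [hh2, hf0 τ hτ])
    refine ⟨fun σ => h' σ + bd h σ, hmem (fun σ => add_mem (hh1 σ) (bd_mem hY hk1 σ)) hk2,
      fun τ => ?_⟩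
    rw [bd_add h' (bd h), hh2, bd_bd (two_eq K), add_zero]

theorem mem_lk_pair {G : SimpleGraph V} {A : Finset V} {x y z : V} :
    z ∈ lk G A {x, y} ↔ z ∈ A ∧ G.Adj x z ∧ G.Adj y z := by
  simp [lk]

theorem edgeDel {G H : SimpleGraph V} {p : V → Module.End K U} (hp : CS G p) {A : Finset V}
    {x y : V} (hx : x ∈ A) (hy : y ∈ A) (hxy : G.Adj x y)
    (hH : ∀ u w, H.Adj u w ↔ G.Adj u w ∧ ¬ (u = x ∧ w = y) ∧ ¬ (u = y ∧ w = x))
    (h1 : Ex (cell G p A)) (h2 : Ex (cell G p (lk G A {x, y}))) : Ex (cell H p A) := by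
  have hne : x ≠ y := G.ne_of_adj hxy
  have hY : ∀ σ τ, σ ⊆ τ → cell G p A τ ≤ cell G p A σ := fun σ τ h => cell_anti G p A h
  -- cells of `H` and `G`
  have hHG : ∀ σ, cell H p A σ ≤ cell G p A σ := by
    rintro σ u ⟨hu1, hu2⟩
    exact ⟨fun h0 => ⟨(hu1 h0).1, fun c hc d hd hcd => ((hH c d).1 ((hu1 h0).2 hc hd hcd)).1⟩, hu2⟩
  have hGH : ∀ {f : Finset V → U}, (∀ σ, f σ ∈ cell G p A σ) →
      (∀ σ, x ∈ σ → y ∈ σ → f σ = 0) → ∀ σ, f σ ∈ cell H p A σ := by
    intro f hf h0 σ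
    refine ⟨fun hn => ?_, (hf σ).2⟩
    have h3 := (hf σ).1 hn
    refine ⟨h3.1, fun c hc d hd hcd => (hH c d).2 ⟨h3.2 hc hd hcd, ?_, ?_⟩⟩
    · rintro ⟨rfl, rfl⟩; exact hn (h0 σ hc hd)
    · rintro ⟨rfl, rfl⟩; exact hn (h0 σ hd hc)
  intro f hf hb
  have hf0 : ∀ σ, x ∈ σ → y ∈ σ → f σ = 0 := by
    intro σ hxσ hyσ
    by_contra h
    have := ((hf σ).1 h).2 hxσ hyσ hne
    exact ((hH x y).1 this).2.1 ⟨rfl, rfl⟩
  obtain ⟨h, hh1, hh2⟩ := h1 f (fun σ => hHG σ (hf σ)) hb
  -- the part at the edge `x y`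
  have hm1 : ∀ τ, ell x (ell y h) τ ∈ cell G p (lk G A {x, y}) τ := by
    intro τ
    unfold ell
    split_ifs with h3 h4
    · exact zero_mem _
    · exact zero_mem _
    · have h5 := hh1 (insert y (insert x τ))
      refine ⟨fun h0 => ?_, fun w hw => h5.2 w (mem_insert_of_mem (mem_insert_of_mem hw))⟩
      have h6 := h5.1 h0
      refine ⟨fun z hz => mem_lk_pair.2 ⟨h6.1 (mem_insert_of_mem (mem_insert_of_mem hz)), ?_, ?_⟩,
        h6.2.subset (by
          intro z hz; simp only [coe_insert, Set.mem_insert_iff]; exact Or.inr (Or.inr hz))⟩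
      · exact h6.2 (by simp) (by simp [hz]) (fun h => h3 (h ▸ hz))
      · exact h6.2 (by simp) (by simp [hz]) (fun h => h4 (h ▸ mem_insert_of_mem hz))
  have hmx : ∀ τ, p x (ell x (ell y h) τ) = ell x (ell y h) τ := by
    intro τ
    unfold ell
    split_ifs with h3 h4
    · exact map_zero _
    · exact map_zero _
    · exact (hh1 _).2 x (mem_insert_of_mem (mem_insert_self _ _))
  have hmy : ∀ τ, p y (ell x (ell y h) τ) = ell x (ell y h) τ := by
    intro τ
    unfold ell
    split_ifs with h3 h4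
    · exact map_zero _
    · exact map_zero _
    · exact (hh1 _).2 y (mem_insert_self _ _)
  have hmb : ∀ τ, bd (ell x (ell y h)) τ = 0 := by
    intro τ
    rw [bd_ell]
    have e : bd (ell y h) = ell y (bd h) := funext (fun τ => bd_ell y h τ)
    rw [e]
    unfold ell
    split_ifs with h3 h4
    · rfl
    · rfl
    · rw [hh2]
      exact hf0 _ (mem_insert_of_mem (mem_insert_self _ _)) (mem_insert_self _ _)
  obtain ⟨k, hk1, hk2⟩ := h2 _ hm1 hmb
  have hcomm : ∀ u : U, p x (p y u) = p y (p x u) := by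
    intro u
    have := congrArg (fun T : Module.End K U => T u) (hp.2 x y hxy)
    simpa using this
  have hpv : ∀ v, (∀ z ∈ lk G A {x, y}, G.Adj v z) → ∀ σ u, u ∈ cell G p (lk G A {x, y}) σ →
      p v u ∈ cell G p (lk G A {x, y}) σ := by
    intro v hv σ u hu
    refine ⟨fun h0 => hu.1 (fun h => h0 (by rw [h, map_zero])), fun w hw => ?_⟩
    by_cases h : u = 0
    · rw [h, map_zero, map_zero]
    · have h1 := hp.2 v w (hv w ((hu.1 h).1 hw))
      have h2 : p v (p w u) = p w (p v u) := by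
        have := congrArg (fun T : Module.End K U => T u) h1
        simpa using this
      rw [← h2, hu.2 w hw]
  set k' : Finset V → U := fun σ => p x (p y (k σ)) with hk'
  have hk'm : ∀ σ, k' σ ∈ cell G p (lk G A {x, y}) σ := fun σ =>
    hpv x (fun z hz => (mem_lk_pair.1 hz).2.1) σ _
      (hpv y (fun z hz => (mem_lk_pair.1 hz).2.2) σ _ (hk1 σ))
  have hk'x : ∀ σ, p x (k' σ) = k' σ := fun σ => pp hp x _
  have hk'y : ∀ σ, p y (k' σ) = k' σ := fun σ => by
    simp only [hk']; rw [← hcomm, pp hp]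
  have hk'b : ∀ τ, bd k' τ = ell x (ell y h) τ := by
    intro τ
    have e : bd k' τ = p x (p y (bd k τ)) := by
      simp only [hk']
      rw [bd_mapl (p x) (fun σ => p y (k σ)), bd_mapl (p y)]
    rw [e, hk2, hmy, hmx]
  have hk'0x : ∀ σ, x ∈ σ → k' σ = 0 := by
    intro σ hσ
    by_contra h0
    exact G.irrefl (mem_lk_pair.1 (((hk'm σ).1 h0).1 hσ)).2.1
  have hk'0y : ∀ σ, y ∈ σ → k' σ = 0 := by
    intro σ hσ
    by_contra h0
    exact G.irrefl (mem_lk_pair.1 (((hk'm σ).1 h0).1 hσ)).2.2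
  -- join with `x` and `y`
  have hc1 : ∀ σ, kap y (kap x k') σ ∈ cell G p A σ := by
    intro σ
    unfold kap
    split_ifs with h3 h4
    · have h5 := hk'm ((σ.erase y).erase x)
      have hxσ : x ∈ σ := (mem_erase.1 h4).2
      refine ⟨fun h0 => ?_, fun w hw => ?_⟩
      · have h6 := h5.1 h0
        have h7 : ∀ z ∈ σ, z ≠ x → z ≠ y → z ∈ A ∧ G.Adj x z ∧ G.Adj y z :=
          fun z hz hzx hzy => mem_lk_pair.1 (h6.1 (mem_erase.2 ⟨hzx, mem_erase.2 ⟨hzy, hz⟩⟩))
        refine ⟨fun z hz => ?_, fun c hc d hd hcd => ?_⟩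
        · by_cases hzx : z = x
          · rw [hzx]; exact hx
          · by_cases hzy : z = y
            · rw [hzy]; exact hy
            · exact (h7 z hz hzx hzy).1
        · have hc' : c ∈ σ := hc
          have hd' : d ∈ σ := hd
          by_cases hcx : c = x
          · subst hcx
            by_cases hdy : d = y
            · rw [hdy]; exact hxy
            · exact (h7 d hd' (fun h => hcd h.symm) hdy).2.1
          · by_cases hcy : c = y
            · subst hcy
              by_cases hdx : d = x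
              · rw [hdx]; exact hxy.symm
              · exact (h7 d hd' hdx (fun h => hcd h.symm)).2.2
            · by_cases hdx : d = x
              · rw [hdx]; exact (h7 c hc' hcx hcy).2.1.symm
              · by_cases hdy : d = y
                · rw [hdy]; exact (h7 c hc' hcx hcy).2.2.symm
                · exact h6.2 (by simp [hcx, hcy, hc']) (by simp [hdx, hdy, hd']) hcd
      · by_cases hwx : w = x
        · rw [hwx]; exact hk'x _
        · by_cases hwy : w = y
          · rw [hwy]; exact hk'y _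
          · exact h5.2 w (mem_erase.2 ⟨hwx, mem_erase.2 ⟨hwy, hw⟩⟩)
    · exact zero_mem _
    · exact zero_mem _
  have hkx0 : ∀ σ, y ∈ σ → kap x k' σ = 0 := by
    intro σ hσ
    unfold kap
    split_ifs with h3
    · exact hk'0y _ (mem_erase.2 ⟨hne.symm, hσ⟩)
    · rfl
  have hcb : ∀ σ, x ∈ σ → y ∈ σ → bd (kap y (kap x k')) σ = h σ := by
    intro σ hxσ hyσ
    rw [bd_kap_of_mem hyσ _ hkx0, bd_kap_of_mem (mem_erase.2 ⟨hne, hxσ⟩) _ hk'0x, hk'b]
    unfold ell
    rw [if_neg (notMem_erase _ _), if_neg, insert_erase (mem_erase.2 ⟨hne, hxσ⟩),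
      insert_erase hyσ]
    simp only [mem_insert, mem_erase, not_or, not_and]
    exact ⟨hne.symm, fun _ h => absurd rfl h⟩
  refine ⟨fun σ => h σ + bd (kap y (kap x k')) σ, hGH (fun σ => add_mem (hh1 σ)
    (bd_mem hY hc1 σ)) (fun σ hxσ hyσ => by rw [hcb σ hxσ hyσ, two_eq K]), fun τ => ?_⟩
  rw [bd_add h (bd (kap y (kap x k'))), hh2, bd_bd (two_eq K), add_zero]

end Pool.Agent.H37.CD
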