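import Pool.Agent.H37.CD.NerveA

/-!
# helper37, CD, module SPHERE: facts on flag spheres

`lk_lk`: the link in `lk G A σ` of `τ` is the link of `σ ∪ τ`.
`sphere_lk`: induction on `τ` (`Finset.induction_on`) or on `r`: for `τ = insert v τ'`, `v ∈ A` (as `τ ⊆ A`),
`FlagSphere G r A` with `r = r' + 1` (`r = 0` gives `A = ∅`), `lk G A {v}` is a flag sphere of rank `r'`,
`τ' ⊆ lk G A {v}` is a clique, and `lk G (lk G A {v}) τ' = lk G A τ`.
`sphere_clique`: induction on `r`: take `v ∈ A` and a clique `σ ⊆ lk G A {v}` of size `r'`; `insert v σ`.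
`sphere_nb`: let `D = far G A v`, `s ⊆ A.erase v` a clique. If some `z ∈ s` is not adjacent to `v` then
`z ∈ D`, `z ∈ nb G D s` (`s` is a clique) and every other element of `nb G D s` is adjacent to `z`: a cone
(`acyclicTwo_cone`). Otherwise all elements of `s` are adjacent to `v`, so `s ∩ D = ∅` and
`nb G D s = far G (lk G A s) v`, where `lk G A s` is a flag sphere (of rank `r - s.card`, which is not `0`
because it contains `v`): use the definition. (For `s = ∅`: `nb G D ∅ = D`, `lk G A ∅ = A`: the same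
argument works.)
-/

namespace Pool.Agent.H37.CD

open Finset

variable {V : Type} [Fintype V] [DecidableEq V]

theorem mem_lk {G : SimpleGraph V} {A τ : Finset V} {x : V} :
    x ∈ lk G A τ ↔ x ∈ A ∧ ∀ v ∈ τ, G.Adj v x := by
  simp [lk]

theorem mem_far {G : SimpleGraph V} {A : Finset V} {v x : V} :
    x ∈ far G A v ↔ x ∈ A ∧ x ≠ v ∧ ¬ G.Adj v x := by
  simp [far]

theorem lk_lk (G : SimpleGraph V) (A σ τ : Finset V) :
    lk G (lk G A σ) τ = lk G A (σ ∪ τ) := by
  ext x
  simp only [mem_lk, mem_union]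
  constructor
  · rintro ⟨⟨h1, h2⟩, h3⟩
    exact ⟨h1, fun v hv => hv.elim (h2 v) (h3 v)⟩
  · rintro ⟨h1, h2⟩
    exact ⟨⟨h1, fun v hv => h2 v (Or.inl hv)⟩, fun v hv => h2 v (Or.inr hv)⟩

theorem sph_lk_empty (G : SimpleGraph V) (A : Finset V) : lk G A ∅ = A := by
  ext x
  simp [mem_lk]

theorem sphere_lk {G : SimpleGraph V} {r : ℕ} {A : Finset V} (hA : FlagSphere G r A)
    {τ : Finset V} (hτ : τ ⊆ A) (hc : G.IsClique (τ : Set V)) :
    τ.card ≤ r ∧ FlagSphere G (r - τ.card) (lk G A τ) := by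
  induction r generalizing A τ with
  | zero =>
    have hA0 : A = ∅ := hA
    subst hA0
    have hτ0 : τ = ∅ := subset_empty.1 hτ
    subst hτ0
    rw [sph_lk_empty]
    exact ⟨le_rfl, rfl⟩
  | succ r ih =>
    rcases τ.eq_empty_or_nonempty with rfl | ⟨v, hv⟩
    · rw [sph_lk_empty]
      exact ⟨Nat.zero_le _, hA⟩
    · have h1 := (hA.2 v (hτ hv)).1
      have h2 : τ.erase v ⊆ lk G A {v} := by
        intro x hx
        rw [mem_erase] at hx
        rw [mem_lk]
        refine ⟨hτ hx.2, fun w hw => ?_⟩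
        rw [mem_singleton] at hw
        subst hw
        exact hc (mem_coe.2 hv) (mem_coe.2 hx.2) hx.1.symm
      have h3 : G.IsClique ((τ.erase v : Finset V) : Set V) :=
        hc.subset (by exact_mod_cast erase_subset v τ)
      obtain ⟨h4, h5⟩ := ih h1 h2 h3
      have h6 : (τ.erase v).card = τ.card - 1 := card_erase_of_mem hv
      have h7 : 0 < τ.card := card_pos.2 ⟨v, hv⟩
      rw [lk_lk] at h5
      have h8 : {v} ∪ τ.erase v = τ := by
        rw [← insert_eq, insert_erase hv]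
      rw [h8] at h5
      refine ⟨by omega, ?_⟩
      have h9 : r + 1 - τ.card = r - (τ.erase v).card := by omega
      rw [h9]
      exact h5

theorem sphere_clique {G : SimpleGraph V} {r : ℕ} {A : Finset V} (hA : FlagSphere G r A) :
    ∃ σ ⊆ A, G.IsClique (σ : Set V) ∧ σ.card = r := by
  induction r generalizing A with
  | zero => exact ⟨∅, empty_subset _, by simp, rfl⟩
  | succ r ih =>
    obtain ⟨v, hv⟩ := hA.1
    obtain ⟨σ, h1, h2, h3⟩ := ih (hA.2 v hv).1
    have hadj : ∀ x ∈ σ, G.Adj v x := fun x hx => (mem_lk.1 (h1 hx)).2 v (mem_singleton_self v)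
    have hvσ : v ∉ σ := fun h => G.irrefl (hadj v h)
    refine ⟨insert v σ, ?_, ?_, ?_⟩
    · intro x hx
      rcases mem_insert.1 hx with rfl | hx
      · exact hv
      · exact (mem_lk.1 (h1 hx)).1
    · rw [coe_insert, SimpleGraph.isClique_insert]
      exact ⟨h2, fun x hx _ => hadj x (mem_coe.1 hx)⟩
    · rw [card_insert_of_notMem hvσ, h3]

theorem sphere_nb {G : SimpleGraph V} {r : ℕ} {A : Finset V} (hA : FlagSphere G r A)
    {v : V} (hv : v ∈ A) {s : Finset V} (hs : s ⊆ A.erase v) (hc : G.IsClique (s : Set V)) :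
    AcyclicTwo G (nb G (far G A v) s) := by
  have mem_nb : ∀ (D : Finset V) (y : V), y ∈ nb G D s ↔ y ∈ D ∧ ∀ z ∈ s, y = z ∨ G.Adj z y := by
    intro D y; simp [nb]
  by_cases h : ∃ z ∈ s, ¬ G.Adj v z
  · obtain ⟨z, hz, hvz⟩ := h
    have hzA := mem_erase.1 (hs hz)
    refine acyclicTwo_cone (z := z) ?_ ?_
    · rw [mem_nb, mem_far]
      refine ⟨⟨hzA.2, hzA.1, hvz⟩, fun w hw => ?_⟩
      by_cases hwz : z = w
      · exact Or.inl hwz
      · exact Or.inr (hc (mem_coe.2 hw) (mem_coe.2 hz) (Ne.symm hwz))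
    · intro x hx hxz
      exact (((mem_nb _ _).1 hx).2 z hz).resolve_left hxz
  · push Not at h
    have e : nb G (far G A v) s = far G (lk G A s) v := by
      ext y
      rw [mem_nb, mem_far, mem_far, mem_lk]
      constructor
      · rintro ⟨⟨h1, h2, h3⟩, h4⟩
        refine ⟨⟨h1, fun z hz => (h4 z hz).resolve_left ?_⟩, h2, h3⟩
        rintro rfl
        exact h3 (h y hz)
      · rintro ⟨⟨h1, h4⟩, h2, h3⟩
        exact ⟨⟨h1, h2, h3⟩, fun z hz => Or.inr (h4 z hz)⟩
    rw [e]
    obtain ⟨-, h2⟩ := sphere_lk hA (hs.trans (erase_subset _ _)) hc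
    have hvl : v ∈ lk G A s := mem_lk.2 ⟨hv, fun z hz => (h z hz).symm⟩
    rcases hk : r - s.card with _ | k
    · rw [hk] at h2
      have h3 : lk G A s = ∅ := h2
      rw [h3] at hvl
      exact absurd hvl (notMem_empty v)
    · rw [hk] at h2
      exact (h2.2 v hvl).2

end Pool.Agent.H37.CD
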