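import Pool.Agent.H37.CD.Nerve
import Pool.Agent.H37.CD.Sphere

/-!
# helper37, CD, module CONC: vanishing above and below from a certificate `Bnd`

`hred` says that the complex of every set with the property `P` is exact (`p` is fixed).

`upper_aux` (Lemma U). Induction on `D.card` (generalizing `A`, `D`). `D = ∅` is `h2`. Otherwise pick
`w ∈ D` and apply `R1` with `v = w`, `i = q + 1`: (1) `A.erase w` with `D.erase w`: its `h2` is the same set
`(A.erase w) \ (D.erase w) = A \ D`, its `h1`: for a nonempty clique `τ ⊆ D.erase w`,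
`lk G (A.erase w) τ = (lk G A τ).erase w`; if `w ∉ lk G A τ` this is `lk G A τ`, otherwise use `R2` with
`h1 τ` and `h1 (insert w τ)` (`lk G (lk G A τ) {w} = lk G A (insert w τ)`, `lk_lk`). (2) `h1 {w}`.

`upper`. Induction on `Bnd`. `base`: `hred`, `Ex_iff`. `top`: a chain of degree `i ≥ t` is zero (a nonzero
value at `σ` makes `σ` a clique in `A` with `i ≥ t` elements): take `h = 0`. `step`: `i = q + 1`, `q ≥ t`;
`upper_aux` with `D = far G A v`: `h1` is the induction hypothesis; `h2`: `A \ D = insert v (lk G A {v})`,
`cone` and the induction hypothesis for the link of `v`.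

`lower`. Induction on `Bnd` (for all `r`). `base`: as before. `top`: `sphere_clique` gives a clique with
`r ≥ t` elements: contradiction. `step` (`t + 1`, `i + (t + 1) ≤ r`): `r = r' + 1`. `R1` with `v`:
(1) `A.erase v` in degree `i`: `nerve` with `N = A.erase v`, `D = far G A v`, `hs` = `sphere_nb`, and for a
nonempty clique `τ ⊆ D` one has `lk G (A.erase v) τ = lk G A τ` (`v` is not adjacent to the elements of `τ`), a
flag sphere of rank `r - τ.card` (`sphere_lk`), and `q + t ≤ r - τ.card` because `q + τ.card ≤ i + 1`.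
(2) the link of `v` is a flag sphere of rank `r'`, and `j + (t + 1) ≤ r'` if `j + 1 = i`.
-/

namespace Pool.Agent.H37.CD

open Finset

variable {V : Type} [Fintype V] [DecidableEq V]
variable {K : Type} [Field K] [CharP K 2] {U : Type*} [AddCommGroup U] [Module K U]

theorem far_subset' (G : SimpleGraph V) (A : Finset V) (v : V) : far G A v ⊆ A :=
  fun _ h => (mem_far.1 h).1

theorem upper_aux {G : SimpleGraph V} {p : V → Module.End K U} (hp : CS G p) {A D : Finset V}
    (hD : D ⊆ A) {q : ℕ}
    (h1 : ∀ τ ⊆ D, τ.Nonempty → G.IsClique (τ : Set V) → ExAt (cell G p (lk G A τ)) q)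
    (h2 : ExAt (cell G p (A \ D)) (q + 1)) : ExAt (cell G p A) (q + 1) := by
  induction hn : D.card generalizing A D with
  | zero =>
    obtain rfl : D = ∅ := Finset.card_eq_zero.1 hn
    rwa [Finset.sdiff_empty] at h2
  | succ n ih =>
    obtain ⟨w, hw⟩ : D.Nonempty := Finset.card_pos.1 (by omega)
    have hwA : w ∈ A := hD hw
    refine R1 hp hwA ?_ ?_
    · refine ih (D := D.erase w) (Finset.erase_subset_erase w hD) ?_ ?_ ?_
      · intro τ hτ hne hc
        have hτD : τ ⊆ D := hτ.trans (Finset.erase_subset _ _)
        have e : lk G (A.erase w) τ = (lk G A τ).erase w := by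
          ext x
          simp only [mem_lk, Finset.mem_erase]
          tauto
        rw [e]
        by_cases hwl : w ∈ lk G A τ
        · refine R2 hp hwl (h1 τ hτD hne hc) ?_
          rw [lk_lk, Finset.union_comm, ← Finset.insert_eq]
          refine h1 _ (Finset.insert_subset hw hτD) (Finset.insert_nonempty _ _) ?_
          rw [Finset.coe_insert, SimpleGraph.isClique_insert]
          exact ⟨hc, fun b hb _ => ((mem_lk.1 hwl).2 b hb).symm⟩
        · rw [Finset.erase_eq_of_notMem hwl]
          exact h1 τ hτD hne hc
      · have e : (A.erase w) \ (D.erase w) = A \ D := by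
          ext x
          simp only [Finset.mem_sdiff, Finset.mem_erase]
          constructor
          · rintro ⟨⟨h1, h2⟩, h3⟩
            exact ⟨h2, fun h => h3 ⟨h1, h⟩⟩
          · rintro ⟨h1, h2⟩
            have : x ≠ w := fun h => h2 (h ▸ hw)
            exact ⟨⟨this, h1⟩, fun h => h2 h.2⟩
        rw [e]
        exact h2
      · rw [Finset.card_erase_of_mem hw, hn]
        rfl
    · intro j hj
      obtain rfl : j = q := by omega
      exact h1 {w} (Finset.singleton_subset_iff.2 hw) (Finset.singleton_nonempty w)
        (by rw [Finset.coe_singleton]; exact SimpleGraph.isClique_singleton w)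

theorem upper {G : SimpleGraph V} {p : V → Module.End K U} (hp : CS G p)
    {P : Finset V → Prop} (hred : ∀ L, P L → Ex (cell G p L)) {t : ℕ} {A : Finset V}
    (hA : Bnd G P t A) :
    ∀ i, t ≤ i → ExAt (cell G p A) i := by
  induction hA with
  | base t A h =>
    intro i _
    exact Ex_iff.1 (hred A h) i
  | top t A h =>
    intro i hi f hf hdeg _
    have hf0 : ∀ σ, f σ = 0 := by
      intro σ
      by_contra hσ
      have hσi : σ.card = i := by
        by_contra hne
        exact hσ (hdeg σ hne)
      obtain ⟨h1, h2⟩ := (hf σ).1 hσ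
      have := h σ h1 h2
      omega
    refine ⟨fun _ => 0, fun σ => Submodule.zero_mem _, fun τ => ?_⟩
    rw [bd_zero, hf0]
  | step t A v hv _ _ ih1 ih2 =>
    intro i hi
    obtain ⟨q, rfl⟩ : ∃ q, i = q + 1 := ⟨i - 1, by omega⟩
    refine upper_aux hp (far_subset' G A v) (fun τ hτ hne hc => ih2 τ hτ hne hc q (by omega)) ?_
    have e : A \ far G A v = insert v (lk G A {v}) := by
      ext x
      simp only [Finset.mem_sdiff, mem_far, Finset.mem_insert, mem_lk, Finset.mem_singleton,
        forall_eq]
      constructor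
      · rintro ⟨h1, h2⟩
        by_cases hx : x = v
        · exact Or.inl hx
        · exact Or.inr ⟨h1, by_contra fun h => h2 ⟨h1, hx, h⟩⟩
      · rintro (rfl | ⟨h1, h2⟩)
        · exact ⟨hv, fun h => h.2.1 rfl⟩
        · exact ⟨h1, fun h => h.2.2 h2⟩
    have hvl : v ∉ lk G A {v} := by
      intro h
      exact G.irrefl ((mem_lk.1 h).2 v (Finset.mem_singleton_self v))
    rw [e]
    refine cone hp (Finset.mem_insert_self v _) ?_ ?_
    · intro x hx hxv
      rcases Finset.mem_insert.1 hx with h | h
      · exact absurd h hxv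
      · exact (mem_lk.1 h).2 v (Finset.mem_singleton_self v)
    · rw [Finset.erase_insert hvl]
      exact ih1 (q + 1) (by omega)

theorem lower {G : SimpleGraph V} {p : V → Module.End K U} (hp : CS G p)
    {P : Finset V → Prop} (hred : ∀ L, P L → Ex (cell G p L)) {t : ℕ} {A : Finset V}
    (hA : Bnd G P t A) :
    ∀ r, FlagSphere G r A → ∀ i, i + t ≤ r → ExAt (cell G p A) i := by
  induction hA with
  | base t A h =>
    intro r _ i _
    exact Ex_iff.1 (hred A h) i
  | top t A h =>
    intro r hA i hi
    obtain ⟨σ, h1, h2, h3⟩ := sphere_clique hA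
    have := h σ h1 h2
    omega
  | step t A v hv _ _ ih1 ih2 =>
    intro r hA i hi
    obtain ⟨r', rfl⟩ : ∃ r', r = r' + 1 := ⟨r - 1, by omega⟩
    have hsub : far G A v ⊆ A.erase v := by
      intro x hx
      have := mem_far.1 hx
      exact Finset.mem_erase.2 ⟨this.2.1, this.1⟩
    refine R1 hp hv ?_ ?_
    · refine nerve hp hsub (fun s hs hc => sphere_nb hA hv hs hc) ?_
      intro τ hτ hne hc q hq
      have e : lk G (A.erase v) τ = lk G A τ := by
        ext x
        simp only [mem_lk, Finset.mem_erase]
        constructor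
        · rintro ⟨⟨_, h1⟩, h2⟩
          exact ⟨h1, h2⟩
        · rintro ⟨h1, h2⟩
          refine ⟨⟨?_, h1⟩, h2⟩
          rintro rfl
          obtain ⟨y, hy⟩ := hne
          exact (mem_far.1 (hτ hy)).2.2 (h2 y hy).symm
      obtain ⟨h1, h2⟩ := sphere_lk hA (hτ.trans (far_subset' G A v)) hc
      rw [e]
      exact ih2 τ hτ hne hc _ h2 q (by omega)
    · intro j hj
      exact ih1 r' (hA.2 v hv).1 j (by omega)

end Pool.Agent.H37.CD
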