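import Pool.Agent.H92.CY.Cov

/-!
# THEOREM CCA: the core (finitely generated case with wall stabilisers in the class)
-/

set_option autoImplicit false

namespace Pool.Agent.H37.CD

open scoped Pointwise
open Pool.Agent.H98.FJ Pool.Agent.H37.PT Pool.Agent.H76.GT Pool.Agent.H37.CC

theorem core {C : (G : Type) → [Group G] → Prop} (hC : Inherits C) (hT : Transfer C) {G H : Type} [Group G] [PartialOrder H]
    [Bas H] [MulAction G H] [BAct G H] (hfg : Group.FG G) {n k N : ℕ} (hn : 0 < n) (hd : Dim H n) (hN : Acy G H k N)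
    (hv : ∀ y : Vtx H, C (MulAction.stabilizer G y)) (hst : ∀ w : H, C (MulAction.stabilizer G w)) : C G := by
  obtain ⟨κ, Q, hQ, hloc⟩ := local_main n k N hn
  refine transfer88 hT hfg (n := n) (N := n + ∑ t : Ti n, NN n t) (Nat.le_add_right _ _) hd fun F hF => ?_
  obtain ⟨S, R, hFS, hS⟩ := exists_gn (H := H) hfg hF
  obtain ⟨U, hU⟩ := cover_gn (X := Pool.Agent.H88.CX.Xh H) hC hn hd hN (class_of_ell hC hd hv) hst hQ
    (fun P hP y hy b r hr => hloc G H hd hN P hP y hy b r hr) hS crd_crd (M := n + ∑ t : Ti n, NN n t) (by omega)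
  exact ⟨U, hU.isOpen, hU.inv, hU.eq, hU.stab, hU.mult, fun g x => by
    obtain ⟨u, hu, h1⟩ := hU.wide g x
    exact ⟨u, hu, fun s hs => h1 s (hFS hs)⟩⟩

end Pool.Agent.H37.CD
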