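import Pool.Agent.H37.CC.Ps

/-!
# THEOREM CCA: definitions for acylindrical actions

`Ell H B`: the subgroup `B` has a bounded orbit. `Lx H g`: `g` has unbounded orbits. `Acy G H k N`: at most `N` elements fix two vertices
at distance at least `k`.
-/

set_option autoImplicit false

namespace Pool.Agent.H37.CD

open Pool.Agent.H37.CC
open scoped Pointwise

/-- subgroups with a bounded orbit -/
def Ell {G : Type} (H : Type) [Group G] [PartialOrder H] [Bas H] [MulAction G H] [BAct G H] (B : Subgroup G) : Prop :=
  ∃ M : ℕ, ∀ b ∈ B, ds (bs : Vtx H) (b • bs) ≤ M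

/-- elements with unbounded orbits -/
def Lx {G : Type} (H : Type) [Group G] [PartialOrder H] [Bas H] [MulAction G H] [BAct G H] (g : G) : Prop :=
  ¬ Ell H (Subgroup.zpowers g)

/-- acylindrical actions -/
def Acy (G H : Type) [Group G] [PartialOrder H] [Bas H] [MulAction G H] [BAct G H] (k N : ℕ) : Prop :=
  ∀ x y : Vtx H, k ≤ ds x y → {g : G | g • x = x ∧ g • y = y}.encard ≤ N

end Pool.Agent.H37.CD
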