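import Pool.Agent.H37.CD.Bd

/-!
# helper37, CD, module EULER: dimensions of the cells, Euler characteristic

`dim_cell`: for a clique `σ ⊆ A`, `2 ^ σ.card * finrank K (cell G (proj e) A σ) = card ι`.
Induction on `σ`. `σ = ∅`: the cell is everything (`∅ ⊆ A` is a clique). `σ = insert v τ` (`v ∉ τ`): let
`W = cell τ`, `W' = cell (insert v τ)`. `W ≃ₗ W' × W'` by `x ↦ (e¹¹ x, e¹⁰ x)` with inverse
`(y, z) ↦ y + e⁰¹ z`, where `eⁱʲ` is the linear map of the matrix `e v i j`: these maps commute with `p w`,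
`w ∈ τ` (adjacent to `v`), so preserve `W`; `e¹¹ e¹⁰ = e¹⁰` so `e¹⁰ x` is fixed by `p v = e¹¹`;
`e¹¹ x + e⁰¹ e¹⁰ x = (e¹¹ + e⁰⁰) x = x`; `e¹¹ (y + e⁰¹ z) = y` (as `y = e¹¹ y`, `e¹¹ e⁰¹ = 0`), and
`e¹⁰ (y + e⁰¹ z) = e¹⁰ e¹¹ y + e¹¹ z = z`. So `finrank W = 2 finrank W'`.

`euler`: let `C i` be the submodule of `Finset V → ι → K` of the `f` with `f σ ∈ cell σ` for all `σ` and
`f σ = 0` if `σ.card ≠ i`; `finrank (C i) = ∑` over the cliques `σ ⊆ A` with `σ.card = i` of the dimension of
the cell (`C i` is linearly equivalent to the product of the cells of the `σ` of cardinality `i`; the cells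
of the other sets are zero). `bd` maps `C (i+1)` to `C i` (linear); let `b i` be the dimension of the image of
`bd : C (i+1) → C i` and `z i` the dimension of the kernel of `bd` on `C i` (for `i = 0` the kernel is `C 0`).
Rank-nullity: `finrank (C 0) = z 0`, `finrank (C (i+1)) = z (i+1) + b i`. Exactness in degree `i` gives
`b i = z i` (the chain `h` may be truncated to degree `i+1`, `bd_trunc_succ`), in general `b i ≤ z i`
(`bd_bd (two_eq K)`). For `i > card V`, `C i = 0`. So in `ℤ` (or `ℚ`):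
`∑ i ≤ n, (-1)^i finrank (C i) = ∑ i ≤ n, (-1)^i (z i - b i) = (-1)^m (z m - b m)` for large `n`
(`b n = 0`). The left side is `(card ι) * omega G A`, by `dim_cell`. Multiply by `(-1)^m`.
(If `m > card V` everything is `0`.)
-/

namespace Pool.Agent.H37.CD

open Finset

set_option linter.unusedSectionVars false

variable {V : Type} [Fintype V] [DecidableEq V]
variable {K : Type} [Field K] [CharP K 2] {ι : Type} [Fintype ι] [DecidableEq ι]

namespace Euler

omit [Fintype V] [DecidableEq V] [CharP K 2] in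
theorem toLin_mul {G : SimpleGraph V} {e : V → Fin 2 → Fin 2 → Matrix ι ι K} (he : MSys G e)
    (v : V) (i j k l : Fin 2) (x : ι → K) :
    Matrix.toLin' (e v i j) (Matrix.toLin' (e v k l) x)
      = if j = k then Matrix.toLin' (e v i l) x else 0 := by
  rw [← LinearMap.comp_apply, ← Matrix.toLin'_mul, (he.mu v).mul]
  split_ifs <;> simp

omit [Fintype V] [DecidableEq V] [CharP K 2] in
theorem toLin_one {G : SimpleGraph V} {e : V → Fin 2 → Fin 2 → Matrix ι ι K} (he : MSys G e)
    (v : V) (x : ι → K) :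
    Matrix.toLin' (e v 0 0) x + Matrix.toLin' (e v 1 1) x = x := by
  rw [← LinearMap.add_apply, ← map_add, (he.mu v).one]
  simp

omit [Fintype V] [DecidableEq V] [CharP K 2] in
theorem toLin_comm {G : SimpleGraph V} {e : V → Fin 2 → Fin 2 → Matrix ι ι K} (he : MSys G e)
    {v w : V} (h : G.Adj v w) (i j k l : Fin 2) (x : ι → K) :
    Matrix.toLin' (e v i j) (Matrix.toLin' (e w k l) x)
      = Matrix.toLin' (e w k l) (Matrix.toLin' (e v i j) x) := by
  rw [← LinearMap.comp_apply, ← LinearMap.comp_apply, ← Matrix.toLin'_mul, ← Matrix.toLin'_mul,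
    he.comm v w h]

omit [Fintype V] [DecidableEq V] [CharP K 2] in
theorem mem_cell' {G : SimpleGraph V} {e : V → Fin 2 → Fin 2 → Matrix ι ι K}
    {A σ : Finset V} (hσ : σ ⊆ A) (hc : G.IsClique (σ : Set V)) {x : ι → K} :
    x ∈ cell G (proj e) A σ ↔ ∀ v ∈ σ, Matrix.toLin' (e v 1 1) x = x := by
  constructor
  · intro h
    exact h.2
  · intro h
    exact ⟨fun _ => ⟨hσ, hc⟩, h⟩

/-- splitting a cell by the matrix units of a further vertex -/
noncomputable def splitEquiv {G : SimpleGraph V} {e : V → Fin 2 → Fin 2 → Matrix ι ι K}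
    (he : MSys G e) {A τ : Finset V} {v : V} (hv : v ∉ τ) (hσ : insert v τ ⊆ A)
    (hc : G.IsClique ((insert v τ : Finset V) : Set V)) :
    cell G (proj e) A τ ≃ₗ[K] cell G (proj e) A (insert v τ) × cell G (proj e) A (insert v τ) := by
  have hτ : τ ⊆ A := (subset_insert v τ).trans hσ
  have hcτ : G.IsClique (τ : Set V) := hc.subset (by exact_mod_cast subset_insert v τ)
  have hadj : ∀ w ∈ τ, G.Adj w v := by
    intro w hw
    exact hc (by simp [hw]) (by simp) (fun h => hv (h ▸ hw))
  have key : ∀ (j : Fin 2) (x : ι → K), x ∈ cell G (proj e) A τ →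
      Matrix.toLin' (e v 1 j) x ∈ cell G (proj e) A (insert v τ) := by
    intro j x hx
    rw [mem_cell' hτ hcτ] at hx
    rw [mem_cell' hσ hc]
    intro w hw
    rcases mem_insert.1 hw with rfl | hw
    · rw [toLin_mul he, if_pos rfl]
    · rw [toLin_comm he (hadj w hw), hx w hw]
  have key2 : ∀ (x y : ι → K), x ∈ cell G (proj e) A (insert v τ) →
      y ∈ cell G (proj e) A (insert v τ) →
      x + Matrix.toLin' (e v 0 1) y ∈ cell G (proj e) A τ := by
    intro x y hx hy
    rw [mem_cell' hσ hc] at hx hy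
    rw [mem_cell' hτ hcτ]
    intro w hw
    rw [map_add, toLin_comm he (hadj w hw), hx w (mem_insert_of_mem hw),
      hy w (mem_insert_of_mem hw)]
  exact
    { toFun := fun x => (⟨Matrix.toLin' (e v 1 1) x.1, key 1 x.1 x.2⟩,
        ⟨Matrix.toLin' (e v 1 0) x.1, key 0 x.1 x.2⟩)
      map_add' := by
        intro x y
        ext1 <;> ext1 <;> simp only [Submodule.coe_add, map_add, Prod.mk_add_mk,
          AddMemClass.mk_add_mk]
      map_smul' := by
        intro c x
        ext1 <;> ext1 <;> simp only [Submodule.coe_smul, map_smul, Prod.smul_mk,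
          RingHom.id_apply, SetLike.mk_smul_mk]
      invFun := fun y => ⟨y.1.1 + Matrix.toLin' (e v 0 1) y.2.1, key2 _ _ y.1.2 y.2.2⟩
      left_inv := by
        intro x
        ext1
        simp only
        rw [toLin_mul he, if_pos rfl, add_comm, toLin_one he]
      right_inv := by
        rintro ⟨⟨y, hy⟩, ⟨z, hz⟩⟩
        have hy' : Matrix.toLin' (e v 1 1) y = y := hy.2 v (mem_insert_self v τ)
        have hz' : Matrix.toLin' (e v 1 1) z = z := hz.2 v (mem_insert_self v τ)
        ext1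
        · ext1
          simp only
          rw [map_add, toLin_mul he, if_neg (by decide), hy', add_zero]
        · ext1
          simp only
          rw [map_add, toLin_mul he, if_pos rfl, hz', ← hy', toLin_mul he, if_neg (by decide),
            zero_add] }

end Euler

theorem dim_cell {G : SimpleGraph V} {e : V → Fin 2 → Fin 2 → Matrix ι ι K} (he : MSys G e)
    {A σ : Finset V} (hσ : σ ⊆ A) (hc : G.IsClique (σ : Set V)) :
    2 ^ σ.card * Module.finrank K (cell G (proj e) A σ) = Fintype.card ι := by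
  induction σ using Finset.induction_on with
  | empty =>
    have h : cell G (proj e) A ∅ = ⊤ := by
      rw [eq_top_iff]
      intro x _
      rw [Euler.mem_cell' hσ hc]
      simp
    rw [h]
    simp
  | insert v τ hv ih =>
    have hτ : τ ⊆ A := (subset_insert v τ).trans hσ
    have hcτ : G.IsClique (τ : Set V) := hc.subset (by exact_mod_cast subset_insert v τ)
    have h1 := ih hτ hcτ
    rw [(Euler.splitEquiv he hv hσ hc).finrank_eq, Module.finrank_prod] at h1
    rw [card_insert_of_notMem hv, pow_succ, ← h1]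
    ring

namespace Euler

/-- chains of degree `i` with values in `Y` -/
def Ch (Y : Finset V → Submodule K (ι → K)) (i : ℕ) : Submodule K (Finset V → ι → K) where
  carrier := {f | (∀ σ, f σ ∈ Y σ) ∧ ∀ σ, σ.card ≠ i → f σ = 0}
  add_mem' := by
    rintro f g ⟨h1, h2⟩ ⟨h3, h4⟩
    refine ⟨fun σ => (Y σ).add_mem (h1 σ) (h3 σ), fun σ hσ => ?_⟩
    rw [Pi.add_apply, h2 σ hσ, h4 σ hσ, add_zero]
  zero_mem' := ⟨fun σ => (Y σ).zero_mem, fun σ _ => rfl⟩
  smul_mem' := by
    rintro c f ⟨h1, h2⟩
    refine ⟨fun σ => (Y σ).smul_mem c (h1 σ), fun σ hσ => ?_⟩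
    rw [Pi.smul_apply, h2 σ hσ, smul_zero]

/-- the boundary as a linear map -/
def bdL (V K ι : Type) [Fintype V] [DecidableEq V] [Field K] :
    (Finset V → ι → K) →ₗ[K] (Finset V → ι → K) where
  toFun f := bd f
  map_add' := by
    intro f g
    funext τ
    exact bd_add f g τ
  map_smul' := by
    intro c f
    funext τ
    simp only [bd, Pi.smul_apply, RingHom.id_apply, smul_sum]

omit [CharP K 2] [Fintype ι] [DecidableEq ι] in
theorem bdL_apply (f : Finset V → ι → K) (τ : Finset V) : bdL V K ι f τ = bd f τ := rfl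

/-- chains of degree `i` as a product of cells -/
noncomputable def chEquiv (Y : Finset V → Submodule K (ι → K)) (i : ℕ) :
    Ch Y i ≃ₗ[K] (∀ σ : {σ : Finset V // σ.card = i}, Y σ.1) where
  toFun f := fun σ => ⟨f.1 σ.1, f.2.1 σ.1⟩
  map_add' := by
    intro f g
    rfl
  map_smul' := by
    intro c f
    rfl
  invFun g := ⟨fun σ => if h : σ.card = i then (g ⟨σ, h⟩ : ι → K) else 0, by
    constructor
    · intro σ
      simp only
      split_ifs with h
      · exact (g ⟨σ, h⟩).2
      · exact (Y σ).zero_mem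
    · intro σ h
      exact dif_neg h⟩
  left_inv := by
    intro f
    ext1
    funext σ
    simp only
    split_ifs with h
    · rfl
    · exact (f.2.2 σ h).symm
  right_inv := by
    intro g
    funext σ
    ext1
    simp only
    exact dif_pos σ.2

omit [CharP K 2] [DecidableEq ι] in
theorem finrank_Ch (Y : Finset V → Submodule K (ι → K)) (i : ℕ) :
    Module.finrank K (Ch Y i)
      = ∑ σ : Finset V with σ.card = i, Module.finrank K (Y σ) := by
  rw [(chEquiv Y i).finrank_eq, Module.finrank_pi_fintype]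
  exact (Finset.sum_subtype (univ.filter (fun σ : Finset V => σ.card = i))
    (fun σ => by simp) (fun σ => Module.finrank K (Y σ))).symm

omit [CharP K 2] [DecidableEq ι] in
theorem sum_Ch (Y : Finset V → Submodule K (ι → K)) :
    ∑ i ∈ range (Fintype.card V + 1), (-1 : ℚ) ^ i * (Module.finrank K (Ch Y i) : ℚ)
      = ∑ σ : Finset V, (-1 : ℚ) ^ σ.card * (Module.finrank K (Y σ) : ℚ) := by
  rw [← Finset.sum_fiberwise_of_maps_to (s := univ) (t := range (Fintype.card V + 1))
    (g := fun σ : Finset V => σ.card)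
    (fun σ _ => mem_range.2 (Nat.lt_succ_of_le (card_le_univ σ)))]
  refine sum_congr rfl (fun i _ => ?_)
  rw [finrank_Ch, Nat.cast_sum, mul_sum]
  refine sum_congr rfl (fun σ hσ => ?_)
  rw [(mem_filter.1 hσ).2]

/-- cycles -/
def Zc (Y : Finset V → Submodule K (ι → K)) (i : ℕ) : Submodule K (Finset V → ι → K) :=
  Ch Y i ⊓ LinearMap.ker (bdL V K ι)

/-- image of the boundary on the chains of degree `i` -/
def Im (Y : Finset V → Submodule K (ι → K)) (i : ℕ) : Submodule K (Finset V → ι → K) :=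
  (Ch Y i).map (bdL V K ι)

omit [CharP K 2] [DecidableEq ι] in
theorem rank_nullity (Y : Finset V → Submodule K (ι → K)) (i : ℕ) :
    Module.finrank K (Ch Y i) = Module.finrank K (Zc Y i) + Module.finrank K (Im Y i) := by
  have h := LinearMap.finrank_range_add_finrank_ker ((bdL V K ι).domRestrict (Ch Y i))
  rw [LinearMap.range_domRestrict, LinearMap.ker_domRestrict] at h
  have h2 : Module.finrank K (Submodule.comap (Ch Y i).subtype (LinearMap.ker (bdL V K ι)))
      = Module.finrank K (Zc Y i) := by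
    rw [← Submodule.finrank_map_subtype_eq, Submodule.map_comap_subtype]
    rfl
  rw [h2] at h
  rw [← h, add_comm]
  rfl

omit [CharP K 2] [DecidableEq ι] in
theorem Im_zero (Y : Finset V → Submodule K (ι → K)) : Im Y 0 = ⊥ := by
  rw [eq_bot_iff]
  rintro _ ⟨f, hf, rfl⟩
  rw [Submodule.mem_bot]
  funext τ
  rw [bdL_apply]
  unfold bd
  rw [sum_eq_zero]
  · rfl
  · intro w _
    exact hf.2 _ (by simp)

omit [CharP K 2] [DecidableEq ι] in
theorem Im_top (Y : Finset V → Submodule K (ι → K)) {i : ℕ} (hi : Fintype.card V < i) :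
    Im Y i = ⊥ := by
  rw [eq_bot_iff]
  rintro _ ⟨f, hf, rfl⟩
  rw [Submodule.mem_bot]
  have : f = 0 := by
    funext σ
    exact hf.2 σ (fun h => absurd (card_le_univ σ) (by omega))
  rw [this, map_zero]

omit [DecidableEq ι] in
theorem Im_le {Y : Finset V → Submodule K (ι → K)} (hY : ∀ σ τ, σ ⊆ τ → Y τ ≤ Y σ) (i : ℕ) :
    Im Y (i + 1) ≤ Zc Y i := by
  rintro _ ⟨f, hf, rfl⟩
  refine ⟨⟨fun σ => bd_mem hY hf.1 σ, fun σ hσ => ?_⟩, ?_⟩
  · rw [bdL_apply]
    unfold bd
    refine sum_eq_zero (fun w hw => ?_)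
    exact hf.2 _ (by rw [card_insert_of_notMem (mem_compl.1 hw)]; omega)
  · refine LinearMap.mem_ker.2 ?_
    funext τ
    exact bd_bd (two_eq K) f τ

omit [CharP K 2] [DecidableEq ι] in
theorem Zc_le {Y : Finset V → Submodule K (ι → K)} {i : ℕ} (h : ExAt Y i) :
    Zc Y i ≤ Im Y (i + 1) := by
  rintro f ⟨hf, hf'⟩
  have hb : ∀ τ, bd f τ = 0 := by
    intro τ
    have h1 := LinearMap.mem_ker.1 hf'
    exact congrFun h1 τ
  obtain ⟨k, hk, hk2⟩ := h f hf.1 hf.2 hb
  refine ⟨trunc (i + 1) k, ⟨fun σ => ?_, fun σ hσ => if_neg hσ⟩, ?_⟩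
  · unfold trunc
    split_ifs
    · exact hk σ
    · exact (Y σ).zero_mem
  · funext τ
    rw [bdL_apply, bd_trunc_succ]
    unfold trunc
    split_ifs with hτ
    · exact hk2 τ
    · exact (hf.2 τ hτ).symm

theorem alt_sum (c z b : ℕ → ℚ) (h0 : c 0 = z 0) (h1 : ∀ i, c (i + 1) = z (i + 1) + b i) (n : ℕ) :
    ∑ i ∈ range (n + 1), (-1 : ℚ) ^ i * c i
      = ∑ i ∈ range (n + 1), (-1 : ℚ) ^ i * (z i - b i) + (-1) ^ n * b n := by
  induction n with
  | zero =>
    simp [h0]
  | succ n ih =>
    rw [sum_range_succ, ih, sum_range_succ _ (n + 1), h1, pow_succ]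
    ring

theorem euler_gen {Y : Finset V → Submodule K (ι → K)} (hY : ∀ σ τ, σ ⊆ τ → Y τ ≤ Y σ) {m : ℕ}
    (h : ∀ i, i ≠ m → ExAt Y i) :
    0 ≤ (-1 : ℚ) ^ m * ∑ σ : Finset V, (-1 : ℚ) ^ σ.card * (Module.finrank K (Y σ) : ℚ) := by
  rw [← sum_Ch, alt_sum (fun i => (Module.finrank K (Ch Y i) : ℚ))
    (fun i => (Module.finrank K (Zc Y i) : ℚ)) (fun i => (Module.finrank K (Im Y (i + 1)) : ℚ))]
  · rw [Im_top Y (Nat.lt_succ_self _), finrank_bot, Nat.cast_zero, mul_zero, add_zero]
    have hz : ∀ i, i ≠ m → (-1 : ℚ) ^ i * ((Module.finrank K (Zc Y i) : ℚ)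
        - (Module.finrank K (Im Y (i + 1)) : ℚ)) = 0 := by
      intro i hi
      have : Im Y (i + 1) = Zc Y i := le_antisymm (Im_le hY i) (Zc_le (h i hi))
      rw [this, sub_self, mul_zero]
    have hle : (Module.finrank K (Im Y (m + 1)) : ℚ) ≤ (Module.finrank K (Zc Y m) : ℚ) := by
      exact_mod_cast Submodule.finrank_mono (Im_le hY m)
    by_cases hm : m ∈ range (Fintype.card V + 1)
    · rw [sum_eq_single_of_mem m hm (fun i _ hi => hz i hi), ← mul_assoc, ← pow_add]
      have : (-1 : ℚ) ^ (m + m) = 1 := Even.neg_one_pow ⟨m, rfl⟩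
      rw [this, one_mul]
      linarith
    · rw [sum_eq_zero (fun i hi => hz i (fun h => hm (h ▸ hi))), mul_zero]
  · rw [rank_nullity, Im_zero, finrank_bot, add_zero]
  · intro i
    rw [rank_nullity, Nat.cast_add]

end Euler

theorem euler [Nonempty ι] {G : SimpleGraph V} {e : V → Fin 2 → Fin 2 → Matrix ι ι K}
    (he : MSys G e) {A : Finset V} {m : ℕ} (h : ∀ i, i ≠ m → ExAt (cell G (proj e) A) i) :
    0 ≤ (-1 : ℚ) ^ m * omega G A := by
  classical
  have h1 := Euler.euler_gen (fun σ τ hst => cell_anti G (proj e) A hst) h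
  have h2 : ∑ σ : Finset V, (-1 : ℚ) ^ σ.card * (Module.finrank K (cell G (proj e) A σ) : ℚ)
      = (Fintype.card ι : ℚ) * omega G A := by
    unfold omega
    rw [mul_sum]
    rw [← sum_subset (subset_univ (A.powerset.filter
      (fun σ : Finset V => G.IsClique (σ : Set V))))]
    · refine sum_congr (by congr) (fun σ hσ => ?_)
      rw [mem_filter, mem_powerset] at hσ
      have h3 := dim_cell he hσ.1 hσ.2
      rw [← h3]
      push_cast
      rw [div_pow]
      field_simp
    · intro σ _ hσ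
      rw [mem_filter, mem_powerset] at hσ
      have h4 : cell G (proj e) A σ = ⊥ := by
        rw [eq_bot_iff]
        intro x hx
        rw [Submodule.mem_bot]
        by_contra h0
        exact hσ (hx.1 h0)
      rw [h4, finrank_bot, Nat.cast_zero, mul_zero]
  rw [h2] at h1
  have h5 : (0 : ℚ) < (Fintype.card ι : ℚ) := by exact_mod_cast Fintype.card_pos
  have h6 : (-1 : ℚ) ^ m * ((Fintype.card ι : ℚ) * omega G A)
      = (Fintype.card ι : ℚ) * ((-1 : ℚ) ^ m * omega G A) := by ring
  rw [h6] at h1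
  exact (mul_nonneg_iff_of_pos_left h5).1 h1

end Pool.Agent.H37.CD
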