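import Pool.Agent.H37.CD.LocI
import Pool.Agent.H37.CD.Fix
import Pool.Agent.H37.CC.GloI
import Pool.Agent.H1.CH.Obj
import Pool.Agent.H1.CH.Skw

/-!
# THEOREM CCA, chapter GLOBAL: interface
-/

set_option autoImplicit false

namespace Pool.Agent.H37.CD

open scoped Pointwise
open Pool.Agent.H98.FJ Pool.Agent.H37.PT Pool.Agent.H37.CC

variable {G H : Type} [Group G] [PartialOrder H] [Bas H] [MulAction G H] [BAct G H]

theorem lx_pow {g : G} {m : ℕ} (hm : 0 < m) : Lx H (g ^ m) ↔ Lx H g := by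
  unfold Lx
  rw [not_iff_not]
  constructor
  · rintro ⟨M, hM⟩
    refine ⟨M + ∑ r ∈ Finset.range m, ds (bs : Vtx H) (g ^ r • bs), ?_⟩
    rintro _ ⟨i, rfl⟩
    show ds (bs : Vtx H) (g ^ i • bs) ≤ _
    have hm' : (0 : ℤ) < m := by exact_mod_cast hm
    have h1 : g ^ i = (g ^ m) ^ (i / m) * g ^ ((i % m).toNat) := by
      have h2 : ((i % m).toNat : ℤ) = i % m := Int.toNat_of_nonneg (Int.emod_nonneg _ hm'.ne')
      rw [← zpow_natCast g m, ← zpow_mul, ← zpow_natCast g ((i % m).toNat), h2, ← zpow_add, Int.mul_ediv_add_emod]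
    have h3 : (i % m).toNat < m := by
      have := Int.emod_lt_of_pos i hm'
      omega
    rw [h1, mul_smul]
    refine (Pool.Agent.H1.CG.ds_tri' bs ((g ^ m) ^ (i / m) • bs) _).trans (Nat.add_le_add ?_ ?_)
    · exact hM _ ⟨i / m, rfl⟩
    · rw [Pool.Agent.H1.CG.ds_smul']
      exact Finset.single_le_sum (f := fun r => ds (bs : Vtx H) (g ^ r • bs)) (fun _ _ => Nat.zero_le _) (Finset.mem_range.2 h3)
  · rintro ⟨M, hM⟩
    refine ⟨M, ?_⟩
    rintro _ ⟨i, rfl⟩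
    refine hM _ ⟨m * i, ?_⟩
    show g ^ ((m : ℤ) * i) = (g ^ m) ^ i
    rw [zpow_mul, zpow_natCast]

private theorem ell_conj (g h : G) (hg : Ell H (Subgroup.zpowers g)) : Ell H (Subgroup.zpowers (h * g * h⁻¹)) := by
  obtain ⟨M, hM⟩ := hg
  refine ⟨ds (bs : Vtx H) (h • bs) + M + ds (bs : Vtx H) (h⁻¹ • bs), ?_⟩
  rintro _ ⟨i, rfl⟩
  show ds (bs : Vtx H) ((h * g * h⁻¹) ^ i • bs) ≤ _
  have e : (h * g * h⁻¹) ^ i = h * g ^ i * h⁻¹ := conj_zpow
  rw [e]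
  have h1 := Pool.Agent.H1.CG.ds_tri' (bs : Vtx H) (h • bs) ((h * g ^ i * h⁻¹) • bs)
  have h2 := Pool.Agent.H1.CG.ds_tri' (h • (bs : Vtx H)) (h • g ^ i • bs) ((h * g ^ i * h⁻¹) • bs)
  have h3 : ds (h • (bs : Vtx H)) (h • g ^ i • bs) ≤ M := by
    rw [Pool.Agent.H1.CG.ds_smul']
    exact hM _ ⟨i, rfl⟩
  have h4 : ds (h • g ^ i • (bs : Vtx H)) ((h * g ^ i * h⁻¹) • bs) = ds (bs : Vtx H) (h⁻¹ • bs) := by
    rw [mul_smul, mul_smul, Pool.Agent.H1.CG.ds_smul', Pool.Agent.H1.CG.ds_smul']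
  omega

theorem lx_conj (g h : G) : Lx H (h * g * h⁻¹) ↔ Lx H g := by
  unfold Lx
  rw [not_iff_not]
  refine ⟨fun h1 => ?_, ell_conj g h⟩
  have h2 := ell_conj _ h⁻¹ h1
  have e : h⁻¹ * (h * g * h⁻¹) * h⁻¹⁻¹ = g := by group
  rwa [e] at h2

/-- the loxodromic elements of an acylindrical action -/
theorem lox {n k N : ℕ} (hd : Dim H n) (hN : Acy G H k N) :
    Pool.Agent.H1.CH.Lox (Set.range (Pool.Agent.H1.CG.hat : H → Set (Vtx H))) (fun g : G => Lx H g) := by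
  constructor
  · intro z hz
    refine Pool.Agent.H1.CH.skewer_ub (Pool.Agent.H1.CG.sys G hd) (x := bs) fun D => ?_
    by_contra hcon
    push Not at hcon
    refine hz ⟨D, ?_⟩
    rintro _ ⟨i, rfl⟩
    have h1 := hcon i
    have h2 : {h ∈ Set.range (Pool.Agent.H1.CG.hat : H → Set (Vtx H)) | bs ∈ h ∧ z ^ i • bs ∉ h} =
        Pool.Agent.H1.CG.hat '' ((bs : Vtx H).U \ (z ^ i • bs).U) := by
      ext w
      constructor
      · rintro ⟨⟨h, rfl⟩, h4, h5⟩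
        exact ⟨h, ⟨h4, h5⟩, rfl⟩
      · rintro ⟨h, ⟨h4, h5⟩, rfl⟩
        exact ⟨⟨h, rfl⟩, h4, h5⟩
    rw [h2, Set.ncard_image_of_injective _ (fun h k e => Pool.Agent.H1.CG.hat_inj G e)] at h1
    rw [Pool.Agent.H1.CG.ds_comm']
    exact h1
  · intro z m hm hz
    exact (lx_pow hm).2 hz
  · intro z hz hf
    obtain ⟨m, hm, h1⟩ := isOfFinOrder_iff_pow_eq_one.1 hf
    have h2 := (lx_pow (H := H) hm).2 hz
    rw [h1] at h2
    refine h2 ⟨0, ?_⟩
    rintro _ ⟨i, rfl⟩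
    show ds (bs : Vtx H) ((1 : G) ^ i • bs) ≤ 0
    rw [one_zpow, one_smul]
    unfold ds
    simp
  · intro a h hah hh ha
    have hE : Ell H (Subgroup.zpowers a) := not_not.1 ha
    obtain ⟨M, hM⟩ := hE
    obtain ⟨B', -, hB, -, y, hy, -⟩ := fix_vtx hd (Subgroup.zpowers a) bs hM
    obtain ⟨m, hm, -, h1⟩ := Subgroup.exists_pow_mem_of_relIndex_ne_zero hB (Subgroup.mem_zpowers a)
    have h2 : a ^ m • y = y := hy _ h1.1
    -- a far translate
    obtain ⟨i, hi⟩ : ∃ i : ℤ, k ≤ ds y (h ^ i • y) := by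
      by_contra hcon
      push Not at hcon
      refine hh ⟨ds bs y + k + ds y bs, ?_⟩
      rintro _ ⟨i, rfl⟩
      show ds (bs : Vtx H) (h ^ i • bs) ≤ _
      have h3 := hcon i
      have h4 := Pool.Agent.H1.CG.ds_tri' (bs : Vtx H) y (h ^ i • bs)
      have h5 := Pool.Agent.H1.CG.ds_tri' y (h ^ i • y) (h ^ i • bs)
      have h6 : ds (h ^ i • y) (h ^ i • bs) = ds y bs := Pool.Agent.H1.CG.ds_smul' G _ _ _
      omega
    have h3 : ∀ j : ℤ, (a ^ m) ^ j • y = y := by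
      intro j
      have h4 : a ^ m ∈ MulAction.stabilizer G y := h2
      exact (MulAction.stabilizer G y).zpow_mem h4 j
    have h5 : (Subgroup.zpowers (a ^ m) : Set G) ⊆ {g | g • y = y ∧ g • (h ^ i • y) = h ^ i • y} := by
      rintro _ ⟨j, rfl⟩
      refine ⟨h3 j, ?_⟩
      have hc : Commute a h := hah
      have h6 : (a ^ m) ^ j * h ^ i = h ^ i * (a ^ m) ^ j := ((hc.pow_left m).zpow_zpow j i).eq
      show (a ^ m) ^ j • h ^ i • y = h ^ i • y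
      rw [← mul_smul, h6, mul_smul, h3]
    have h6 : (Subgroup.zpowers (a ^ m) : Set G).Finite :=
      (Set.finite_of_encard_le_coe (hN y (h ^ i • y) hi)).subset h5
    have h7 : IsOfFinOrder (a ^ m) := finite_zpowers.1 h6
    exact (isOfFinOrder_pow.1 h7).resolve_right hm.ne'

theorem exists_rt {n k N : ℕ} (hd : Dim H n) (hN : Acy G H k N) (A : ℕ → Subgroup G) (hA : ∀ j < 2 * n, A j ≤ A (j + 1))
    (hab : ∀ x ∈ A (2 * n), ∀ y ∈ A (2 * n), x * y = y * x) (hinf : ∃ a ∈ A 0, Lx H a) :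
    ∃ j < 2 * n, Rt (A j) = Rt (A (j + 1)) := by
  have : Nonempty (Vtx H) := ⟨bs⟩
  exact Pool.Agent.H1.CH.exists_rt (Pool.Agent.H1.CG.sys G hd) (lox hd hN) A hA hab hinf

theorem st_mem_class {C : (G : Type) → [Group G] → Prop} (hC : Inherits C) {n k N : ℕ} (hd : Dim H n) (hN : Acy G H k N)
    (hst : ∀ w : H, C (MulAction.stabilizer G w)) (A : Subgroup G) (hab : ∀ x ∈ A, ∀ y ∈ A, x * y = y * x)
    (hinf : ∃ a ∈ A, Lx H a) : C (St A) := by
  have : Nonempty (Vtx H) := ⟨bs⟩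
  obtain ⟨h0, h0A, hi⟩ := hinf
  refine Pool.Agent.H1.CH.st_mem hC (Pool.Agent.H1.CG.sys G hd) (lox hd hN) ?_ hab h0A hi
  rintro _ ⟨h, rfl⟩
  rw [Pool.Agent.H1.CG.stab_hat]
  exact hst h

private theorem rt_mono {A B : Subgroup G} (h : A ≤ B) : Rt A ⊆ Rt B := by
  rintro x ⟨m, hm, hx⟩
  exact ⟨m, hm, h hx⟩

private theorem cl_mono {Q : ℕ} {T T' : Set G} (h : T ⊆ T') :
    Subgroup.closure {x : G | ∃ γ ∈ T, x = γ ^ Q} ≤ Subgroup.closure {x : G | ∃ γ ∈ T', x = γ ^ Q} := by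
  refine Subgroup.closure_mono ?_
  rintro x ⟨γ, hγ, rfl⟩
  exact ⟨γ, h hγ, rfl⟩

private theorem cl_comm {Q : ℕ} {T : Set G} (h : ∀ x ∈ T, ∀ z ∈ T, x ^ Q * z ^ Q = z ^ Q * x ^ Q) :
    ∀ x ∈ Subgroup.closure {x : G | ∃ γ ∈ T, x = γ ^ Q}, ∀ y ∈ Subgroup.closure {x : G | ∃ γ ∈ T, x = γ ^ Q},
      x * y = y * x := by
  have h1 : ∀ x ∈ {x : G | ∃ γ ∈ T, x = γ ^ Q}, ∀ y ∈ {x : G | ∃ γ ∈ T, x = γ ^ Q}, x * y = y * x := by
    rintro _ ⟨a, ha, rfl⟩ _ ⟨b, hb, rfl⟩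
    exact h a ha b hb
  intro x hx y hy
  induction hx using Subgroup.closure_induction with
  | mem x hx =>
    induction hy using Subgroup.closure_induction with
    | mem y hy => exact h1 x hx y hy
    | one => rw [mul_one, one_mul]
    | mul a b _ _ ha hb => rw [← mul_assoc, ha, mul_assoc, hb, mul_assoc]
    | inv a _ ha =>
      have hc : Commute x a := ha
      exact hc.inv_right
  | one => rw [mul_one, one_mul]
  | mul a b _ _ ha hb => rw [mul_assoc, hb, ← mul_assoc, ha, mul_assoc]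
  | inv a _ ha =>
    have hc : Commute a y := ha
    exact hc.inv_left

/-- (5): some object is constant near `y` (`κ`, `Q` as in `local_main`) -/
theorem ob_const {n k N : ℕ} (hd : Dim H n) (hN : Acy G H k N) {κ Q : ℕ} (hQ : 0 < Q) {P : Set (Vtx H) × Set H}
    (hc : ∀ y ∈ P.1, ∀ b r : ℕ, κ * (b + 1) ^ 2 ≤ r → (∃ γ ∈ Tb G b r P y, Lx H γ) →
      ∀ x ∈ Tb G b r P y, ∀ z ∈ Tb G b r P y, x ^ Q * z ^ Q = z ^ Q * x ^ Q)
    {y : Vtx H} (hy : y ∈ P.1) {b r t : ℕ} (hr : (κ + 3) * (b + 8 * n * t + 2 * t + 1) ^ 2 ≤ r)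
    (hinf : ∃ γ ∈ Tb G b r P y, Lx H γ) :
    ∃ j < 2 * n, ∀ z ∈ P.1, ds y z ≤ t →
      (∃ γ ∈ Tb G (b + 4 * j * t + 2 * t) (r - 2 * j * t - t) P z, Lx H γ) ∧
      (Ob (b := b + 4 * j * t + 2 * t) (r := r - 2 * j * t - t) Q P z : Set G) =
        Ob (b := b + 4 * j * t + 2 * t) (r := r - 2 * j * t - t) Q P y := by
  have hr2 : κ * (b + 8 * n * t + 2 * t + 1) ^ 2 + 3 * (b + 8 * n * t + 2 * t + 1) ≤ r := by
    refine le_trans ?_ hr
    rw [add_mul]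
    have : 3 * (b + 8 * n * t + 2 * t + 1) ≤ 3 * (b + 8 * n * t + 2 * t + 1) ^ 2 := by
      refine Nat.mul_le_mul_left _ ?_
      rw [pow_two]
      exact Nat.le_mul_of_pos_left _ (by omega)
    omega
  have e8 : 8 * n * t = 8 * (n * t) := by ring
  have e2n : 2 * (2 * n) * t = 4 * (n * t) := by ring
  have e4n : 4 * (2 * n) * t = 8 * (n * t) := by ring
  rw [e8] at hr2
  let T : ℕ → Set G := fun j => Tb G (b + 4 * j * t) (r - 2 * j * t) P y
  let A : ℕ → Subgroup G := fun j => Subgroup.closure {x : G | ∃ γ ∈ T j, x = γ ^ Q}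
  have hTm : ∀ j, T j ⊆ T (j + 1) := by
    intro j
    refine Tb_mono ?_ ?_
    · have : 4 * j * t ≤ 4 * (j + 1) * t := Nat.mul_le_mul_right _ (by omega)
      omega
    · have : 2 * j * t ≤ 2 * (j + 1) * t := Nat.mul_le_mul_right _ (by omega)
      omega
  obtain ⟨γ0, hγ0, hinf0⟩ := hinf
  have h00 : γ0 ∈ T 0 := by
    show γ0 ∈ Tb G (b + 4 * 0 * t) (r - 2 * 0 * t) P y
    simpa using hγ0
  have hT0 : ∀ j, γ0 ∈ T j := by
    intro j
    induction j with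
    | zero => exact h00
    | succ j ih => exact hTm j ih
  obtain ⟨j, hj, hrt⟩ := exists_rt hd hN A (fun j _ => cl_mono (hTm j)) (by
    refine cl_comm (hc y hy (b + 4 * (2 * n) * t) (r - 2 * (2 * n) * t) ?_ ⟨γ0, hT0 (2 * n), hinf0⟩)
    rw [e4n, e2n]
    have h1 : κ * (b + 8 * (n * t) + 1) ^ 2 ≤ κ * (b + 8 * (n * t) + 2 * t + 1) ^ 2 :=
      Nat.mul_le_mul_left _ (Nat.pow_le_pow_left (by omega) 2)
    omega) ⟨γ0 ^ Q, Subgroup.subset_closure ⟨γ0, h00, rfl⟩, (lx_pow hQ).2 hinf0⟩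
  have hjt : j * t + t ≤ 2 * (n * t) := by
    have h1 : (j + 1) * t ≤ 2 * n * t := Nat.mul_le_mul_right _ (by omega)
    have h2 : (j + 1) * t = j * t + t := by ring
    have h3 : 2 * n * t = 2 * (n * t) := by ring
    omega
  have e4 : 4 * j * t = 4 * (j * t) := by ring
  have e2 : 2 * j * t = 2 * (j * t) := by ring
  have e4' : 4 * (j + 1) * t = 4 * (j * t) + 4 * t := by ring
  have e2' : 2 * (j + 1) * t = 2 * (j * t) + 2 * t := by ring
  have key : ∀ z ∈ P.1, ds y z ≤ t → T j ⊆ Tb G (b + 4 * j * t + 2 * t) (r - 2 * j * t - t) P z ∧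
      Tb G (b + 4 * j * t + 2 * t) (r - 2 * j * t - t) P z ⊆ T (j + 1) := by
    intro z hz hyz
    constructor
    · exact Tb_move hy hz hyz (by omega)
    · have h1 := Tb_move (G := G) (b := b + 4 * j * t + 2 * t) (r := r - 2 * j * t - t) (t := t) hz hy
        (by rwa [Pool.Agent.H1.CG.ds_comm']) (by omega)
      have h2 : b + 4 * j * t + 2 * t + 2 * t = b + 4 * (j + 1) * t := by omega
      have h3 : r - 2 * j * t - t - t = r - 2 * (j + 1) * t := by omega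
      rw [h2, h3] at h1
      exact h1
  have key2 : ∀ z ∈ P.1, ds y z ≤ t →
      (Ob (b := b + 4 * j * t + 2 * t) (r := r - 2 * j * t - t) Q P z : Set G) = Rt (A j) := by
    intro z hz hyz
    obtain ⟨h1, h2⟩ := key z hz hyz
    refine Set.Subset.antisymm ?_ (rt_mono (cl_mono h1))
    rw [hrt]
    exact rt_mono (cl_mono h2)
  have hyy : ds y y ≤ t := by
    unfold ds
    simp
  refine ⟨j, hj, fun z hz hyz => ⟨⟨γ0, (key z hz hyz).1 (hT0 j), hinf0⟩, ?_⟩⟩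
  rw [key2 z hz hyz, key2 y hy hyy]

end Pool.Agent.H37.CD
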