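import Pool.Agent.H37.CC.LocI
import Pool.Agent.H37.CD.Fix
import Pool.Agent.H94.CL.Loc2

/-!
# THEOREM CCA, chapter LOCAL: interface (proof in `H94/CL/Loc2`, `H25/CN/Wrd2`)
-/

set_option autoImplicit false

namespace Pool.Agent.H37.CD

open Pool.Agent.H37.CC
open scoped Pointwise

/-- LOCAL, final statement of version 2 -/
theorem local_main (n k N : ℕ) (hn : 0 < n) : ∃ κ Q : ℕ, 0 < Q ∧ ∀ (G H : Type) [Group G] [PartialOrder H] [Bas H]
    [MulAction G H] [BAct G H], Dim H n → Acy G H k N → ∀ (P : Set (Vtx H) × Set H), Rgn P → ∀ y ∈ P.1, ∀ b r : ℕ,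
      κ * (b + 1) ^ 2 ≤ r →
        ((∃ γ ∈ Tb G b r P y, Lx H γ) →
          ∀ x ∈ Tb G b r P y, ∀ z ∈ Tb G b r P y, x ^ Q * z ^ Q = z ^ Q * x ^ Q) ∧
        ((∀ γ ∈ Tb G (2 * n * b) r P y, ¬ Lx H γ) →
          Ell H (Subgroup.closure (Tb G b (r + (2 * n + 1) * b) P y))) := by
  have _ := hn
  exact Pool.Agent.H94.CL.local_main2 n k N

end Pool.Agent.H37.CD
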