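import Pool.Agent.H37.CD.Sphere

/-!
# helper37, CD, module ODD: if all odd links have the property `P`, there is a certificate
-/

namespace Pool.Agent.H37.CD

open Finset

variable {V : Type} [Fintype V] [DecidableEq V]

theorem Bnd.succ {G : SimpleGraph V} {P : Finset V → Prop} {t : ℕ} {A : Finset V}
    (h : Bnd G P t A) : Bnd G P (t + 1) A := by
  induction h with
  | base t A h => exact Bnd.base _ _ h
  | top t A h => exact Bnd.top _ _ (fun σ h1 h2 => (h σ h1 h2).trans (Nat.lt_succ_self t))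
  | step t A v hv _ _ ih1 ih2 => exact Bnd.step _ _ v hv ih1 ih2

theorem Bnd.mono {G : SimpleGraph V} {P : Finset V → Prop} {t t' : ℕ} {A : Finset V}
    (h : Bnd G P t A) (htt : t ≤ t') : Bnd G P t' A := by
  obtain ⟨k, rfl⟩ := Nat.exists_eq_add_of_le htt
  induction k with
  | zero => exact h
  | succ k ih => exact (ih (by omega)).succ

/-- the link of a simplex of a link is the link of a simplex -/
theorem clique_union {G : SimpleGraph V} {A σ τ : Finset V} (hσ : σ ⊆ A)
    (hc : G.IsClique (σ : Set V)) (hτ : τ ⊆ lk G A σ) (hc' : G.IsClique (τ : Set V)) :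
    σ ∪ τ ⊆ A ∧ G.IsClique ((σ ∪ τ : Finset V) : Set V) ∧ (σ ∪ τ).card = σ.card + τ.card := by
  have h1 : ∀ x ∈ τ, x ∈ A ∧ ∀ v ∈ σ, G.Adj v x := fun x hx => mem_lk.1 (hτ hx)
  refine ⟨union_subset hσ (fun x hx => (h1 x hx).1), ?_, ?_⟩
  · intro x hx y hy hxy
    have hx' : x ∈ σ ∪ τ := hx
    have hy' : y ∈ σ ∪ τ := hy
    rcases mem_union.1 hx' with hx1 | hx1 <;> rcases mem_union.1 hy' with hy1 | hy1
    · exact hc hx1 hy1 hxy
    · exact (h1 y hy1).2 x hx1
    · exact ((h1 x hx1).2 y hy1).symm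
    · exact hc' hx1 hy1 hxy
  · rw [card_union_of_disjoint]
    rw [Finset.disjoint_left]
    intro x hx hx'
    exact G.irrefl ((h1 x hx').2 x hx)

theorem bnd_of_odd {G : SimpleGraph V} {P : Finset V → Prop} :
    ∀ (n : ℕ) (A : Finset V), FlagSphere G (2 * n) A →
      (∀ τ ⊆ A, G.IsClique (τ : Set V) → Odd τ.card → P (lk G A τ)) → Bnd G P (n + 1) A := by
  intro n
  induction n using Nat.strong_induction_on with
  | _ n ih =>
    intro A hA hodd
    rcases Nat.eq_zero_or_pos n with rfl | hn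
    · have hA0 : A = ∅ := hA
      subst hA0
      refine Bnd.top _ _ (fun σ hσ _ => ?_)
      rw [subset_empty.1 hσ]
      simp
    · obtain ⟨r, hr⟩ : ∃ r, 2 * n = r + 1 := ⟨2 * n - 1, by omega⟩
      have hA' : FlagSphere G (r + 1) A := by rw [← hr]; exact hA
      obtain ⟨v, hv⟩ := hA'.1
      refine Bnd.step n A v hv (Bnd.base _ _ (hodd {v} (singleton_subset_iff.2 hv) (by simp)
        (by simp))) (fun τ hτ hne hc => ?_)
      have hτA : τ ⊆ A := fun x hx => (mem_far.1 (hτ hx)).1
      rcases Nat.even_or_odd τ.card with he | ho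
      · obtain ⟨s, hs⟩ := he
        have hpos : 0 < τ.card := hne.card_pos
        obtain ⟨h1, h2⟩ := sphere_lk hA hτA hc
        have e : 2 * n - τ.card = 2 * (n - s) := by omega
        rw [e] at h2
        refine (ih (n - s) (by omega) (lk G A τ) h2 (fun ρ hρ hρc hρo => ?_)).mono (by omega)
        obtain ⟨k1, k2, k3⟩ := clique_union hτA hc hρ hρc
        rw [lk_lk]
        refine hodd _ k1 k2 ?_
        rw [k3, hs]
        exact Even.add_odd ⟨s, rfl⟩ hρo
      · exact Bnd.base _ _ (hodd τ hτA hc ho)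

end Pool.Agent.H37.CD
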