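import Pool.Agent.H37.CD.Bd

/-!
# helper37, CD, module RULES: adding and deleting a vertex, cones

All chains here are functions `Finset V → U`; `cell G p A` are the cells of the flag complex of `A`.
In characteristic two `x = -x` (`two_eq K`). Useful: `bd_add`, `bd_mapl`, `bd_bd (two_eq K)`,
`bd_ell`, `bd_kap_of_notMem`, `bd_kap_of_mem`, `bd_trunc_succ`, `bd_trunc_zero`, `bd_mem`,
`cell_anti` (file Bd).

PROOFS.

`R1`. Let `f` be a cycle of degree `i` of `A`. If `i = 0`, `f` vanishes off `∅`, so it is a chain of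
`A.erase v` and `h1` applies. Let `i = j + 1`. `ell v f` (`τ ↦ f (τ ∪ v)` for `v ∉ τ`) is a chain of
`lk G A {v}` (a clique `τ ∪ v ⊆ A` has `τ ⊆ lk G A {v}`), of degree `j`, a cycle by `bd_ell`. So
`ell v f = bd h` with `h` a chain of the link. Put `h' σ = p v (h σ)`: again a chain of the link
(`p v` commutes with the `p w`, `w ∈ σ ⊆ lk`, as `hp.2`; note `h' σ = 0` unless `σ` is a clique of
the link), and `bd h' = p v (ell v f) = ell v f`, since `p v (f (τ ∪ v)) = f (τ ∪ v)`. Now
`kap v h'` is a chain of `A` (use `p v (h' σ) = h' σ`). By `bd_kap_of_mem` (`h'` vanishes on `σ ∋ v`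
because `v ∉ lk G A {v}`), `bd (kap v h') (insert v τ) = bd h' τ = f (insert v τ)` for `v ∉ τ`. So
`f' = f + bd (kap v h')` vanishes on all `σ ∋ v`, hence is a chain of `A.erase v`; it is a cycle
(`bd_bd`), but it may have other degrees than `i`, so apply `h1` to `trunc i f'`, which is also a
cycle (`bd_trunc_succ`); alternatively first replace `h` by `trunc (j+1) h`.  Then
`trunc i f' = bd h''`, and `f = trunc i f = bd (trunc (i+1) (kap v h')) + bd h''`.

`R2`. `f` a cycle of degree `i` of `A.erase v`; it is a chain of `A` (the cells of `A.erase v` are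
contained in those of `A`), so `f = bd h`; replace `h` by `trunc (i+1) h`. `ell v h` is a chain of
the link of degree `i`, `bd (ell v h) = ell v (bd h) = ell v f = 0` as `f` vanishes on `σ ∋ v`. So
`ell v h = bd k`; replace `k` by `p v k` as before. Then `h + bd (kap v k)` vanishes on `σ ∋ v`, is
a chain of `A.erase v`, and its boundary is `f`.

`cone`. `f` a cycle of degree `i` of `A`, `L = A.erase v`. Let `f0 σ = if v ∈ σ then 0 else f σ`, and
`f1 = ell v f`. Evaluating `bd f τ = 0` at `v ∉ τ` gives `bd f0 τ = f1 τ`. `k = fun σ => f0 σ + p v (f0 σ)`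
is a chain of `L` of degree `i`, and a cycle because `p v (f1 τ) = f1 τ` (check also `τ ∋ v`, where
everything is zero). So `k = bd h0`. Put `h = kap v (p v ∘ f0) + h0`; it is a chain of `A` (if `σ` is a
clique of `L` then `insert v σ` is a clique of `A`), and `bd h = f`: at `v ∉ τ`:
`p v (f0 τ) + k τ = f0 τ`; at `insert v τ`: `bd (p v ∘ f0) τ = p v (f1 τ) = f (insert v τ)` and
`bd h0 (insert v τ) = k (insert v τ) = 0`.

`coneOne`. Same with `k = 0`: `h = kap v f0` (all degrees at once).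
-/

namespace Pool.Agent.H37.CD

open Finset

variable {V : Type} [Fintype V] [DecidableEq V]
variable {K : Type} [Field K] [CharP K 2] {U : Type*} [AddCommGroup U] [Module K U]

theorem mem_lk_singleton {G : SimpleGraph V} {A : Finset V} {v x : V} :
    x ∈ lk G A {v} ↔ x ∈ A ∧ G.Adj v x := by
  simp [lk]

theorem cell_congr {G G' : SimpleGraph V} {p p' : V → Module.End K U} {A : Finset V}
    (hG : ∀ x ∈ A, ∀ y ∈ A, (G.Adj x y ↔ G'.Adj x y)) (hp : ∀ x ∈ A, p x = p' x)
    (σ : Finset V) : cell G p A σ = cell G' p' A σ := by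
  have hcl : σ ⊆ A → (G.IsClique (σ : Set V) ↔ G'.IsClique (σ : Set V)) := by
    intro hσ
    constructor
    · intro h x hx y hy hxy
      exact (hG x (hσ hx) y (hσ hy)).1 (h hx hy hxy)
    · intro h x hx y hy hxy
      exact (hG x (hσ hx) y (hσ hy)).2 (h hx hy hxy)
  ext x
  rw [mem_cell, mem_cell]
  by_cases h0 : x = 0
  · subst h0
    simp
  · constructor
    · rintro ⟨h1, h2⟩
      have h3 := h1 h0
      exact ⟨fun _ => ⟨h3.1, (hcl h3.1).1 h3.2⟩, fun v hv => by rw [← hp v (h3.1 hv)]; exact h2 v hv⟩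
    · rintro ⟨h1, h2⟩
      have h3 := h1 h0
      exact ⟨fun _ => ⟨h3.1, (hcl h3.1).2 h3.2⟩, fun v hv => by rw [hp v (h3.1 hv)]; exact h2 v hv⟩

/-- a chain of `A` vanishing on the simplices through `v` is a chain of `A.erase v` -/
theorem mem_cell_erase {G : SimpleGraph V} {p : V → Module.End K U} {A : Finset V} {v : V}
    {f : Finset V → U} (hf : ∀ σ, f σ ∈ cell G p A σ) (h0 : ∀ σ, v ∈ σ → f σ = 0) (σ : Finset V) :
    f σ ∈ cell G p (A.erase v) σ := by
  refine ⟨fun h => ?_, (hf σ).2⟩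
  have h1 := (hf σ).1 h
  refine ⟨fun x hx => mem_erase.2 ⟨?_, h1.1 hx⟩, h1.2⟩
  rintro rfl
  exact h (h0 σ hx)

theorem cell_mono (G : SimpleGraph V) (p : V → Module.End K U) {A B : Finset V} (h : A ⊆ B)
    (σ : Finset V) : cell G p A σ ≤ cell G p B σ := by
  rintro x ⟨h1, h2⟩
  exact ⟨fun hx => ⟨(h1 hx).1.trans h, (h1 hx).2⟩, h2⟩

/-- the part of a chain at `v` is a chain of the link, fixed by `p v` -/
theorem ell_mem {G : SimpleGraph V} {p : V → Module.End K U} {A : Finset V} {v : V}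
    {f : Finset V → U} (hf : ∀ σ, f σ ∈ cell G p A σ) (τ : Finset V) :
    ell v f τ ∈ cell G p (lk G A {v}) τ ∧ p v (ell v f τ) = ell v f τ := by
  unfold ell
  by_cases hv : v ∈ τ
  · rw [if_pos hv]
    exact ⟨zero_mem _, map_zero _⟩
  · rw [if_neg hv]
    have h := hf (insert v τ)
    refine ⟨⟨fun h0 => ?_, fun w hw => h.2 w (mem_insert_of_mem hw)⟩, h.2 v (mem_insert_self _ _)⟩
    have h1 := h.1 h0
    refine ⟨fun x hx => mem_lk_singleton.2 ⟨h1.1 (mem_insert_of_mem hx), ?_⟩,
      h1.2.subset (by exact_mod_cast subset_insert v τ)⟩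
    exact h1.2 (by simp) (by simp [hx]) (fun h => hv (h ▸ hx))

/-- a chain of the link fixed by `p v`, joined with `v`, is a chain of `A` -/
theorem kap_mem {G : SimpleGraph V} {p : V → Module.End K U} {A : Finset V} {v : V}
    (hv : v ∈ A) {f : Finset V → U} (hf : ∀ σ, f σ ∈ cell G p (lk G A {v}) σ)
    (hpv : ∀ σ, p v (f σ) = f σ) (σ : Finset V) : kap v f σ ∈ cell G p A σ := by
  unfold kap
  by_cases hσ : v ∈ σ
  · rw [if_pos hσ]
    have h := hf (σ.erase v)
    refine ⟨fun h0 => ?_, fun w hw => ?_⟩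
    · have h1 := h.1 h0
      have h2 : ∀ x ∈ σ, x ≠ v → x ∈ A ∧ G.Adj v x := fun x hx hxv =>
        mem_lk_singleton.1 (h1.1 (mem_erase.2 ⟨hxv, hx⟩))
      refine ⟨fun x hx => ?_, fun x hx y hy hxy => ?_⟩
      · by_cases hxv : x = v
        · rw [hxv]; exact hv
        · exact (h2 x hx hxv).1
      · have hx' : x ∈ σ := hx
        have hy' : y ∈ σ := hy
        by_cases hxv : x = v
        · rw [hxv]; exact (h2 y hy' (fun h => hxy (by rw [hxv, h]))).2
        · by_cases hyv : y = v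
          · rw [hyv]; exact (h2 x hx' hxv).2.symm
          · exact h1.2 (by simp [hxv, hx']) (by simp [hyv, hy']) hxy
    · by_cases hwv : w = v
      · rw [hwv]; exact hpv _
      · exact h.2 w (mem_erase.2 ⟨hwv, hw⟩)
  · rw [if_neg hσ]
    exact zero_mem _

/-- applying `p v` to a chain of the link -/
theorem pv_mem {G : SimpleGraph V} {p : V → Module.End K U} (hp : CS G p) {A : Finset V} {v : V}
    {σ : Finset V} {x : U} (hx : x ∈ cell G p (lk G A {v}) σ) :
    p v x ∈ cell G p (lk G A {v}) σ := by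
  refine ⟨fun h0 => hx.1 (fun h => h0 (by rw [h, map_zero])), fun w hw => ?_⟩
  by_cases h : x = 0
  · rw [h, map_zero, map_zero]
  · have h1 := hp.2 v w (mem_lk_singleton.1 ((hx.1 h).1 hw)).2
    have h2 : p v (p w x) = p w (p v x) := by
      have := congrArg (fun T : Module.End K U => T x) h1
      simpa using this
    rw [← h2, hx.2 w hw]

theorem pp {G : SimpleGraph V} {p : V → Module.End K U} (hp : CS G p) (v : V) (x : U) :
    p v (p v x) = p v x := by
  have := congrArg (fun T : Module.End K U => T x) (hp.1 v)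
  simpa using this

/-- simplices through `v` are not in the link of `v` -/
theorem link_zero {G : SimpleGraph V} {p : V → Module.End K U} {A : Finset V} {v : V}
    {f : Finset V → U} (hf : ∀ σ, f σ ∈ cell G p (lk G A {v}) σ) (σ : Finset V) (hσ : v ∈ σ) :
    f σ = 0 := by
  by_contra h
  exact G.irrefl (mem_lk_singleton.1 (((hf σ).1 h).1 hσ)).2

theorem trunc_mem {Y : Finset V → Submodule K U} {f : Finset V → U} (hf : ∀ σ, f σ ∈ Y σ) (i : ℕ)
    (σ : Finset V) : trunc i f σ ∈ Y σ := by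
  unfold trunc
  split_ifs
  · exact hf σ
  · exact zero_mem _

/-- exactness, with a primitive of pure degree -/
theorem ExAt.pure {Y : Finset V → Submodule K U} {i : ℕ} (h : ExAt Y i) {f : Finset V → U}
    (hf : ∀ σ, f σ ∈ Y σ) (hd : ∀ σ, σ.card ≠ i → f σ = 0) (hb : ∀ τ, bd f τ = 0) :
    ∃ k : Finset V → U, (∀ σ, k σ ∈ Y σ) ∧ (∀ σ, σ.card ≠ i + 1 → k σ = 0) ∧
      ∀ τ, bd k τ = f τ := by
  obtain ⟨k, hk1, hk2⟩ := h f hf hd hb
  refine ⟨trunc (i + 1) k, trunc_mem hk1 _, fun σ hσ => if_neg hσ, fun τ => ?_⟩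
  rw [bd_trunc_succ]
  unfold trunc
  split_ifs with h1
  · exact hk2 τ
  · exact (hd τ h1).symm

theorem eq_of_add_eq_zero (K : Type) [Field K] [CharP K 2] {U : Type*} [AddCommGroup U]
    [Module K U] {x y : U} (h : x + y = 0) : x = y := by
  have h1 := two_eq K y
  rw [← h1] at h
  exact add_right_cancel h

/-- exactness at degree `i` of `p v`-fixed cycles of the link gives `p v`-fixed primitives -/
theorem link_prim {G : SimpleGraph V} {p : V → Module.End K U} (hp : CS G p) {A : Finset V}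
    {v : V} {i : ℕ} (h : ExAt (cell G p (lk G A {v})) i) {f : Finset V → U}
    (hf : ∀ σ, f σ ∈ cell G p (lk G A {v}) σ) (hfv : ∀ σ, p v (f σ) = f σ)
    (hd : ∀ σ, σ.card ≠ i → f σ = 0) (hb : ∀ τ, bd f τ = 0) :
    ∃ k : Finset V → U, (∀ σ, k σ ∈ cell G p (lk G A {v}) σ) ∧ (∀ σ, p v (k σ) = k σ) ∧
      (∀ σ, σ.card ≠ i + 1 → k σ = 0) ∧ ∀ τ, bd k τ = f τ := by
  obtain ⟨k, hk1, hk2, hk3⟩ := h.pure hf hd hb
  refine ⟨fun σ => p v (k σ), fun σ => pv_mem hp (hk1 σ), fun σ => pp hp v _, fun σ hσ => by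
    change p v (k σ) = 0
    rw [hk2 σ hσ, map_zero], fun τ => ?_⟩
  rw [bd_mapl (p v), hk3, hfv]

theorem R1 {G : SimpleGraph V} {p : V → Module.End K U} (hp : CS G p) {A : Finset V} {v : V}
    (hv : v ∈ A) {i : ℕ} (h1 : ExAt (cell G p (A.erase v)) i)
    (h2 : ∀ j, j + 1 = i → ExAt (cell G p (lk G A {v})) j) : ExAt (cell G p A) i := by
  intro f hf hd hb
  have key : ∃ k : Finset V → U, (∀ σ, k σ ∈ cell G p A σ) ∧ (∀ σ, σ.card ≠ i + 1 → k σ = 0) ∧
      ∀ τ, v ∉ τ → bd k (insert v τ) = f (insert v τ) := by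
    cases i with
    | zero =>
      refine ⟨fun _ => 0, fun σ => zero_mem _, fun _ _ => rfl, fun τ _ => ?_⟩
      rw [bd_zero, hd _ (by simp)]
    | succ j =>
      obtain ⟨k, hk1, hk2, hk3, hk4⟩ := link_prim hp (h2 j rfl) (f := ell v f)
        (fun σ => (ell_mem hf σ).1) (fun σ => (ell_mem hf σ).2) (fun σ hσ => by
          unfold ell
          split_ifs with h
          · rfl
          · exact hd _ (by rw [card_insert_of_notMem h]; omega)) (fun τ => by
          rw [bd_ell]
          unfold ell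
          split_ifs with h
          · rfl
          · exact hb _)
      refine ⟨kap v k, kap_mem hv hk1 hk2, fun σ hσ => ?_, fun τ hτ => ?_⟩
      · unfold kap
        split_ifs with h
        · exact hk3 _ (by rw [card_erase_of_mem h]; omega)
        · rfl
      · rw [bd_kap_of_mem (mem_insert_self _ _) _ (link_zero hk1), erase_insert hτ, hk4]
        unfold ell
        rw [if_neg hτ]
  obtain ⟨k, hk1, hk2, hk3⟩ := key
  have hY : ∀ σ τ, σ ⊆ τ → cell G p A τ ≤ cell G p A σ := fun σ τ h => cell_anti G p A h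
  obtain ⟨m, hm1, hm2⟩ := h1 (fun σ => f σ + bd k σ)
    (mem_cell_erase (fun σ => add_mem (hf σ) (bd_mem hY hk1 σ)) (fun σ hσ => by
      have := hk3 (σ.erase v) (notMem_erase v σ)
      rw [insert_erase hσ] at this
      rw [this, two_eq K]))
    (fun σ hσ => by
      rw [hd σ hσ, zero_add]
      unfold bd
      exact sum_eq_zero (fun w hw => hk2 _ (by
        rw [card_insert_of_notMem (mem_compl.1 hw)]; omega)))
    (fun τ => by rw [bd_add f (bd k), hb, zero_add, bd_bd (two_eq K)])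
  refine ⟨fun σ => m σ + k σ, fun σ => add_mem (cell_mono G p (erase_subset _ _) σ (hm1 σ))
    (hk1 σ), fun τ => ?_⟩
  rw [bd_add, hm2, add_assoc, two_eq K, add_zero]

theorem R2 {G : SimpleGraph V} {p : V → Module.End K U} (hp : CS G p) {A : Finset V} {v : V}
    (hv : v ∈ A) {i : ℕ} (h1 : ExAt (cell G p A) i)
    (h2 : ExAt (cell G p (lk G A {v})) i) : ExAt (cell G p (A.erase v)) i := by
  intro f hf hd hb
  have hf0 : ∀ σ, v ∈ σ → f σ = 0 := by
    intro σ hσ
    by_contra h
    exact (mem_erase.1 (((hf σ).1 h).1 hσ)).1 rfl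
  obtain ⟨h, hh1, hh2, hh3⟩ := h1.pure (fun σ => cell_mono G p (erase_subset _ _) σ (hf σ)) hd hb
  obtain ⟨k, hk1, hk2, hk3, hk4⟩ := link_prim hp h2 (f := ell v h)
    (fun σ => (ell_mem hh1 σ).1) (fun σ => (ell_mem hh1 σ).2) (fun σ hσ => by
      unfold ell
      split_ifs with h'
      · rfl
      · exact hh2 _ (by rw [card_insert_of_notMem h']; omega)) (fun τ => by
      rw [bd_ell]
      unfold ell
      split_ifs with h'
      · rfl
      · rw [hh3]; exact hf0 _ (mem_insert_self _ _))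
  have hY : ∀ σ τ, σ ⊆ τ → cell G p A τ ≤ cell G p A σ := fun σ τ h => cell_anti G p A h
  refine ⟨fun σ => h σ + bd (kap v k) σ, mem_cell_erase (fun σ => add_mem (hh1 σ)
    (bd_mem hY (kap_mem hv hk1 hk2) σ)) (fun σ hσ => ?_), fun τ => ?_⟩
  · rw [bd_kap_of_mem hσ _ (link_zero hk1), hk4]
    unfold ell
    rw [if_neg (notMem_erase v σ), insert_erase hσ, two_eq K]
  · rw [bd_add h (bd (kap v k)), hh3, bd_bd (two_eq K), add_zero]

/-- the part of a cycle away from `v` and its boundary -/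
theorem off_bd (K : Type) [Field K] [CharP K 2] {U : Type*} [AddCommGroup U] [Module K U] {v : V}
    {f : Finset V → U} (hb : ∀ τ, bd f τ = 0) (τ : Finset V) :
    bd (fun σ => if v ∈ σ then (0 : U) else f σ) τ = ell v f τ := by
  unfold ell
  by_cases hτ : v ∈ τ
  · rw [if_pos hτ]
    unfold bd
    exact sum_eq_zero (fun w _ => if_pos (mem_insert_of_mem hτ))
  · rw [if_neg hτ]
    refine eq_of_add_eq_zero K ?_
    have e1 : bd (fun σ => if v ∈ σ then (0 : U) else f σ) τ =
        ∑ w ∈ τᶜ.erase v, f (insert w τ) := by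
      unfold bd
      rw [← add_sum_erase _ _ (mem_compl.2 hτ)]
      beta_reduce
      rw [if_pos (mem_insert_self _ _), zero_add]
      refine sum_congr rfl (fun w hw => ?_)
      rw [if_neg]
      simp only [mem_insert, not_or]
      exact ⟨fun h => (mem_erase.1 hw).1 h.symm, hτ⟩
    have e2 : bd f τ = f (insert v τ) + ∑ w ∈ τᶜ.erase v, f (insert w τ) := by
      unfold bd
      exact (add_sum_erase _ (fun w => f (insert w τ)) (mem_compl.2 hτ)).symm
    rw [e1, add_comm, ← e2, hb]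

theorem cone_aux {G : SimpleGraph V} {A : Finset V} {v : V} (hc : ∀ x ∈ A, x ≠ v → G.Adj v x) : lk G A {v} = A.erase v := by
  ext x
  rw [mem_lk_singleton, mem_erase]
  constructor
  · rintro ⟨h1, h2⟩; exact ⟨(G.ne_of_adj h2).symm, h1⟩
  · rintro ⟨h1, h2⟩; exact ⟨h2, hc x h2 h1⟩

theorem cone {G : SimpleGraph V} {p : V → Module.End K U} (hp : CS G p) {A : Finset V} {v : V}
    (hv : v ∈ A) (hc : ∀ x ∈ A, x ≠ v → G.Adj v x) {i : ℕ}
    (h : ExAt (cell G p (A.erase v)) i) : ExAt (cell G p A) i := by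
  intro f hf hd hb
  have hL := cone_aux (G := G) hc
  set f0 : Finset V → U := fun σ => if v ∈ σ then (0 : U) else f σ with hf0
  have hf0m : ∀ σ, f0 σ ∈ cell G p (lk G A {v}) σ := by
    intro σ
    rw [hL]
    refine mem_cell_erase (f := f0) (fun σ => ?_) (fun σ hσ => if_pos hσ) σ
    simp only [hf0]
    split_ifs
    · exact zero_mem _
    · exact hf σ
  have hbf0 : ∀ τ, bd f0 τ = ell v f τ := off_bd K hb
  obtain ⟨m, hm1, hm2⟩ := h (fun σ => f0 σ + p v (f0 σ))
    (fun σ => by rw [← hL]; exact add_mem (hf0m σ) (pv_mem hp (hf0m σ)))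
    (fun σ hσ => by
      have : f0 σ = 0 := by
        simp only [hf0]
        split_ifs
        · rfl
        · exact hd σ hσ
      rw [this, map_zero, add_zero])
    (fun τ => by
      rw [bd_add, bd_mapl (p v), hbf0, (ell_mem hf τ).2, two_eq K])
  refine ⟨fun σ => kap v (fun σ => p v (f0 σ)) σ + m σ, fun σ => add_mem
    (kap_mem hv (fun σ => pv_mem hp (hf0m σ)) (fun σ => pp hp v _) σ)
    (cell_mono G p (erase_subset _ _) σ (hm1 σ)), fun τ => ?_⟩
  rw [bd_add (kap v (fun σ => p v (f0 σ))) m, hm2]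
  by_cases hτ : v ∈ τ
  · rw [bd_kap_of_mem hτ _ (link_zero (fun σ => pv_mem hp (hf0m σ))), bd_mapl (p v), hbf0,
      (ell_mem hf _).2]
    have : f0 τ = 0 := if_pos hτ
    rw [this, map_zero, add_zero, add_zero]
    unfold ell
    rw [if_neg (notMem_erase v τ), insert_erase hτ]
  · rw [bd_kap_of_notMem hτ, add_comm (f0 τ), ← add_assoc, two_eq K, zero_add]
    exact if_neg hτ

theorem coneOne {G : SimpleGraph V} {p : V → Module.End K U} {A : Finset V} {v : V}
    (hv : v ∈ A) (hc : ∀ x ∈ A, x ≠ v → G.Adj v x) (h1 : p v = 1) : Ex (cell G p A) := by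
  intro f hf hb
  have hL := cone_aux (G := G) hc
  set f0 : Finset V → U := fun σ => if v ∈ σ then (0 : U) else f σ with hf0
  have hf0m : ∀ σ, f0 σ ∈ cell G p (lk G A {v}) σ := by
    intro σ
    rw [hL]
    refine mem_cell_erase (f := f0) (fun σ => ?_) (fun σ hσ => if_pos hσ) σ
    simp only [hf0]
    split_ifs
    · exact zero_mem _
    · exact hf σ
  have hbf0 : ∀ τ, bd f0 τ = ell v f τ := off_bd K hb
  refine ⟨kap v f0, kap_mem hv hf0m (fun σ => by rw [h1]; rfl), fun τ => ?_⟩
  by_cases hτ : v ∈ τ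
  · rw [bd_kap_of_mem hτ _ (link_zero hf0m), hbf0]
    unfold ell
    rw [if_neg (notMem_erase v τ), insert_erase hτ]
  · rw [bd_kap_of_notMem hτ]
    exact if_neg hτ

end Pool.Agent.H37.CD
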