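import Pool.Agent.H37.CD.Swap

/-!
# helper37, CD, module SPLITSYS: the M-system of a splitting

`e` is an M-system of `contract G a b` on `ι`. On `ι × Fin 2` let `β = e b 1 0 ⊗ₖ E 0 1`
(`E i j = Matrix.single i j 1`), `g = 1 + β`. `β * β = 0` (`e b 1 0 * e b 1 0 = 0`), so in characteristic two
`g * g = 1`. `u i j = e b i j ⊗ₖ 1` and `f i j = 1 ⊗ₖ E i j` are commuting systems of matrix units. `splitE`:
`a ↦ g * u i j * g`, `b ↦ g * f i j * g`, other `x ↦ e x i j ⊗ₖ 1`.
`splitE_msys`: `MU.conj`; the pair `a, b`: `u` and `f` commute; a neighbour `y ≠ a, b` of `a` or `b` in `G` is a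
neighbour of `b` in `contract G a b`, so `e y i j ⊗ₖ 1` commutes with `u`, `β`, `g`, `f`.
The formulas, for `X : ι × Fin 2 → K` and `X_k = fun i => X (i, k)`:
`g * u 1 1 * g = u 1 1 + β * u 1 1 + u 1 1 * β + β * u 1 1 * β`, with `e b 1 0 * e b 1 1 = 0`,
`e b 1 1 * e b 1 0 = e b 1 0`: it equals `u 1 1 + β`. `g * f 1 1 * g = f 1 1 + β f 1 1 + f 1 1 β + β f 1 1 β`
with `E 0 1 * E 1 1 = E 0 1`, `E 1 1 * E 0 1 = 0`: it equals `f 1 1 + β`.
`((M ⊗ₖ N) *ᵥ X) (i, k) = ∑ i', ∑ k', M i i' * N k k' * X (i', k')`.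
-/

namespace Pool.Agent.H37.CD

open Finset
open scoped Kronecker

variable {V : Type} [Fintype V] [DecidableEq V]
variable {K : Type} [Field K] {ι : Type} [Fintype ι] [DecidableEq ι]

set_option linter.unusedSectionVars false
set_option linter.unusedVariables false

/-- the conjugating matrix `1 + e b 1 0 ⊗ E 0 1` -/
def splitG (e : V → Fin 2 → Fin 2 → Matrix ι ι K) (b : V) : Matrix (ι × Fin 2) (ι × Fin 2) K :=
  1 + e b 1 0 ⊗ₖ Matrix.single 0 1 (1 : K)

/-- the M-system of a splitting -/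
def splitE (e : V → Fin 2 → Fin 2 → Matrix ι ι K) (a b : V) :
    V → Fin 2 → Fin 2 → Matrix (ι × Fin 2) (ι × Fin 2) K := fun x i j =>
  if x = a then splitG e b * (e b i j ⊗ₖ (1 : Matrix (Fin 2) (Fin 2) K)) * splitG e b
  else if x = b then splitG e b * ((1 : Matrix ι ι K) ⊗ₖ Matrix.single i j (1 : K)) * splitG e b
  else e x i j ⊗ₖ (1 : Matrix (Fin 2) (Fin 2) K)

namespace SplitSys

theorem single_mul (i j k l : Fin 2) :
    Matrix.single i j (1 : K) * Matrix.single k l (1 : K) = if j = k then Matrix.single i l 1 else 0 := by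
  split_ifs with h
  · subst h
    rw [Matrix.single_mul_single_same, one_mul]
  · exact Matrix.single_mul_single_of_ne _ _ _ _ h _

theorem mu_left {f : Fin 2 → Fin 2 → Matrix ι ι K} (hf : MU f) :
    MU (fun i j => f i j ⊗ₖ (1 : Matrix (Fin 2) (Fin 2) K)) := by
  constructor
  · intro i j k l
    rw [← Matrix.mul_kronecker_mul, hf.mul, one_mul]
    split_ifs
    · rfl
    · exact Matrix.zero_kronecker _
  · rw [← Matrix.add_kronecker, hf.one, Matrix.one_kronecker_one]

theorem mu_right :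
    MU (fun i j => (1 : Matrix ι ι K) ⊗ₖ Matrix.single i j (1 : K) : Fin 2 → Fin 2 → _) := by
  constructor
  · intro i j k l
    rw [← Matrix.mul_kronecker_mul, single_mul, one_mul]
    split_ifs
    · rfl
    · exact Matrix.kronecker_zero _
  · rw [← Matrix.kronecker_add, ← Matrix.one_kronecker_one]
    congr 1
    ext i j
    fin_cases i <;> fin_cases j <;> simp [Matrix.single]

theorem beta_sq {e : V → Fin 2 → Fin 2 → Matrix ι ι K} {b : V} :
    (e b 1 0 ⊗ₖ Matrix.single (0 : Fin 2) (1 : Fin 2) (1 : K))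
      * (e b 1 0 ⊗ₖ Matrix.single (0 : Fin 2) (1 : Fin 2) (1 : K)) = 0 := by
  rw [← Matrix.mul_kronecker_mul, single_mul, if_neg (by decide), Matrix.kronecker_zero]

theorem splitG_sq [CharP K 2] {e : V → Fin 2 → Fin 2 → Matrix ι ι K} {b : V} :
    splitG e b * splitG e b = 1 := by
  unfold splitG
  rw [mul_add, add_mul, add_mul, beta_sq, one_mul, one_mul, mul_one, add_zero, add_assoc]
  have h : (e b 1 0 ⊗ₖ Matrix.single (0 : Fin 2) (1 : Fin 2) (1 : K))
      + (e b 1 0 ⊗ₖ Matrix.single (0 : Fin 2) (1 : Fin 2) (1 : K)) = 0 := by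
    ext i j
    rw [Matrix.add_apply, Matrix.zero_apply]
    exact CharTwo.add_self_eq_zero _
  rw [h, add_zero]

theorem comm_tensor {M N : Matrix ι ι K} (h : Commute M N) (P : Matrix (Fin 2) (Fin 2) K) :
    Commute (M ⊗ₖ P) (N ⊗ₖ (1 : Matrix (Fin 2) (Fin 2) K)) := by
  change _ * _ = _ * _
  rw [← Matrix.mul_kronecker_mul, ← Matrix.mul_kronecker_mul, h.eq, one_mul, mul_one]

theorem comm_all [CharP K 2] {G : SimpleGraph V} {a b : V}
    {e : V → Fin 2 → Fin 2 → Matrix ι ι K} (he : MSys (contract G a b) e) {y : V}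
    (hyb : y ≠ b) (hy : G.Adj a y ∨ G.Adj b y) (M : Matrix (ι × Fin 2) (ι × Fin 2) K)
    (k l : Fin 2) (hM : Commute M (e y k l ⊗ₖ (1 : Matrix (Fin 2) (Fin 2) K))) :
    Commute (splitG e b * M * splitG e b) (e y k l ⊗ₖ (1 : Matrix (Fin 2) (Fin 2) K)) := by
  have hadj : (contract G a b).Adj b y := by
    refine ⟨hyb.symm, ?_⟩
    rcases hy with h | h
    · exact Or.inr (Or.inl ⟨rfl, h⟩)
    · exact Or.inl h
  have hg : Commute (splitG e b) (e y k l ⊗ₖ (1 : Matrix (Fin 2) (Fin 2) K)) := by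
    unfold splitG
    exact (Commute.one_left _).add_left (comm_tensor (he.comm b y hadj 1 0 k l) _)
  exact (hg.mul_left hM).mul_left hg

end SplitSys

theorem splitE_msys [CharP K 2] {G : SimpleGraph V} {a b : V} (hab : a ≠ b)
    {e : V → Fin 2 → Fin 2 → Matrix ι ι K} (he : MSys (contract G a b) e) :
    MSys G (splitE e a b) := by
  have hg : splitG e b * splitG e b = 1 := SplitSys.splitG_sq
  have key : ∀ v w, G.Adj v w → ∀ i j k l, Commute (splitE e a b v i j) (splitE e a b w k l) := by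
    have h1 : ∀ w, G.Adj a w → ∀ i j k l, Commute (splitE e a b a i j) (splitE e a b w k l) := by
      intro w hw i j k l
      by_cases hwb : w = b
      · subst hwb
        have hwa : w ≠ a := hab.symm
        simp only [splitE, if_neg hwa, if_true]
        change _ * _ = _ * _
        have e1 : ∀ M N : Matrix (ι × Fin 2) (ι × Fin 2) K,
            splitG e w * M * splitG e w * (splitG e w * N * splitG e w)
              = splitG e w * (M * N) * splitG e w := by
          intro M N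
          calc _ = splitG e w * M * (splitG e w * splitG e w) * N * splitG e w := by
                simp only [mul_assoc]
            _ = _ := by rw [hg]; simp only [mul_assoc, one_mul]
        rw [e1, e1, ← Matrix.mul_kronecker_mul, ← Matrix.mul_kronecker_mul, one_mul, one_mul,
          mul_one, mul_one]
      · have hwa : w ≠ a := hw.ne.symm
        simp only [splitE, if_neg hwa, if_neg hwb, if_true]
        refine SplitSys.comm_all he hwb (Or.inl hw) _ k l ?_
        refine SplitSys.comm_tensor ?_ _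
        have hadj : (contract G a b).Adj b w := ⟨fun h => hwb h.symm, Or.inr (Or.inl ⟨rfl, hw⟩)⟩
        exact he.comm b w hadj i j k l
    have h2 : ∀ w, w ≠ a → G.Adj b w → ∀ i j k l,
        Commute (splitE e a b b i j) (splitE e a b w k l) := by
      intro w hwa hw i j k l
      have hwb : w ≠ b := hw.ne.symm
      simp only [splitE, if_neg hwa, if_neg hwb, if_neg hab.symm, if_true]
      refine SplitSys.comm_all he hwb (Or.inr hw) _ k l ?_
      change _ * _ = _ * _
      rw [← Matrix.mul_kronecker_mul, ← Matrix.mul_kronecker_mul, one_mul, one_mul, mul_one, mul_one]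
    intro v w hvw i j k l
    by_cases hva : v = a
    · subst hva
      exact h1 w hvw i j k l
    by_cases hwa : w = a
    · subst hwa
      exact (h1 v hvw.symm k l i j).symm
    by_cases hvb : v = b
    · subst hvb
      exact h2 w hwa hvw i j k l
    by_cases hwb : w = b
    · subst hwb
      exact (h2 v hva hvw.symm k l i j).symm
    simp only [splitE, if_neg hva, if_neg hvb, if_neg hwa, if_neg hwb]
    exact SplitSys.comm_tensor (he.comm v w ⟨hvw.ne, Or.inl hvw⟩ i j k l) _
  constructor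
  · intro v
    by_cases hva : v = a
    · subst hva
      have := (SplitSys.mu_left (he.mu b)).conj hg hg
      convert this using 3
      simp [splitE]
    by_cases hvb : v = b
    · subst hvb
      have := (SplitSys.mu_right (K := K) (ι := ι)).conj hg hg
      convert this using 3
      simp [splitE, hva]
    · have := SplitSys.mu_left (he.mu v)
      convert this using 3
      simp [splitE, hva, hvb]
  · exact fun v w hvw i j k l => key v w hvw i j k l

namespace SplitSys

theorem kron_mulVec (M : Matrix ι ι K) (N : Matrix (Fin 2) (Fin 2) K) (X : ι × Fin 2 → K)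
    (i : ι) (k : Fin 2) :
    (M ⊗ₖ N).mulVec X (i, k) = ∑ k', N k k' * M.mulVec (fun i' => X (i', k')) i := by
  simp only [Matrix.mulVec, dotProduct, Matrix.kronecker_apply, Fintype.sum_prod_type, mul_sum]
  rw [sum_comm]
  refine sum_congr rfl (fun k' _ => sum_congr rfl (fun i' _ => ?_))
  ring

theorem conj_u {e : V → Fin 2 → Fin 2 → Matrix ι ι K} {b : V} (he : MU (e b)) :
    splitG e b * (e b 1 1 ⊗ₖ (1 : Matrix (Fin 2) (Fin 2) K)) * splitG e b
      = e b 1 1 ⊗ₖ (1 : Matrix (Fin 2) (Fin 2) K) + e b 1 0 ⊗ₖ Matrix.single 0 1 (1 : K) := by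
  unfold splitG
  have h1 : (e b 1 0 ⊗ₖ Matrix.single (0 : Fin 2) (1 : Fin 2) (1 : K))
      * (e b 1 1 ⊗ₖ (1 : Matrix (Fin 2) (Fin 2) K)) = 0 := by
    rw [← Matrix.mul_kronecker_mul, he.mul, if_neg (by decide), Matrix.zero_kronecker]
  have h2 : (e b 1 1 ⊗ₖ (1 : Matrix (Fin 2) (Fin 2) K))
      * (e b 1 0 ⊗ₖ Matrix.single (0 : Fin 2) (1 : Fin 2) (1 : K))
      = e b 1 0 ⊗ₖ Matrix.single (0 : Fin 2) (1 : Fin 2) (1 : K) := by
    rw [← Matrix.mul_kronecker_mul, he.mul, if_pos rfl, one_mul]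
  rw [add_mul, one_mul, h1, add_zero, mul_add, mul_one, h2]

theorem conj_f {e : V → Fin 2 → Fin 2 → Matrix ι ι K} {b : V} :
    splitG e b * ((1 : Matrix ι ι K) ⊗ₖ Matrix.single (1 : Fin 2) (1 : Fin 2) (1 : K)) * splitG e b
      = (1 : Matrix ι ι K) ⊗ₖ Matrix.single (1 : Fin 2) (1 : Fin 2) (1 : K)
        + e b 1 0 ⊗ₖ Matrix.single 0 1 (1 : K) := by
  unfold splitG
  have h1 : (e b 1 0 ⊗ₖ Matrix.single (0 : Fin 2) (1 : Fin 2) (1 : K))
      * ((1 : Matrix ι ι K) ⊗ₖ Matrix.single (1 : Fin 2) (1 : Fin 2) (1 : K))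
      = e b 1 0 ⊗ₖ Matrix.single (0 : Fin 2) (1 : Fin 2) (1 : K) := by
    rw [← Matrix.mul_kronecker_mul, single_mul, if_pos rfl, mul_one]
  have h2 : ((1 : Matrix ι ι K) ⊗ₖ Matrix.single (1 : Fin 2) (1 : Fin 2) (1 : K))
      * (e b 1 0 ⊗ₖ Matrix.single (0 : Fin 2) (1 : Fin 2) (1 : K)) = 0 := by
    rw [← Matrix.mul_kronecker_mul, single_mul, if_neg (by decide), Matrix.kronecker_zero]
  rw [add_mul, one_mul, h1, mul_add, mul_one, add_mul, h2, beta_sq]
  simp

theorem beta_mulVec (M : Matrix ι ι K) (X : ι × Fin 2 → K) (i : ι) (k : Fin 2) :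
    (M ⊗ₖ Matrix.single (0 : Fin 2) (1 : Fin 2) (1 : K)).mulVec X (i, k)
      = if k = 0 then M.mulVec (fun i' => X (i', 1)) i else 0 := by
  rw [kron_mulVec, Fin.sum_univ_two]
  fin_cases k <;> simp [Matrix.single]

theorem one_mulVec' (M : Matrix ι ι K) (X : ι × Fin 2 → K) (i : ι) (k : Fin 2) :
    (M ⊗ₖ (1 : Matrix (Fin 2) (Fin 2) K)).mulVec X (i, k)
      = M.mulVec (fun i' => X (i', k)) i := by
  rw [kron_mulVec, Fin.sum_univ_two]
  obtain rfl | rfl : k = 0 ∨ k = 1 := by omega
  · rw [Matrix.one_apply_eq, Matrix.one_apply_ne (by decide), one_mul, zero_mul, add_zero]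
  · rw [Matrix.one_apply_eq, Matrix.one_apply_ne (by decide), one_mul, zero_mul, zero_add]

end SplitSys

theorem splitE_a {a b : V} (hab : a ≠ b) {e : V → Fin 2 → Fin 2 → Matrix ι ι K}
    (he : MU (e b)) (X : ι × Fin 2 → K) :
    proj (splitE e a b) a X = fun ik =>
      if ik.2 = 0 then (proj e b (fun i => X (i, 0)) + Matrix.toLin' (e b 1 0) (fun i => X (i, 1))) ik.1
      else proj e b (fun i => X (i, 1)) ik.1 := by
  funext ⟨i, k⟩
  simp only [proj, splitE, if_true, SplitSys.conj_u he, Matrix.toLin'_apply, Matrix.add_mulVec,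
    Pi.add_apply, SplitSys.beta_mulVec, SplitSys.one_mulVec']
  fin_cases k <;> simp

theorem splitE_b {a b : V} (hab : a ≠ b) {e : V → Fin 2 → Fin 2 → Matrix ι ι K}
    (he : MU (e b)) (X : ι × Fin 2 → K) :
    proj (splitE e a b) b X = fun ik =>
      if ik.2 = 0 then Matrix.toLin' (e b 1 0) (fun i => X (i, 1)) ik.1 else X (ik.1, 1) := by
  funext ⟨i, k⟩
  simp only [proj, splitE, if_true, if_neg hab.symm, SplitSys.conj_f, Matrix.toLin'_apply,
    Matrix.add_mulVec, Pi.add_apply, SplitSys.kron_mulVec, Fin.sum_univ_two]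
  fin_cases k <;> simp [Matrix.single]

theorem splitE_other {a b x : V} (hxa : x ≠ a) (hxb : x ≠ b)
    {e : V → Fin 2 → Fin 2 → Matrix ι ι K} (X : ι × Fin 2 → K) :
    proj (splitE e a b) x X = fun ik => proj e x (fun i => X (i, ik.2)) ik.1 := by
  funext ⟨i, k⟩
  simp only [proj, splitE, if_neg hxa, if_neg hxb, Matrix.toLin'_apply, SplitSys.one_mulVec']

end Pool.Agent.H37.CD
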