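import Pool.Agent.H37.CD.SplitK
import Pool.Agent.H37.CD.SplitSys
import Pool.Agent.H37.CD.Rules

set_option linter.unusedSectionVars false

/-!
# helper37, CD, module SPLITEX: exactness for the M-system of a splitting

`e` M-system of `G' = contract G a b`, `p x = proj e (if x = a then b else x)`, so `p a = p b = e¹¹`, where
`eⁱʲ` is the linear map of `e b i j`. `CS G' p`: the neighbours of `a` (other than `b`) in `G'` are neighbours of
`b` in `G'`.

K1: `Ex (cell G p A)`: `splitK1`; its hypothesis is `h1`, by `cell_congr` (on `A.erase a`, `p = proj e`).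
K0: `Ex (cell (delEdge G a b) p A)`: `splitK0`, with `Ex (cell G p (lk G A {a, b}))` from `h2` by
`cell_congr` (the vertices of the link are different from `a` and `b`, so adjacent in `G'` iff in `G`).

For `X : ι × Fin 2 → K` write `X = (X_0, X_1)`. By `splitE_a`, `splitE_b`, `splitE_other`: `X` is fixed by the
projection of `a` iff `e¹¹ X_1 = X_1` and `e¹¹ X_0 + e¹⁰ X_1 = X_0`, i.e. (`e¹⁰ X_1 = e¹⁰ e¹¹ X_1 = 0`) iff
`e¹¹ X_0 = X_0`, `e¹¹ X_1 = X_1`; by that of `b` iff `X_0 = e¹⁰ X_1`; by that of `x ≠ a, b` iff `p x` fixes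
`X_0` and `X_1`. Let `Z σ = cell G (proj (splitE e a b)) A σ`.
(1) If `X ∈ Z σ` then `X_0 ∈ cell (delEdge G a b) p A σ`: if `b ∈ σ`, `X_0 = e¹⁰ X_1` is fixed by `e¹¹`; if
`a, b ∈ σ` then `X_0 = e¹⁰ X_1 = e¹⁰ e¹¹ X_1 = 0`, so a set with `X_0 ≠ 0` is a clique without the edge `a b`.
(2) If `y ∈ cell (delEdge G a b) p A σ` then `(y, if b ∈ σ then e⁰¹ y else 0) ∈ Z σ`:
`e⁰¹` commutes with `p x`, `x ∈ σ`, `x ≠ a, b` if `b ∈ σ`; if `b ∈ σ`: `e¹⁰ e⁰¹ y = e¹¹ y = y`. (If `y ≠ 0`, `σ` does
not contain both `a` and `b`.)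
(3) If `(0, k) ∈ Z σ` then `k ∈ cell G p A σ`: if `b ∈ σ`: `e¹⁰ k = 0`, so `e⁰⁰ k = e⁰¹ e¹⁰ k = 0` and
`e¹¹ k = k`.
(4) If `k ∈ cell G p A σ` then `(0, k) ∈ Z σ`: if `b ∈ σ`, `e¹⁰ k = e¹⁰ e¹¹ k = 0`.
Let `f` be a cycle of `Z`. `f_0` is a cycle of `cell (delEdge G a b) p A` by (1), so `f_0 = bd h0` (K0). Let
`H σ = (h0 σ, if b ∈ σ then e⁰¹ (h0 σ) else 0)`, a chain of `Z` by (2). `f + bd H` is a chain of `Z` with
zero first component: `= (0, k)`, `k` a cycle of `cell G p A` by (3), `k = bd k'` (K1), `(0, k')` is a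
chain of `Z` by (4), `f = bd (H + (0, k'))`.
-/

namespace Pool.Agent.H37.CD

open Finset

variable {V : Type} [Fintype V] [DecidableEq V]
variable {K : Type} [Field K] [CharP K 2] {ι : Type} [Fintype ι] [DecidableEq ι]

/-- the component `k` of a vector on `ι × Fin 2` -/
def prK (K : Type) [Field K] (ι : Type) (k : Fin 2) : (ι × Fin 2 → K) →ₗ[K] (ι → K) where
  toFun X := fun i => X (i, k)
  map_add' := fun _ _ => rfl
  map_smul' := fun _ _ => rfl

omit [CharP K 2] [Fintype ι] [DecidableEq ι] in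
theorem prK_apply (k : Fin 2) (X : ι × Fin 2 → K) : prK K ι k X = fun i => X (i, k) := rfl

/-- the vector with components `y`, `z` -/
def pk (y z : ι → K) : ι × Fin 2 → K := fun ik => if ik.2 = 0 then y ik.1 else z ik.1

omit [CharP K 2] [Fintype ι] [DecidableEq ι] in
theorem pr0_pk (y z : ι → K) : prK K ι 0 (pk y z) = y := by
  funext i; simp [prK_apply, pk]

omit [CharP K 2] [Fintype ι] [DecidableEq ι] in
theorem pr1_pk (y z : ι → K) : prK K ι 1 (pk y z) = z := by
  funext i; simp [prK_apply, pk]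

omit [CharP K 2] [Fintype ι] [DecidableEq ι] in
theorem ext_pr {X Y : ι × Fin 2 → K} (h0 : prK K ι 0 X = prK K ι 0 Y)
    (h1 : prK K ι 1 X = prK K ι 1 Y) : X = Y := by
  funext ⟨i, k⟩
  have a0 := congrFun h0 i
  have a1 := congrFun h1 i
  simp only [prK_apply] at a0 a1
  fin_cases k
  · exact a0
  · exact a1

omit [CharP K 2] [Fintype ι] [DecidableEq ι] in
theorem pk_zero : pk (0 : ι → K) 0 = 0 := by
  funext ik; simp [pk]

/-- `z ↦ (0, z)` -/
def inK (K : Type) [Field K] (ι : Type) : (ι → K) →ₗ[K] (ι × Fin 2 → K) where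
  toFun z := pk 0 z
  map_add' := fun x y => by
    funext ik; by_cases h : ik.2 = 0 <;> simp [pk, h]
  map_smul' := fun c x => by
    funext ik; by_cases h : ik.2 = 0 <;> simp [pk, h]

omit [CharP K 2] [Fintype ι] [DecidableEq ι] in
theorem inK_apply (z : ι → K) : inK K ι z = pk 0 z := rfl

section Fixed

variable {a b : V} {e : V → Fin 2 → Fin 2 → Matrix ι ι K}

omit [CharP K 2] in
theorem mu_comp (he : MU (e b)) (i j k l : Fin 2) (x : ι → K) :
    Matrix.toLin' (e b i j) (Matrix.toLin' (e b k l) x) =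
      if j = k then Matrix.toLin' (e b i l) x else 0 := by
  rw [← Matrix.toLin'_mul_apply, he.mul]
  split_ifs with h
  · rfl
  · simp

omit [CharP K 2] in
theorem mu_one (he : MU (e b)) (x : ι → K) :
    Matrix.toLin' (e b 0 0) x + Matrix.toLin' (e b 1 1) x = x := by
  rw [← LinearMap.add_apply, ← map_add, he.one, Matrix.toLin'_one]
  rfl

omit [CharP K 2] in
theorem fix_a (hab : a ≠ b) (he : MU (e b)) (X : ι × Fin 2 → K) :
    proj (splitE e a b) a X = X ↔
      proj e b (prK K ι 0 X) = prK K ι 0 X ∧ proj e b (prK K ι 1 X) = prK K ι 1 X := by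
  have h0 : prK K ι 0 (proj (splitE e a b) a X) =
      proj e b (prK K ι 0 X) + Matrix.toLin' (e b 1 0) (prK K ι 1 X) := by
    rw [splitE_a hab he X]
    rfl
  have h1 : prK K ι 1 (proj (splitE e a b) a X) = proj e b (prK K ι 1 X) := by
    rw [splitE_a hab he X]
    rfl
  have key : proj e b (prK K ι 1 X) = prK K ι 1 X →
      Matrix.toLin' (e b 1 0) (prK K ι 1 X) = 0 := by
    intro h
    rw [← h, proj, mu_comp he]
    simp
  constructor
  · intro h
    rw [h] at h0 h1
    have h2 := key h1.symm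
    rw [h2, add_zero] at h0
    exact ⟨h0.symm, h1.symm⟩
  · rintro ⟨g0, g1⟩
    refine ext_pr ?_ ?_
    · rw [h0, key g1, add_zero, g0]
    · rw [h1, g1]

omit [CharP K 2] in
theorem fix_b (hab : a ≠ b) (he : MU (e b)) (X : ι × Fin 2 → K) :
    proj (splitE e a b) b X = X ↔ Matrix.toLin' (e b 1 0) (prK K ι 1 X) = prK K ι 0 X := by
  have h0 : prK K ι 0 (proj (splitE e a b) b X) = Matrix.toLin' (e b 1 0) (prK K ι 1 X) := by
    rw [splitE_b hab he X]
    rfl
  have h1 : prK K ι 1 (proj (splitE e a b) b X) = prK K ι 1 X := by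
    rw [splitE_b hab he X]
    rfl
  constructor
  · intro h
    rw [h] at h0
    exact h0.symm
  · intro g
    refine ext_pr ?_ ?_
    · rw [h0, g]
    · rw [h1]

omit [CharP K 2] in
theorem fix_o {x : V} (hxa : x ≠ a) (hxb : x ≠ b) (X : ι × Fin 2 → K) :
    proj (splitE e a b) x X = X ↔
      proj e x (prK K ι 0 X) = prK K ι 0 X ∧ proj e x (prK K ι 1 X) = prK K ι 1 X := by
  have h0 : prK K ι 0 (proj (splitE e a b) x X) = proj e x (prK K ι 0 X) := by
    rw [splitE_other hxa hxb X]
    rfl
  have h1 : prK K ι 1 (proj (splitE e a b) x X) = proj e x (prK K ι 1 X) := by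
    rw [splitE_other hxa hxb X]
    rfl
  constructor
  · intro h
    rw [h] at h0 h1
    exact ⟨h0.symm, h1.symm⟩
  · rintro ⟨g0, g1⟩
    refine ext_pr ?_ ?_
    · rw [h0, g0]
    · rw [h1, g1]

end Fixed

theorem split_ex {G : SimpleGraph V} {A : Finset V} {a b : V}
    (ha : a ∈ A) (hb : b ∈ A) (hab : G.Adj a b)
    (hx : ∀ x ∈ A, ∀ y ∈ A, G.Adj a x → x ≠ b → ¬ G.Adj b x → G.Adj b y → y ≠ a → ¬ G.Adj a y →
      ¬ G.Adj x y)
    {e : V → Fin 2 → Fin 2 → Matrix ι ι K} (he : MSys (contract G a b) e)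
    (h1 : ExM (contract G a b) e (A.erase a)) (h2 : ExM (contract G a b) e (lk G A {a, b})) :
    ExM G (splitE e a b) A := by
  classical
  have hne : a ≠ b := hab.ne
  have hmu : MU (e b) := he.mu b
  -- the projections of the auxiliary complexes
  let p : V → Module.End K (ι → K) := fun x => proj e (if x = a then b else x)
  have pa : p a = proj e b := by simp [p]
  have pb : p b = proj e b := by simp [p, hne.symm]
  have po : ∀ x, x ≠ a → p x = proj e x := fun x hxa => by simp [p, hxa]
  have K1 : Ex (cell G p A) := by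
    refine splitK1 ha hb hab hx (pa.trans pb.symm) ?_
    have h : cell (contract G a b) p (A.erase a) =
        cell (contract G a b) (proj e) (A.erase a) :=
      funext (cell_congr (fun _ _ _ _ => Iff.rfl) (fun x hxA => po x (mem_erase.1 hxA).1))
    rw [h]
    exact h1
  have hcomm : ∀ v w, (contract G a b).Adj v w → Commute (proj e v) (proj e w) := by
    intro v w hvw
    have := he.comm v w hvw 1 1 1 1
    change proj e v * proj e w = proj e w * proj e v
    unfold proj
    rw [Module.End.mul_eq_comp, Module.End.mul_eq_comp, ← Matrix.toLin'_mul,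
      ← Matrix.toLin'_mul, this]
  have hCS : CS (contract G a b) p := by
    constructor
    · intro v
      change proj e _ * proj e _ = proj e _
      unfold proj
      rw [Module.End.mul_eq_comp, ← Matrix.toLin'_mul, (he.mu _).mul]
      simp
    · intro v w hvw
      by_cases hva : v = a
      · subst hva
        by_cases hwb : w = b
        · subst hwb
          rw [pa, pb]
        · have hwv : w ≠ v := hvw.1.symm
          rw [pa, po w hwv]
          refine hcomm b w ⟨fun h => hwb h.symm, ?_⟩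
          rcases hvw.2 with h | h | h
          · exact Or.inr (Or.inl ⟨rfl, h⟩)
          · exact absurd h.1 hne
          · exact absurd h.1 hwb
      · by_cases hwa : w = a
        · subst hwa
          by_cases hvb : v = b
          · subst hvb
            rw [pa, pb]
          · rw [pa, po v hva]
            refine hcomm v b ⟨hvb, ?_⟩
            rcases hvw.2 with h | h | h
            · exact Or.inr (Or.inr ⟨rfl, h.symm⟩)
            · exact absurd h.1 hvb
            · exact absurd h.1 hne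
        · rw [po v hva, po w hwa]
          exact hcomm v w hvw
  have K0 : Ex (cell (delEdge G a b) p A) := by
    refine splitK0 ha hb hab hCS K1 ?_
    have hlk : ∀ x ∈ lk G A {a, b}, x ≠ a ∧ x ≠ b := by
      intro x hxl
      simp only [lk, mem_filter, mem_insert, mem_singleton, forall_eq_or_imp, forall_eq] at hxl
      exact ⟨hxl.2.1.ne', hxl.2.2.ne'⟩
    have h : cell G p (lk G A {a, b}) = cell (contract G a b) (proj e) (lk G A {a, b}) := by
      refine funext (cell_congr (fun x hxl y hyl => ?_) (fun x hxl => po x (hlk x hxl).1))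
      constructor
      · intro h
        exact ⟨h.ne, Or.inl h⟩
      · rintro ⟨_, h | h | h⟩
        · exact h
        · exact absurd h.1 (hlk x hxl).2
        · exact absurd h.1 (hlk y hyl).2
    rw [h]
    exact h2
  -- (1)
  have c1 : ∀ σ X, X ∈ cell G (proj (splitE e a b)) A σ →
      prK K ι 0 X ∈ cell (delEdge G a b) p A σ := by
    rintro σ X ⟨hX1, hX2⟩
    refine ⟨fun h0 => ?_, fun v hv => ?_⟩
    · have hX : X ≠ 0 := fun h => h0 (by rw [h, map_zero])
      obtain ⟨hA, hcl⟩ := hX1 hX
      refine ⟨hA, fun x hxs y hys hxy => ⟨hcl hxs hys hxy, ?_⟩⟩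
      have key : a ∈ σ → b ∈ σ → False := by
        intro has hbs
        have e1 := ((fix_a hne hmu X).1 (hX2 a has)).2
        have e2 := (fix_b hne hmu X).1 (hX2 b hbs)
        apply h0
        rw [← e2, ← e1, proj, mu_comp hmu]
        simp
      constructor
      · rintro ⟨rfl, rfl⟩
        exact key hxs hys
      · rintro ⟨rfl, rfl⟩
        exact key hys hxs
    · by_cases hva : v = a
      · subst hva
        rw [pa]
        exact ((fix_a hne hmu X).1 (hX2 v hv)).1
      · by_cases hvb : v = b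
        · subst hvb
          rw [pb]
          have e2 := (fix_b hne hmu X).1 (hX2 v hv)
          rw [← e2, proj, mu_comp hmu]
          simp
        · rw [po v hva]
          exact ((fix_o hva hvb X).1 (hX2 v hv)).1
  -- (2)
  have c2 : ∀ σ y, y ∈ cell (delEdge G a b) p A σ →
      pk y (if b ∈ σ then Matrix.toLin' (e b 0 1) y else 0) ∈
        cell G (proj (splitE e a b)) A σ := by
    rintro σ y ⟨hy1, hy2⟩
    by_cases hy0 : y = 0
    · have : pk y (if b ∈ σ then Matrix.toLin' (e b 0 1) y else 0) = 0 := by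
        rw [hy0, map_zero, ite_self, pk_zero]
      rw [this]
      exact zero_mem _
    obtain ⟨hA, hcl⟩ := hy1 hy0
    refine ⟨fun _ => ⟨hA, fun x hxs y hys hxy => (hcl hxs hys hxy).1⟩, fun v hv => ?_⟩
    by_cases hva : v = a
    · subst hva
      rw [fix_a hne hmu, pr0_pk, pr1_pk]
      have hb' : b ∉ σ := by
        intro hbs
        exact (hcl hv hbs hne).2.1 ⟨rfl, rfl⟩
      rw [if_neg hb', map_zero]
      exact ⟨by rw [← pa]; exact hy2 v hv, rfl⟩
    · by_cases hvb : v = b
      · subst hvb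
        rw [fix_b hne hmu, pr0_pk, pr1_pk, if_pos hv, mu_comp hmu]
        have := hy2 v hv
        rw [pb] at this
        simpa [proj] using this
      · rw [fix_o hva hvb, pr0_pk, pr1_pk]
        have h := hy2 v hv
        rw [po v hva] at h
        refine ⟨h, ?_⟩
        by_cases hbs : b ∈ σ
        · rw [if_pos hbs]
          have hadj : (contract G a b).Adj v b := ⟨hvb, Or.inl (hcl hv hbs hvb).1⟩
          have hc := he.comm v b hadj 1 1 0 1
          have h3 : proj e v (Matrix.toLin' (e b 0 1) y) =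
              Matrix.toLin' (e b 0 1) (proj e v y) := by
            unfold proj
            rw [← Matrix.toLin'_mul_apply, ← Matrix.toLin'_mul_apply, hc]
          rw [h3, h]
        · rw [if_neg hbs, map_zero]
  -- (3)
  have c3 : ∀ σ k, pk 0 k ∈ cell G (proj (splitE e a b)) A σ → k ∈ cell G p A σ := by
    rintro σ k ⟨hX1, hX2⟩
    refine ⟨fun hk => hX1 (fun h => hk ?_), fun v hv => ?_⟩
    · have := congrArg (prK K ι 1) h
      rwa [pr1_pk, map_zero] at this
    · by_cases hva : v = a
      · subst hva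
        rw [pa]
        have := ((fix_a hne hmu _).1 (hX2 v hv)).2
        rwa [pr1_pk] at this
      · by_cases hvb : v = b
        · subst hvb
          have e2 := (fix_b hne hmu _).1 (hX2 v hv)
          rw [pr0_pk, pr1_pk] at e2
          have e3 : Matrix.toLin' (e v 0 0) k = 0 := by
            have := mu_comp hmu 0 1 1 0 k
            rw [if_pos rfl, e2, map_zero] at this
            exact this.symm
          have e4 := mu_one hmu k
          rw [e3, zero_add] at e4
          rw [pb]
          exact e4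
        · rw [po v hva]
          have := ((fix_o hva hvb _).1 (hX2 v hv)).2
          rwa [pr1_pk] at this
  -- (4)
  have c4 : ∀ σ k, k ∈ cell G p A σ → pk 0 k ∈ cell G (proj (splitE e a b)) A σ := by
    rintro σ k ⟨hk1, hk2⟩
    refine ⟨fun h => hk1 (fun hk => h (by rw [hk, pk_zero])), fun v hv => ?_⟩
    have hk := hk2 v hv
    by_cases hva : v = a
    · subst hva
      rw [fix_a hne hmu, pr0_pk, pr1_pk, map_zero]
      rw [pa] at hk
      exact ⟨rfl, hk⟩
    · by_cases hvb : v = b
      · subst hvb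
        rw [fix_b hne hmu, pr0_pk, pr1_pk]
        rw [pb] at hk
        rw [← hk, proj, mu_comp hmu]
        simp
      · rw [fix_o hva hvb, pr0_pk, pr1_pk, map_zero]
        rw [po v hva] at hk
        exact ⟨rfl, hk⟩
  -- the main argument
  intro f hf hbf
  have hanti : ∀ σ τ : Finset V, σ ⊆ τ → cell G (proj (splitE e a b)) A τ ≤
      cell G (proj (splitE e a b)) A σ := fun σ τ h => cell_anti G _ A h
  obtain ⟨h0, hh0, hb0⟩ := K0 (fun σ => prK K ι 0 (f σ)) (fun σ => c1 σ _ (hf σ)) (fun τ => by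
    rw [bd_mapl, hbf τ, map_zero])
  let H : Finset V → (ι × Fin 2 → K) := fun σ =>
    pk (h0 σ) (if b ∈ σ then Matrix.toLin' (e b 0 1) (h0 σ) else 0)
  have hH : ∀ σ, H σ ∈ cell G (proj (splitE e a b)) A σ := fun σ => c2 σ _ (hh0 σ)
  let F : Finset V → (ι × Fin 2 → K) := fun σ => f σ + bd H σ
  have hF : ∀ σ, F σ ∈ cell G (proj (splitE e a b)) A σ := fun σ =>
    add_mem (hf σ) (bd_mem hanti hH σ)
  have hF0 : ∀ σ, prK K ι 0 (F σ) = 0 := by
    intro σ
    have h3 : prK K ι 0 (bd H σ) = bd h0 σ := by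
      rw [← bd_mapl]
      exact bd_congr (fun τ => pr0_pk _ _) σ
    change prK K ι 0 (f σ + bd H σ) = 0
    rw [map_add, h3, hb0 σ]
    exact two_eq K _
  have hFk : ∀ σ, F σ = pk 0 (prK K ι 1 (F σ)) := fun σ =>
    ext_pr (by rw [hF0, pr0_pk]) (by rw [pr1_pk])
  have hbF : ∀ τ, bd F τ = 0 := by
    intro τ
    change bd (fun σ => f σ + bd H σ) τ = 0
    rw [bd_add, hbf τ, zero_add]
    exact bd_bd (two_eq K) H τ
  obtain ⟨k', hk', hbk'⟩ := K1 (fun σ => prK K ι 1 (F σ))
    (fun σ => c3 σ _ (by rw [← hFk σ]; exact hF σ)) (fun τ => by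
      rw [bd_mapl, hbF τ, map_zero])
  refine ⟨fun σ => H σ + inK K ι (k' σ), fun σ => add_mem (hH σ) (c4 σ _ (hk' σ)), fun τ => ?_⟩
  rw [bd_add, bd_mapl, hbk' τ, inK_apply, ← hFk τ]
  change bd H τ + (f τ + bd H τ) = f τ
  rw [add_comm (f τ), ← add_assoc, two_eq K, zero_add]

end Pool.Agent.H37.CD
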