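import Pool.Agent.H37.CD.Univ
import Pool.Agent.H37.CD.Coeff

/-!
# helper37, CD, module STATES: legal state systems give M-acyclic sets

The M-system is diagonal: `U = K^S`, `p v` is the projection on the states in which `v` is on, and
`e v 0 1`, `e v 1 0` are given by the move `T v`. The complex of `A` is the direct sum over the states `s`
of the complexes with constant coefficients of `A ∩ st s`.
-/

namespace Pool.Agent.H37.CD

open Finset

variable {V : Type} [Fintype V] [DecidableEq V]
variable {K : Type} [Field K]

/-- an M-system which is only defined on `A` can be extended -/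
theorem acy_of_on [CharP K 2] {G : SimpleGraph V} {A : Finset V} {ι : Type} [Fintype ι]
    [DecidableEq ι] [Nonempty ι] {e : V → Fin 2 → Fin 2 → Matrix ι ι K}
    (hmu : ∀ v ∈ A, MU (e v))
    (hcomm : ∀ v ∈ A, ∀ w ∈ A, G.Adj v w → ∀ i j k l, e v i j * e w k l = e w k l * e v i j)
    (hex : ExM G e A) : Acy K G A := by
  have hL : ∀ v ∈ A, MU (inL (V → Fin 2) e v) := by
    intro v hv
    have h := hmu v hv
    exact ⟨fun i j k l => by
      unfold inL
      rw [inL_mul, h.mul]
      split_ifs
      · rfl
      · exact Matrix.zero_kronecker _, by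
      unfold inL
      rw [← Matrix.add_kronecker, h.one, Matrix.one_kronecker_one]⟩
  have hLc : ∀ v ∈ A, ∀ w ∈ A, G.Adj v w → ∀ i j k l,
      inL (V → Fin 2) e v i j * inL (V → Fin 2) e w k l =
        inL (V → Fin 2) e w k l * inL (V → Fin 2) e v i j := by
    intro v hv w hw hvw i j k l
    unfold inL
    rw [inL_mul, inL_mul, hcomm v hv w hw hvw]
  have hR : MSys (⊤ : SimpleGraph V) (inR ι (site (V := V) K)) := inR_msys (site_msys _)
  refine ⟨ι × (V → Fin 2), inferInstance, inferInstance, inferInstance,
    fun x => if x ∈ A then inL (V → Fin 2) e x else inR ι (site K) x, ⟨?_, ?_⟩, ?_⟩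
  · intro x
    by_cases hx : x ∈ A
    · simp only [hx, if_true]; exact hL x hx
    · simp only [hx, if_false]; exact hR.mu x
  · intro x y hxy i j k l
    by_cases hx : x ∈ A
    · by_cases hy : y ∈ A
      · simp only [hx, hy, if_true]
        exact hLc x hx y hy hxy i j k l
      · simp only [hx, hy, if_true, if_false]
        exact inL_inR_commU e (site K) x y i j k l
    · by_cases hy : y ∈ A
      · simp only [hx, hy, if_true, if_false]
        exact (inL_inR_commU e (site K) y x k l i j).symm
      · simp only [hx, hy, if_false]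
        exact hR.comm x y hxy.ne i j k l
  · have h1 : ExM G (inL (V → Fin 2) e) A := left_ex hex
    unfold ExM at h1 ⊢
    have h2 : cell G (proj (inL (V → Fin 2) e)) A
        = cell G (proj fun x => if x ∈ A then inL (V → Fin 2) e x else inR ι (site K) x) A := by
      funext σ
      refine cell_congr (fun _ _ _ _ => Iff.rfl) (fun x hx => ?_) σ
      simp only [proj, hx, if_true]
    rwa [← h2]

/-- status of `v` in the state `s` -/
def chi {S : Type} (st : S → Finset V) (v : V) (s : S) : Fin 2 := if v ∈ st s then 1 else 0

/-- the operators of the diagonal M-system -/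
def stL (K : Type) [Field K] {S : Type} (st : S → Finset V) (T : V → S → S) (v : V)
    (i j : Fin 2) : (S → K) →ₗ[K] (S → K) where
  toFun f s := if chi st v s = i then f (if i = j then s else T v s) else 0
  map_add' f g := by
    ext s
    by_cases h : chi st v s = i <;> simp [h]
  map_smul' c f := by
    ext s
    by_cases h : chi st v s = i <;> simp [h]

theorem stL_apply {S : Type} (st : S → Finset V) (T : V → S → S) (v : V) (i j : Fin 2)
    (f : S → K) (s : S) :
    stL K st T v i j f s = if chi st v s = i then f (if i = j then s else T v s) else 0 := rfl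

theorem stL_diag {S : Type} (st : S → Finset V) (T : V → S → S) (v : V) (i : Fin 2)
    (f : S → K) (s : S) :
    stL K st T v i i f s = if chi st v s = i then f s else 0 := by
  rw [stL_apply]; simp

/-- its matrix -/
def stE (K : Type) [Field K] {S : Type} [Fintype S] [DecidableEq S] (st : S → Finset V)
    (T : V → S → S) (v : V) (i j : Fin 2) : Matrix S S K := LinearMap.toMatrix' (stL K st T v i j)

theorem fin2_ne {i j : Fin 2} (h : i ≠ j) {k : Fin 2} (hk : k ≠ i) : k = j := by
  fin_cases i <;> fin_cases j <;> fin_cases k <;> simp_all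

theorem chi_flip {G : SimpleGraph V} {A : Finset V} {S : Type} {st : S → Finset V}
    {T : V → S → S} (h : Legal G A st T) {v : V} (hv : v ∈ A) (s : S) :
    chi st v (T v s) ≠ chi st v s := by
  have h1 := h.flip v hv s
  unfold chi
  by_cases h2 : v ∈ st s
  · have h3 : v ∉ st (T v s) := fun h4 => (h1.1 h4) h2
    rw [if_pos h2, if_neg h3]
    decide
  · have h3 : v ∈ st (T v s) := h1.2 h2
    rw [if_neg h2, if_pos h3]
    decide

theorem chi_keep {G : SimpleGraph V} {A : Finset V} {S : Type} {st : S → Finset V}
    {T : V → S → S} (h : Legal G A st T) {v w : V} (hv : v ∈ A) (hw : w ∈ A) (hvw : G.Adj v w)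
    (s : S) : chi st w (T v s) = chi st w s := by
  have h1 := h.keep v hv w hw hvw s
  unfold chi
  by_cases h2 : w ∈ st s
  · rw [if_pos h2, if_pos (h1.2 h2)]
  · rw [if_neg h2, if_neg (fun h3 => h2 (h1.1 h3))]

theorem stL_comp {G : SimpleGraph V} {A : Finset V} {S : Type} {st : S → Finset V}
    {T : V → S → S} (h : Legal G A st T) {v : V} (hv : v ∈ A) (i j k l : Fin 2) :
    stL K st T v i j ∘ₗ stL K st T v k l = if j = k then stL K st T v i l else 0 := by
  refine LinearMap.ext (fun f => funext (fun s => ?_))
  rw [LinearMap.comp_apply, stL_apply]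
  by_cases h1 : chi st v s = i
  · rw [if_pos h1, stL_apply]
    have h2 : chi st v (if i = j then s else T v s) = j := by
      by_cases hij : i = j
      · rw [if_pos hij, h1, hij]
      · rw [if_neg hij]
        exact fin2_ne hij (by rw [← h1]; exact chi_flip h hv s)
    rw [h2]
    by_cases h3 : j = k
    · rw [if_pos h3, if_pos h3, stL_apply, if_pos h1]
      congr 1
      subst h3
      by_cases hij : i = j
      · subst hij
        simp
      · by_cases hjl : j = l
        · subst hjl
          simp [hij]
        · have hil : i = l := fin2_ne hjl hij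
          subst hil
          rw [if_neg hij, if_neg hjl, if_pos rfl, h.invol v hv]
    · rw [if_neg h3, if_neg h3]
      rfl
  · rw [if_neg h1]
    by_cases h3 : j = k
    · rw [if_pos h3, stL_apply, if_neg h1]
    · rw [if_neg h3]; rfl

theorem stL_one {S : Type} (st : S → Finset V) (T : V → S → S) (v : V) :
    stL K st T v 0 0 + stL K st T v 1 1 = 1 := by
  refine LinearMap.ext (fun f => funext (fun s => ?_))
  rw [LinearMap.add_apply, Pi.add_apply, stL_diag, stL_diag]
  have : chi st v s = 0 ∨ chi st v s = 1 := by
    unfold chi; split_ifs <;> simp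
  rcases this with h | h
  · simp [h]
  · simp [h]

theorem stL_comm {G : SimpleGraph V} {A : Finset V} {S : Type} {st : S → Finset V}
    {T : V → S → S} (h : Legal G A st T) {v w : V} (hv : v ∈ A) (hw : w ∈ A) (hvw : G.Adj v w)
    (i j k l : Fin 2) :
    stL K st T v i j ∘ₗ stL K st T w k l = stL K st T w k l ∘ₗ stL K st T v i j := by
  refine LinearMap.ext (fun f => funext (fun s => ?_))
  rw [LinearMap.comp_apply, LinearMap.comp_apply, stL_apply, stL_apply, stL_apply, stL_apply]
  have h1 : chi st w (if i = j then s else T v s) = chi st w s := by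
    split_ifs
    · rfl
    · exact chi_keep h hv hw hvw s
  have h2 : chi st v (if k = l then s else T w s) = chi st v s := by
    split_ifs
    · rfl
    · exact chi_keep h hw hv hvw.symm s
  rw [h1, h2]
  have h3 : (if k = l then (if i = j then s else T v s) else T w (if i = j then s else T v s)) =
      (if i = j then (if k = l then s else T w s) else T v (if k = l then s else T w s)) := by
    by_cases hij : i = j
    · simp [hij]
    · by_cases hkl : k = l
      · simp [hij, hkl]
      · simp only [hij, hkl, if_false]
        exact h.comm w hw v hv hvw.symm s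
  rw [h3]
  by_cases h4 : chi st v s = i
  · by_cases h5 : chi st w s = k
    · simp [h4, h5]
    · simp [h4, h5]
  · by_cases h5 : chi st w s = k
    · simp [h4, h5]
    · simp [h4, h5]

theorem acy_states [CharP K 2] {G : SimpleGraph V} {A : Finset V} {S : Type} [Fintype S]
    [Nonempty S] {st : S → Finset V} {T : V → S → S} (h : Legal G A st T) : Acy K G A := by
  classical
  refine acy_of_on (e := stE K st T) (fun v hv => ⟨fun i j k l => ?_, ?_⟩)
    (fun v hv w hw hvw i j k l => ?_) ?_
  · unfold stE
    rw [← LinearMap.toMatrix'_comp, stL_comp h hv]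
    split_ifs
    · rfl
    · exact map_zero _
  · unfold stE
    rw [← map_add, stL_one]
    exact LinearMap.toMatrix'_one
  · unfold stE
    rw [← LinearMap.toMatrix'_comp, ← LinearMap.toMatrix'_comp, stL_comm h hv hw hvw]
  · intro f hf hb
    have hproj : ∀ v (x : S → K), proj (stE K st T) v x = stL K st T v 1 1 x := by
      intro v x
      unfold proj stE
      rw [Matrix.toLin'_toMatrix']
    have hfs : ∀ σ s, f σ s ≠ 0 → σ ⊆ A ∩ st s ∧ G.IsClique (σ : Set V) := by
      intro σ s hs
      have h0 : f σ ≠ 0 := fun h => hs (by rw [h]; rfl)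
      have h1 := (hf σ).1 h0
      refine ⟨fun v hv => mem_inter.2 ⟨h1.1 hv, ?_⟩, h1.2⟩
      have h2 := (hf σ).2 v hv
      rw [hproj] at h2
      have h3 := congrFun h2 s
      rw [stL_apply] at h3
      by_contra h4
      rw [if_neg] at h3
      · exact hs h3.symm
      · unfold chi; rw [if_neg h4]; decide
    have key : ∀ s, ∃ k : Finset V → K,
        (∀ σ, k σ ∈ cell G (fun _ => (1 : Module.End K K)) (A ∩ st s) σ) ∧
          ∀ τ, bd k τ = f τ s := by
      intro s
      refine coeff (h.acyc s) (fun σ => f σ s) (fun σ => ⟨fun h0 => hfs σ s h0, fun v _ => rfl⟩)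
        (fun τ => ?_)
      have := congrFun (hb τ) s
      unfold bd at this ⊢
      rw [Finset.sum_apply] at this
      exact this
    choose k hk1 hk2 using key
    refine ⟨fun σ s => k s σ, fun σ => ⟨fun h0 => ?_, fun v hv => ?_⟩, fun τ => ?_⟩
    · obtain ⟨s, hs⟩ := Function.ne_iff.1 h0
      have := (hk1 s σ).1 hs
      exact ⟨this.1.trans inter_subset_left, this.2⟩
    · rw [hproj]
      funext s
      rw [stL_diag]
      by_cases h0 : k s σ = 0
      · split_ifs
        · rfl
        · exact h0.symm
      · have := ((hk1 s σ).1 h0).1 hv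
        rw [if_pos (by unfold chi; rw [if_pos (mem_inter.1 this).2])]
    · funext s
      rw [← hk2 s τ]
      unfold bd
      rw [Finset.sum_apply]

end Pool.Agent.H37.CD
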