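import Pool.Agent.H37.CD.Rules

/-!
# helper37, CD, module UNION: Mayer-Vietoris

`Sep G A B`: no edge joins `A \ B` to `B \ A`, so a clique contained in `A ∪ B` is contained in `A` or
in `B`. Cells of a subset are contained in the cells of the whole set, and a chain of `A ∪ B` which
vanishes off the subsets of `A` is a chain of `A`. For a chain `f` of `A ∪ B` put
`f1 σ = if σ ⊆ A then f σ else 0` (a chain of `A`) and `f2 = f + f1` (i.e. `f - f1`, a chain of `B`).
A chain of `A` which is also a chain of `B` is a chain of `A ∩ B`.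

`unionA`: `f` a cycle of `A ∪ B`: `bd f1 = bd f2` is a chain of `A` and of `B`, a cycle, so
`bd f1 = bd k`, `k` a chain of `A ∩ B` ; `f1 + k` is a cycle of `A`, `= bd a`; `f2 + k` is a cycle of
`B`, `= bd b`; `f = bd (a + b)`.
`unionB`: `f` a cycle of `A`: `f = bd h` with `h` a chain of `A ∪ B`, `h = h1 + h2` as above;
`bd h2 = f + bd h1` is a chain of `A` and of `B`, a cycle, so `bd h2 = bd k`, `k` a chain of `A ∩ B`,
and `f = bd (h1 + k)`.
`unionC`: `f` a cycle of `A ∩ B`: `f = bd a = bd b`, `a + b` is a cycle of `A ∪ B`, `= bd g`,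
`g = g1 + g2`; then `a + bd g1 = b + bd g2` (char 2) is a chain of `A` and of `B`, so of `A ∩ B`, with
boundary `f`.
(File Bd: `bd_add`, `bd_bd (two_eq K)`, `bd_mem`, `cell_anti`, `two_eq`.)
-/

namespace Pool.Agent.H37.CD

open Finset

variable {V : Type} [Fintype V] [DecidableEq V]
variable {K : Type} [Field K] [CharP K 2] {U : Type*} [AddCommGroup U] [Module K U]

theorem sep_clique {G : SimpleGraph V} {A B : Finset V} (hs : Sep G A B) {σ : Finset V}
    (h : σ ⊆ A ∪ B) (hc : G.IsClique (σ : Set V)) : σ ⊆ A ∨ σ ⊆ B := by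
  by_contra hh
  push Not at hh
  obtain ⟨h1, h2⟩ := hh
  obtain ⟨x, hx, hxA⟩ := not_subset.1 h1
  obtain ⟨y, hy, hyB⟩ := not_subset.1 h2
  have hxB : x ∈ B := (mem_union.1 (h hx)).resolve_left hxA
  have hyA : y ∈ A := (mem_union.1 (h hy)).resolve_right hyB
  exact hs y hyA hyB x hxB hxA (hc hy hx (fun h => hxA (h ▸ hyA)))

theorem mem_inter_cell {G : SimpleGraph V} {p : V → Module.End K U} {A B σ : Finset V} {u : U}
    (h1 : u ∈ cell G p A σ) (h2 : u ∈ cell G p B σ) : u ∈ cell G p (A ∩ B) σ :=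
  ⟨fun h => ⟨subset_inter (h1.1 h).1 (h2.1 h).1, (h1.1 h).2⟩, h1.2⟩

/-- splitting a chain of the union -/
theorem sep_split {G : SimpleGraph V} {p : V → Module.End K U} {A B : Finset V} (hs : Sep G A B)
    {f : Finset V → U} (hf : ∀ σ, f σ ∈ cell G p (A ∪ B) σ) :
    ∃ f1 f2 : Finset V → U, (∀ σ, f1 σ ∈ cell G p A σ) ∧ (∀ σ, f2 σ ∈ cell G p B σ) ∧
      ∀ σ, f σ = f1 σ + f2 σ := by
  classical
  refine ⟨fun σ => if σ ⊆ A then f σ else 0, fun σ => if σ ⊆ A then 0 else f σ, fun σ => ?_,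
    fun σ => ?_, fun σ => ?_⟩
  · beta_reduce
    split_ifs with h
    · exact ⟨fun h0 => ⟨h, ((hf σ).1 h0).2⟩, (hf σ).2⟩
    · exact zero_mem _
  · beta_reduce
    split_ifs with h
    · exact zero_mem _
    · refine ⟨fun h0 => ⟨?_, ((hf σ).1 h0).2⟩, (hf σ).2⟩
      exact (sep_clique hs ((hf σ).1 h0).1 ((hf σ).1 h0).2).resolve_left h
  · beta_reduce
    split_ifs
    · rw [add_zero]
    · rw [zero_add]

theorem cell_down (G : SimpleGraph V) (p : V → Module.End K U) (A : Finset V) :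
    ∀ σ τ, σ ⊆ τ → cell G p A τ ≤ cell G p A σ := fun _ _ h => cell_anti G p A h

theorem unionA {G : SimpleGraph V} {p : V → Module.End K U} {A B : Finset V} (hs : Sep G A B)
    (hA : Ex (cell G p A)) (hB : Ex (cell G p B)) (hI : Ex (cell G p (A ∩ B))) :
    Ex (cell G p (A ∪ B)) := by
  intro f hf hb
  obtain ⟨f1, f2, h1, h2, h3⟩ := sep_split hs hf
  have e : ∀ τ, bd f1 τ = bd f2 τ := by
    intro τ
    refine eq_of_add_eq_zero K ?_
    rw [← bd_add, ← bd_congr h3, hb]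
  obtain ⟨k, hk1, hk2⟩ := hI (bd f1) (fun σ => mem_inter_cell (bd_mem (cell_down G p A) h1 σ)
    (by rw [e]; exact bd_mem (cell_down G p B) h2 σ)) (bd_bd (two_eq K) f1)
  obtain ⟨a, ha1, ha2⟩ := hA (fun σ => f1 σ + k σ)
    (fun σ => add_mem (h1 σ) (cell_mono G p inter_subset_left σ (hk1 σ)))
    (fun τ => by rw [bd_add, hk2, two_eq K])
  obtain ⟨b, hb1, hb2⟩ := hB (fun σ => f2 σ + k σ)
    (fun σ => add_mem (h2 σ) (cell_mono G p inter_subset_right σ (hk1 σ)))
    (fun τ => by rw [bd_add, hk2, e, two_eq K])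
  refine ⟨fun σ => a σ + b σ, fun σ => add_mem (cell_mono G p subset_union_left σ (ha1 σ))
    (cell_mono G p subset_union_right σ (hb1 σ)), fun τ => ?_⟩
  rw [bd_add, ha2, hb2, h3, add_add_add_comm, two_eq K, add_zero]

theorem unionB {G : SimpleGraph V} {p : V → Module.End K U} {A B : Finset V} (hs : Sep G A B)
    (hU : Ex (cell G p (A ∪ B))) (hI : Ex (cell G p (A ∩ B))) : Ex (cell G p A) := by
  intro f hf hb
  obtain ⟨h, hh1, hh2⟩ := hU f (fun σ => cell_mono G p subset_union_left σ (hf σ)) hb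
  obtain ⟨f1, f2, h1, h2, h3⟩ := sep_split hs hh1
  have e : ∀ τ, bd f2 τ = f τ + bd f1 τ := by
    intro τ
    rw [← hh2, bd_congr h3, bd_add, add_comm (bd f1 τ), add_assoc, two_eq K, add_zero]
  obtain ⟨k, hk1, hk2⟩ := hI (bd f2) (fun σ => mem_inter_cell (by
    rw [e]; exact add_mem (hf σ) (bd_mem (cell_down G p A) h1 σ))
    (bd_mem (cell_down G p B) h2 σ)) (bd_bd (two_eq K) f2)
  refine ⟨fun σ => f1 σ + k σ, fun σ => add_mem (h1 σ)
    (cell_mono G p inter_subset_left σ (hk1 σ)), fun τ => ?_⟩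
  rw [bd_add, hk2, ← bd_add, ← bd_congr h3, hh2]

theorem unionC {G : SimpleGraph V} {p : V → Module.End K U} {A B : Finset V} (hs : Sep G A B)
    (hA : Ex (cell G p A)) (hB : Ex (cell G p B)) (hU : Ex (cell G p (A ∪ B))) :
    Ex (cell G p (A ∩ B)) := by
  intro f hf hb
  obtain ⟨a, ha1, ha2⟩ := hA f (fun σ => cell_mono G p inter_subset_left σ (hf σ)) hb
  obtain ⟨b, hb1, hb2⟩ := hB f (fun σ => cell_mono G p inter_subset_right σ (hf σ)) hb
  obtain ⟨g, hg1, hg2⟩ := hU (fun σ => a σ + b σ)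
    (fun σ => add_mem (cell_mono G p subset_union_left σ (ha1 σ))
      (cell_mono G p subset_union_right σ (hb1 σ)))
    (fun τ => by rw [bd_add, ha2, hb2, two_eq K])
  obtain ⟨g1, g2, h1, h2, h3⟩ := sep_split hs hg1
  have e : ∀ τ, a τ + bd g1 τ = b τ + bd g2 τ := by
    intro τ
    refine eq_of_add_eq_zero K ?_
    have := hg2 τ
    rw [bd_congr h3, bd_add] at this
    rw [add_add_add_comm, this, two_eq K]
  refine ⟨fun σ => a σ + bd g1 σ, fun σ => mem_inter_cell
    (add_mem (ha1 σ) (bd_mem (cell_down G p A) h1 σ))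
    (by change a σ + bd g1 σ ∈ _
        rw [e]; exact add_mem (hb1 σ) (bd_mem (cell_down G p B) h2 σ)), fun τ => ?_⟩
  rw [bd_add a (bd g1), ha2, bd_bd (two_eq K), add_zero]

end Pool.Agent.H37.CD
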