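import Pool.Agent.H37.CD.Bd

/-!
# helper37, CD, module SITES: the M-system of independent sites; suspensions

Index type `V → Fin 2`. `siteL x i j f α = if α x = i then f (Function.update α x j) else 0` (a linear map on
`(V → Fin 2) → K`), `site x i j` its matrix (`LinearMap.toMatrix'`).
`site_mu`: `siteL x i j ∘ siteL x k l = [j = k] siteL x i l` (`Function.update_idem`) and
`siteL x 0 0 + siteL x 1 1 = 1` (`Function.update_eq_self`). `site_comm`: for `x ≠ y`
(`Function.update_comm`). Transfer to matrices with `LinearMap.toMatrix'_mul` / `toMatrix'_comp`,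
injectivity of `toMatrix'`.

`acy_susp`. `A = {a, v} * B`. M-system: `e x = site x` for `x ≠ v`, `e v i j = site a (1 - i) (1 - j)`
(matrix units again: `MU` is stable under exchanging `0` and `1`); the only pair of different vertices using the
same site is `a, v`, which is not adjacent. So `p v = 1 - p a = 1 + p a` and `p v * p a = 0`.
Exactness: let `f` be a cycle of `A`. `f0 σ = if a ∈ σ ∨ v ∈ σ then 0 else f σ`. Put
`h = kap a (p a ∘ f0) + kap v (p v ∘ f0)` (`kap v k σ = k (σ.erase v)` if `v ∈ σ`, else `0`). It is a chain of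
`A`: for a clique `σ ⊆ A` without `a`, `v`, `insert a σ` and `insert v σ` are cliques, `p a` and `p v` are
idempotent and commute with `p w`, `w ∈ σ`. `bd h = f`: let `a, v ∉ τ`.
At `τ`: `p a (f0 τ) + p v (f0 τ) = f0 τ = f τ`. At `insert a τ`: `bd (p a ∘ f0) τ + (term of kap v: 0 as f0
vanishes on sets containing a) = p a (∑_{w ≠ a, v} f (insert w τ))`, and `bd f τ = 0` says that the sum is
`f (insert a τ) + f (insert v τ)`; `p a (f (insert a τ)) = f (insert a τ)` and
`p a (f (insert v τ)) = p a (p v _) = 0`. Same for `insert v τ`. At sets containing `a` and `v`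
both sides are `0` (`f` vanishes there because `a`, `v` are not adjacent).
-/

namespace Pool.Agent.H37.CD

open Finset

variable {V : Type} [Fintype V] [DecidableEq V]
variable {K : Type} [Field K]

/-- the operator `e_x^{ij}` on functions on `V → Fin 2` -/
def siteL (K : Type) [Field K] (x : V) (i j : Fin 2) :
    ((V → Fin 2) → K) →ₗ[K] ((V → Fin 2) → K) where
  toFun f α := if α x = i then f (Function.update α x j) else 0
  map_add' f g := by
    ext α
    by_cases h : α x = i <;> simp [h]
  map_smul' c f := by
    ext α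
    by_cases h : α x = i <;> simp [h]

/-- its matrix -/
def site (K : Type) [Field K] (x : V) (i j : Fin 2) : Matrix (V → Fin 2) (V → Fin 2) K :=
  LinearMap.toMatrix' (siteL K x i j)

theorem siteL_apply (x : V) (i j : Fin 2) (f : (V → Fin 2) → K) (α : V → Fin 2) :
    siteL K x i j f α = if α x = i then f (Function.update α x j) else 0 := rfl

theorem siteL_comp (x : V) (i j k l : Fin 2) :
    siteL K x i j ∘ₗ siteL K x k l = if j = k then siteL K x i l else 0 := by
  ext1 f
  ext1
  ext α
  by_cases h : j = k
  · subst h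
    simp [siteL_apply]
  · simp [siteL_apply, h]

theorem siteL_comm {x y : V} (h : x ≠ y) (i j k l : Fin 2) :
    siteL K x i j ∘ₗ siteL K y k l = siteL K y k l ∘ₗ siteL K x i j := by
  refine LinearMap.ext fun f => funext fun α => ?_
  simp only [LinearMap.comp_apply, siteL_apply, Function.update_of_ne h, Function.update_of_ne h.symm,
    Function.update_comm h]
  by_cases h1 : α x = i <;> by_cases h2 : α y = k <;> simp [h1, h2]

theorem siteL_one (x : V) : siteL K x 0 0 + siteL K x 1 1 = 1 := by
  refine LinearMap.ext fun f => funext fun α => ?_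
  simp only [LinearMap.add_apply, Pi.add_apply, siteL_apply, Module.End.one_apply]
  have h : α x = 0 ∨ α x = 1 := by
    generalize α x = z
    fin_cases z <;> simp
  rcases h with h | h
  · have h1 : Function.update α x 0 = α := by rw [← h, Function.update_eq_self]
    simp [h, h1]
  · have h1 : Function.update α x 1 = α := by rw [← h, Function.update_eq_self]
    simp [h, h1]

theorem site_mu (x : V) : MU (site K x) := by
  refine ⟨fun i j k l => ?_, ?_⟩
  · unfold site
    rw [← LinearMap.toMatrix'_comp, siteL_comp]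
    split_ifs
    · rfl
    · exact map_zero _
  · unfold site
    rw [← map_add, siteL_one]
    exact LinearMap.toMatrix'_one

theorem site_comm {x y : V} (h : x ≠ y) (i j k l : Fin 2) :
    site K x i j * site K y k l = site K y k l * site K x i j := by
  unfold site
  rw [← LinearMap.toMatrix'_comp, ← LinearMap.toMatrix'_comp, siteL_comm h]

theorem site_msys (G : SimpleGraph V) : MSys G (site (V := V) K) :=
  ⟨site_mu, fun _ _ h => site_comm h.ne⟩

/-- the part of a chain away from `a` and `v` -/
def cut2 {U : Type*} [AddCommGroup U] (a v : V) (f : Finset V → U) (σ : Finset V) : U :=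
  if a ∈ σ then 0 else if v ∈ σ then 0 else f σ

omit [Fintype V] in
theorem cut2_comm {U : Type*} [AddCommGroup U] (a v : V) (f : Finset V → U) :
    cut2 a v f = cut2 v a f := by
  funext σ
  unfold cut2
  by_cases h1 : a ∈ σ <;> by_cases h2 : v ∈ σ <;> simp [h1, h2]

section Susp

variable {U : Type*} [AddCommGroup U] [Module K U] {G : SimpleGraph V}
  {p : V → Module.End K U} {A : Finset V} {a v : V} {f : Finset V → U}

omit [Fintype V] in
theorem susp_cell (hidem : ∀ x u, p x (p x u) = p x u)
    (hcomm : ∀ x y, G.Adj x y → ∀ u, p x (p y u) = p y (p x u)) (ha : a ∈ A)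
    (hav : a ≠ v) (hB : ∀ x ∈ A, x ≠ a → x ≠ v → G.Adj a x)
    (hf : ∀ σ, f σ ∈ cell G p A σ) (σ : Finset V) :
    kap a (fun s => p a (cut2 a v f s)) σ ∈ cell G p A σ := by
  unfold kap
  by_cases haσ : a ∈ σ
  · rw [if_pos haσ]
    change p a (cut2 a v f (σ.erase a)) ∈ cell G p A σ
    have e1 : cut2 a v f (σ.erase a) = if v ∈ σ then 0 else f (σ.erase a) := by
      unfold cut2
      rw [if_neg (by simp)]
      have : v ∈ σ.erase a ↔ v ∈ σ := by simp [hav.symm]
      simp [this]
    by_cases hvσ : v ∈ σ
    · rw [e1, if_pos hvσ, map_zero]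
      exact zero_mem _
    · rw [e1, if_neg hvσ]
      by_cases h0 : f (σ.erase a) = 0
      · rw [h0, map_zero]
        exact zero_mem _
      · obtain ⟨h1, h2⟩ := hf (σ.erase a)
        obtain ⟨h3, h4⟩ := h1 h0
        have hadj : ∀ x ∈ σ, x ≠ a → G.Adj a x := fun x hx hxa =>
          hB x (h3 (mem_erase.2 ⟨hxa, hx⟩)) hxa (fun h => hvσ (h ▸ hx))
        refine ⟨fun _ => ⟨?_, ?_⟩, ?_⟩
        · intro x hx
          by_cases hxa : x = a
          · exact hxa ▸ ha
          · exact h3 (mem_erase.2 ⟨hxa, hx⟩)
        · intro x hx y hy hxy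
          by_cases hxa : x = a
          · subst hxa
            exact hadj y hy hxy.symm
          · by_cases hya : y = a
            · subst hya
              exact (hadj x hx hxy).symm
            · refine h4 ?_ ?_ hxy
              · exact_mod_cast mem_erase.2 ⟨hxa, hx⟩
              · exact_mod_cast mem_erase.2 ⟨hya, hy⟩
        · intro x hx
          by_cases hxa : x = a
          · subst hxa
            exact hidem x _
          · rw [hcomm x a (hadj x hx hxa).symm, h2 x (mem_erase.2 ⟨hxa, hx⟩)]
  · rw [if_neg haσ]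
    exact zero_mem _

theorem susp_bd (h2 : ∀ x : U, x + x = 0) (hav : a ≠ v)
    (hp : ∀ u, p a (p v u) = 0) (hf : ∀ σ, f σ ∈ cell G p A σ) (hb : ∀ τ, bd f τ = 0)
    (τ : Finset V) :
    bd (kap a (fun s => p a (cut2 a v f s))) τ =
      if a ∈ τ then (if v ∈ τ then 0 else f τ) else p a (cut2 a v f τ) := by
  by_cases haτ : a ∈ τ
  · rw [if_pos haτ, bd_kap_of_mem haτ _ (fun σ hσ => by simp [cut2, hσ])]
    rw [show bd (fun s => p a (cut2 a v f s)) (τ.erase a) = p a (bd (cut2 a v f) (τ.erase a)) from
      bd_mapl (p a) (cut2 a v f) _]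
    by_cases hvτ : v ∈ τ
    · rw [if_pos hvτ]
      have e : bd (cut2 a v f) (τ.erase a) = 0 := by
        unfold bd
        refine sum_eq_zero fun w _ => ?_
        unfold cut2
        have : v ∈ insert w (τ.erase a) := mem_insert_of_mem (mem_erase.2 ⟨hav.symm, hvτ⟩)
        simp [this]
      rw [e, map_zero]
    · rw [if_neg hvτ]
      have hins : insert a (τ.erase a) = τ := insert_erase haτ
      set ρ := τ.erase a with hρ
      have haρ : a ∉ ρ := by simp [hρ]
      have hvρ : v ∉ ρ := fun h => hvτ (mem_of_mem_erase h)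
      have e1 : bd f ρ = bd (cut2 a v f) ρ + (f (insert a ρ) + f (insert v ρ)) := by
        have e2 : ∀ g : V → U, ∑ w ∈ ρᶜ, g w = ∑ w ∈ (ρᶜ.erase a).erase v, g w + (g a + g v) := by
          intro g
          rw [← add_sum_erase (ρᶜ) g (mem_compl.2 haρ),
            ← add_sum_erase (ρᶜ.erase a) g (mem_erase.2 ⟨hav.symm, mem_compl.2 hvρ⟩)]
          abel
        unfold bd
        rw [e2 (fun w => f (insert w ρ)), e2 (fun w => cut2 a v f (insert w ρ))]
        have e3 : cut2 a v f (insert a ρ) = 0 := by simp [cut2]
        have e4 : cut2 a v f (insert v ρ) = 0 := by simp [cut2]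
        rw [e3, e4, add_zero, add_zero]
        congr 1
        refine sum_congr rfl fun w hw => ?_
        simp only [mem_erase, mem_compl] at hw
        unfold cut2
        rw [if_neg, if_neg]
        · simp only [mem_insert, not_or]
          exact ⟨fun h => hw.1 h.symm, hvρ⟩
        · simp only [mem_insert, not_or]
          exact ⟨fun h => hw.2.1 h.symm, haρ⟩
      have e5 : bd (cut2 a v f) ρ = f (insert a ρ) + f (insert v ρ) := by
        rw [hb] at e1
        have e6 := h2 (f (insert a ρ) + f (insert v ρ))
        have e7 : bd (cut2 a v f) ρ + (f (insert a ρ) + f (insert v ρ)) =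
          (f (insert a ρ) + f (insert v ρ)) + (f (insert a ρ) + f (insert v ρ)) := by
          rw [← e1, e6]
        exact add_right_cancel e7
      rw [e5, map_add, (hf (insert a ρ)).2 a (mem_insert_self _ _),
        ← (hf (insert v ρ)).2 v (mem_insert_self _ _), hp, add_zero, hins]
  · rw [if_neg haτ, bd_kap_of_notMem haτ]

/-- abstract form of the exactness for suspensions -/
theorem susp_ex (h2 : ∀ x : U, x + x = 0) (hidem : ∀ x u, p x (p x u) = p x u)
    (hcomm : ∀ x y, G.Adj x y → ∀ u, p x (p y u) = p y (p x u)) (ha : a ∈ A) (hv : v ∈ A)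
    (hav : a ≠ v) (hn : ¬ G.Adj a v)
    (hB : ∀ x ∈ A, x ≠ a → x ≠ v → G.Adj a x ∧ G.Adj v x)
    (hp1 : ∀ u, p a (p v u) = 0) (hp2 : ∀ u, p v (p a u) = 0)
    (hp3 : ∀ u, p a u + p v u = u) : Ex (cell G p A) := by
  intro f hf hb
  refine ⟨fun σ => kap a (fun s => p a (cut2 a v f s)) σ + kap v (fun s => p v (cut2 v a f s)) σ,
    fun σ => add_mem (susp_cell hidem hcomm ha hav (fun x hx h1 h3 => (hB x hx h1 h3).1) hf σ)
      (susp_cell hidem hcomm hv hav.symm (fun x hx h1 h3 => (hB x hx h3 h1).2) hf σ), fun τ => ?_⟩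
  rw [bd_add, susp_bd h2 hav hp1 hf hb, susp_bd h2 hav.symm hp2 hf hb]
  by_cases h3 : a ∈ τ <;> by_cases h4 : v ∈ τ
  · have h5 : f τ = 0 := by
      by_contra h
      exact hn (((hf τ).1 h).2 (by exact_mod_cast h3) (by exact_mod_cast h4) hav)
    simp [h3, h4, h5]
  · simp [h3, h4, cut2]
  · simp [h3, h4, cut2]
  · simp [h3, h4, cut2, hp3]

end Susp

/-- matrix units for the suspension -/
def suspE (K : Type) [Field K] (a v : V) (x : V) (i j : Fin 2) :
    Matrix (V → Fin 2) (V → Fin 2) K :=
  if x = v then site K a (1 - i) (1 - j) else site K x i j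

theorem suspE_msys {G : SimpleGraph V} {a v : V} (hn : ¬ G.Adj a v) :
    MSys G (suspE K a v) := by
  refine ⟨fun x => ?_, fun x y h i j k l => ?_⟩
  · by_cases hx : x = v
    · refine ⟨fun i j k l => ?_, ?_⟩
      · simp only [suspE, hx, if_true]
        rw [(site_mu a).mul]
        have : (1 - j = 1 - k) ↔ (j = k) := by
          fin_cases j <;> fin_cases k <;> simp
        simp [this]
      · simp only [suspE, hx, if_true]
        have := (site_mu (K := K) a).one
        rw [add_comm] at this
        simpa using this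
    · refine ⟨fun i j k l => ?_, ?_⟩
      · simp only [suspE, hx, if_false]
        exact (site_mu x).mul i j k l
      · simp only [suspE, hx, if_false]
        exact (site_mu x).one
  · unfold suspE
    by_cases hx : x = v
    · have hy : y ≠ v := fun hy => h.ne (hx.trans hy.symm)
      have hay : a ≠ y := by
        rintro rfl
        exact hn (hx ▸ h.symm)
      rw [if_pos hx, if_neg hy, site_comm hay]
    · rw [if_neg hx]
      by_cases hy : y = v
      · have hax : a ≠ x := by
          rintro rfl
          exact hn (hy ▸ h)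
        rw [if_pos hy, site_comm hax.symm]
      · rw [if_neg hy, site_comm h.ne]

theorem acy_susp [CharP K 2] {G : SimpleGraph V} {A : Finset V} {a v : V} (ha : a ∈ A)
    (hv : v ∈ A) (hav : a ≠ v) (hn : ¬ G.Adj a v)
    (hB : ∀ x ∈ A, x ≠ a → x ≠ v → G.Adj a x ∧ G.Adj v x) : Acy K G A := by
  have hM : MSys G (suspE K a v) := suspE_msys hn
  refine ⟨V → Fin 2, inferInstance, inferInstance, inferInstance, suspE K a v, hM, ?_⟩
  have hmul : ∀ (M N : Matrix (V → Fin 2) (V → Fin 2) K) (u : (V → Fin 2) → K),
      Matrix.toLin' M (Matrix.toLin' N u) = Matrix.toLin' (M * N) u := by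
    intro M N u
    rw [Matrix.toLin'_mul, LinearMap.comp_apply]
  have hpa : suspE K a v a 1 1 = site K a 1 1 := by simp [suspE, hav]
  have hpv : suspE K a v v 1 1 = site K a 0 0 := by simp [suspE]
  unfold ExM
  refine susp_ex (two_eq K) ?_ ?_ ha hv hav hn hB ?_ ?_ ?_
  · intro x u
    unfold proj
    rw [hmul, (hM.mu x).mul, if_pos rfl]
  · intro x y h u
    unfold proj
    rw [hmul, hmul, hM.comm x y h]
  · intro u
    unfold proj
    rw [hmul, hpa, hpv, (site_mu a).mul, if_neg (by decide), map_zero]
    rfl
  · intro u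
    unfold proj
    rw [hmul, hpa, hpv, (site_mu a).mul, if_neg (by decide), map_zero]
    rfl
  · intro u
    unfold proj
    rw [hpa, hpv, ← LinearMap.add_apply, ← map_add, add_comm, (site_mu a).one, Matrix.toLin'_one]
    rfl

end Pool.Agent.H37.CD
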