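import Pool.Agent.H37.CD.Prod
import Pool.Agent.H37.CD.Sites
import Pool.Agent.H37.CD.Rules

/-!
# helper37, CD, module UNIV: locality, and one M-system exact on all acyclic sets

`acy_congr`: let `e` on `ι` be an M-system of `G` exact on `A`. On `ι × (V → Fin 2)` put
`e' x = if x ∈ A then inL _ e x else inR ι (site K) x`. It is an M-system of `G'`: for `x, y ∈ A` adjacent in
`G'` they are adjacent in `G`; an `inL` and an `inR` always commute (`Matrix.mul_kronecker_mul`); two sites
`x ≠ y` commute. `ExM G' e' A`: `cell G' (proj e') A = cell G (proj (inL _ e)) A` (`cell_congr`), `left_ex`.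

`universal`: for every finset `S` of sets there is an M-system of `G` (nonempty index) exact on all
`L ∈ S` with `Acy K G L`: induction on `S`. `S = ∅`: `site_msys`. Step: if `Acy K G L` combine by
`msys_prod`, else keep the system. Apply to `S = Finset.univ : Finset (Finset V)`.
-/

namespace Pool.Agent.H37.CD

open Finset

variable {V : Type} [Fintype V] [DecidableEq V]
variable {K : Type} [Field K] [CharP K 2]

open scoped Kronecker in
theorem inL_inR_commU {ι κ : Type} [Fintype ι] [DecidableEq ι] [Fintype κ] [DecidableEq κ]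
    (e1 : V → Fin 2 → Fin 2 → Matrix ι ι K) (e2 : V → Fin 2 → Fin 2 → Matrix κ κ K) (x y : V)
    (i j k l : Fin 2) :
    inL κ e1 x i j * inR ι e2 y k l = inR ι e2 y k l * inL κ e1 x i j := by
  unfold inL inR
  rw [← Matrix.mul_kronecker_mul, ← Matrix.mul_kronecker_mul, Matrix.mul_one, Matrix.one_mul,
    Matrix.one_mul, Matrix.mul_one]

theorem acy_congr {G G' : SimpleGraph V} {A : Finset V}
    (h : ∀ x ∈ A, ∀ y ∈ A, (G.Adj x y ↔ G'.Adj x y)) (hA : Acy K G A) : Acy K G' A := by
  obtain ⟨ι, _, _, _, e, he, hex⟩ := hA
  have hL : MSys G (inL (V → Fin 2) e) := inL_msys he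
  have hR : MSys (⊤ : SimpleGraph V) (inR ι (site (V := V) K)) := inR_msys (site_msys _)
  refine ⟨ι × (V → Fin 2), inferInstance, inferInstance, inferInstance,
    fun x => if x ∈ A then inL (V → Fin 2) e x else inR ι (site K) x, ⟨?_, ?_⟩, ?_⟩
  · intro x
    by_cases hx : x ∈ A
    · simp only [hx, if_true]; exact hL.mu x
    · simp only [hx, if_false]; exact hR.mu x
  · intro x y hxy i j k l
    by_cases hx : x ∈ A
    · by_cases hy : y ∈ A
      · simp only [hx, hy, if_true]
        exact hL.comm x y ((h x hx y hy).2 hxy) i j k l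
      · simp only [hx, hy, if_true, if_false]
        exact inL_inR_commU e (site K) x y i j k l
    · by_cases hy : y ∈ A
      · simp only [hx, hy, if_true, if_false]
        exact (inL_inR_commU e (site K) y x k l i j).symm
      · simp only [hx, hy, if_false]
        exact hR.comm x y hxy.ne i j k l
  · have h1 : ExM G (inL (V → Fin 2) e) A := left_ex hex
    unfold ExM at h1 ⊢
    have h2 : cell G (proj (inL (V → Fin 2) e)) A
        = cell G' (proj fun x => if x ∈ A then inL (V → Fin 2) e x else inR ι (site K) x) A := by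
      funext σ
      refine cell_congr h (fun x hx => ?_) σ
      simp only [proj, hx, if_true]
    rwa [← h2]

theorem universal [Infinite K] (G : SimpleGraph V) :
    ∃ (ι : Type) (_ : Fintype ι) (_ : DecidableEq ι) (_ : Nonempty ι)
      (e : V → Fin 2 → Fin 2 → Matrix ι ι K), MSys G e ∧ ∀ L, Acy K G L → ExM G e L := by
  have key : ∀ S : Finset (Finset V), ∃ (ι : Type) (_ : Fintype ι) (_ : DecidableEq ι)
      (_ : Nonempty ι) (e : V → Fin 2 → Fin 2 → Matrix ι ι K),
      MSys G e ∧ ∀ L ∈ S, Acy K G L → ExM G e L := by
    intro S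
    induction S using Finset.induction_on with
    | empty =>
      exact ⟨V → Fin 2, inferInstance, inferInstance, inferInstance, site K, site_msys G,
        fun L hL => absurd hL (notMem_empty L)⟩
    | insert L S _ ih =>
      obtain ⟨ι, _, _, _, e, he, hex⟩ := ih
      by_cases hA : Acy K G L
      · obtain ⟨κ, _, _, _, e', he', hex'⟩ := hA
        obtain ⟨e'', he'', hall⟩ := msys_prod he he'
        refine ⟨ι × κ, inferInstance, inferInstance, inferInstance, e'', he'', ?_⟩
        intro L' hL' hA'
        rcases mem_insert.1 hL' with rfl | hL'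
        · exact hall _ (Or.inr hex')
        · exact hall _ (Or.inl (hex L' hL' hA'))
      · refine ⟨ι, inferInstance, inferInstance, inferInstance, e, he, ?_⟩
        intro L' hL' hA'
        rcases mem_insert.1 hL' with rfl | hL'
        · exact absurd hA' hA
        · exact hex L' hL' hA'
  obtain ⟨ι, h1, h2, h3, e, he, hall⟩ := key Finset.univ
  exact ⟨ι, h1, h2, h3, e, he, fun L hL => hall L (mem_univ L) hL⟩

end Pool.Agent.H37.CD
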