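import Pool.Agent.H37.CD.Bd

/-!
# helper37, CD, module VERTEXC: exactness of the link from that of `A` and `A.erase v`

Here the coefficients are an M-system `e` (matrix units `e v i j`, `p v = e v 1 1`).
STEP 1. Let `f` be a cycle of the link `L = lk G A {v}` with `p v (f τ) = f τ` for all `τ`. Then
`f = bd h` for a chain `h` of `L`. Indeed `kap v f` (`σ ↦ f (σ.erase v)` if `v ∈ σ`, else `0`) is a chain
of `A`; `bd (kap v f) τ = f τ` for `v ∉ τ` and `= 0` for `v ∈ τ` (`bd_kap_of_mem`, as `f` vanishes on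
sets containing `v ∉ L`, and `bd f = 0`). So `f' = bd (kap v f)`, i.e. `f` itself, is a cycle of
`A.erase v` (cells of `L` are contained in those of `A.erase v`), hence `f = bd k` with `k` a chain of
`A.erase v`. Then `kap v f + k` is a cycle of `A` (`bd (kap v f) = f = bd k`), so `= bd h`, `h` a chain of `A`.
`ell v h` is a chain of `L` and `bd (ell v h) = ell v (bd h) = ell v (kap v f + k) = f` (`k` vanishes on
sets containing `v`; both sides vanish at `τ ∋ v`).
STEP 2. Let `f` be any cycle of `L`. Let `M i j` be the linear map of the matrix `e v i j`. `M 1 1 ∘ f` and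
`M 1 0 ∘ f` are cycles of `L` (the `e v i j` commute with `p w`, `w` adjacent to `v`) fixed by
`p v = M 1 1` (`e 1 1 * e 1 1 = e 1 1`, `e 1 1 * e 1 0 = e 1 0`). So `M 1 1 f = bd h1`,
`M 1 0 f = bd h2`, and `f = (e 1 1 + e 0 0) f = M 1 1 f + M 0 1 (M 1 0 f) = bd (h1 + M 0 1 ∘ h2)`, a chain
of `L` because `M 0 1` commutes with `p w`, `w ∈ σ ⊆ L`.
-/

namespace Pool.Agent.H37.CD

open Finset

variable {V : Type} [Fintype V] [DecidableEq V]
variable {K : Type} [Field K] [CharP K 2] {ι : Type} [Fintype ι] [DecidableEq ι]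

theorem mem_lk_single {G : SimpleGraph V} {A : Finset V} {v x : V} :
    x ∈ lk G A {v} ↔ x ∈ A ∧ G.Adj v x := by
  simp [lk]

/-- step 1: cycles of the link fixed by the projection of `v` are boundaries -/
theorem vertexC_aux {G : SimpleGraph V} {U : Type*} [AddCommGroup U] [Module K U]
    {p : V → Module.End K U}
    {A : Finset V} {v : V} (hv : v ∈ A) (h1 : Ex (cell G p A)) (h2 : Ex (cell G p (A.erase v)))
    (f : Finset V → U) (hf : ∀ σ, f σ ∈ cell G p (lk G A {v}) σ) (hb : ∀ τ, bd f τ = 0)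
    (hpf : ∀ σ, p v (f σ) = f σ) :
    ∃ h : Finset V → U, (∀ σ, h σ ∈ cell G p (lk G A {v}) σ) ∧ ∀ τ, bd h τ = f τ := by
  have hfv : ∀ σ, v ∈ σ → f σ = 0 := by
    intro σ hσ
    by_contra h0
    have h3 := ((mem_cell.1 (hf σ)).1 h0).1 hσ
    exact G.irrefl (mem_lk_single.1 h3).2
  -- `kap v f` is a chain of `A`
  have hkap : ∀ σ, kap v f σ ∈ cell G p A σ := by
    intro σ
    unfold kap
    split_ifs with hσ
    · obtain ⟨h3, h4⟩ := mem_cell.1 (hf (σ.erase v))
      refine mem_cell.2 ⟨fun h0 => ?_, fun w hw => ?_⟩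
      · obtain ⟨h5, h6⟩ := h3 h0
        rw [← insert_erase hσ]
        refine ⟨insert_subset hv (fun x hx => (mem_lk_single.1 (h5 hx)).1), ?_⟩
        rw [coe_insert, SimpleGraph.isClique_insert]
        exact ⟨h6, fun z hz _ => (mem_lk_single.1 (h5 (mem_coe.1 hz))).2⟩
      · by_cases hwv : w = v
        · rw [hwv]; exact hpf _
        · exact h4 w (mem_erase.2 ⟨hwv, hw⟩)
    · exact zero_mem _
  have hbkap : ∀ τ, bd (kap v f) τ = f τ := by
    intro τ
    by_cases hτ : v ∈ τ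
    · rw [bd_kap_of_mem hτ f hfv, hb, hfv τ hτ]
    · exact bd_kap_of_notMem hτ f
  have hf' : ∀ σ, f σ ∈ cell G p (A.erase v) σ := by
    intro σ
    obtain ⟨h3, h4⟩ := mem_cell.1 (hf σ)
    refine mem_cell.2 ⟨fun h0 => ⟨fun x hx => ?_, (h3 h0).2⟩, h4⟩
    have h5 := mem_lk_single.1 ((h3 h0).1 hx)
    exact mem_erase.2 ⟨fun h => G.irrefl (h ▸ h5.2), h5.1⟩
  obtain ⟨k, hk1, hk2⟩ := h2 f hf' hb
  have hk1' : ∀ σ, k σ ∈ cell G p A σ := by
    intro σ
    obtain ⟨h3, h4⟩ := mem_cell.1 (hk1 σ)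
    exact mem_cell.2 ⟨fun h0 => ⟨(h3 h0).1.trans (erase_subset _ _), (h3 h0).2⟩, h4⟩
  have hkv : ∀ σ, v ∈ σ → k σ = 0 := by
    intro σ hσ
    by_contra h0
    have h3 := ((mem_cell.1 (hk1 σ)).1 h0).1 hσ
    exact (mem_erase.1 h3).1 rfl
  obtain ⟨h, hh1, hh2⟩ := h1 (fun σ => kap v f σ + k σ)
    (fun σ => Submodule.add_mem _ (hkap σ) (hk1' σ)) (fun τ => by
      rw [bd_add, hbkap, hk2]; exact two_eq K _)
  refine ⟨ell v h, fun σ => ?_, fun τ => ?_⟩
  · unfold ell
    split_ifs with hσ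
    · exact zero_mem _
    · obtain ⟨h3, h4⟩ := mem_cell.1 (hh1 (insert v σ))
      refine mem_cell.2 ⟨fun h0 => ?_, fun w hw => h4 w (mem_insert_of_mem hw)⟩
      obtain ⟨h5, h6⟩ := h3 h0
      rw [coe_insert, SimpleGraph.isClique_insert] at h6
      refine ⟨fun x hx => mem_lk_single.2 ⟨h5 (mem_insert_of_mem hx), ?_⟩, h6.1⟩
      exact h6.2 x (mem_coe.2 hx) (fun h => hσ (h ▸ hx))
  · rw [bd_ell]
    unfold ell
    split_ifs with hτ
    · exact (hfv τ hτ).symm
    · rw [hh2, hkv _ (mem_insert_self _ _), add_zero]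
      unfold kap
      rw [if_pos (mem_insert_self _ _), erase_insert hτ]

theorem vertexC {G : SimpleGraph V} {e : V → Fin 2 → Fin 2 → Matrix ι ι K} (he : MSys G e)
    {A : Finset V} {v : V} (hv : v ∈ A) (h1 : ExM G e A) (h2 : ExM G e (A.erase v)) :
    ExM G e (lk G A {v}) := by
  intro f hf hb
  -- the operators
  have hmul : ∀ i j k l (x : ι → K), Matrix.toLin' (e v i j) (Matrix.toLin' (e v k l) x) =
      if j = k then Matrix.toLin' (e v i l) x else 0 := by
    intro i j k l x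
    rw [← LinearMap.comp_apply, ← Matrix.toLin'_mul, (he.mu v).mul i j k l]
    split_ifs
    · rfl
    · simp
  have hone : ∀ x : ι → K, Matrix.toLin' (e v 0 0) x + Matrix.toLin' (e v 1 1) x = x := by
    intro x
    rw [← LinearMap.add_apply, ← map_add, (he.mu v).one, Matrix.toLin'_one]
    rfl
  -- operators of `v` preserve the chains of the link
  have hM : ∀ i j (g : Finset V → ι → K), (∀ σ, g σ ∈ cell G (proj e) (lk G A {v}) σ) →
      ∀ σ, Matrix.toLin' (e v i j) (g σ) ∈ cell G (proj e) (lk G A {v}) σ := by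
    intro i j g hg σ
    obtain ⟨h3, h4⟩ := mem_cell.1 (hg σ)
    by_cases h0 : g σ = 0
    · rw [h0, map_zero]; exact zero_mem _
    · obtain ⟨h5, h6⟩ := h3 h0
      refine mem_cell.2 ⟨fun _ => ⟨h5, h6⟩, fun w hw => ?_⟩
      have hadj : G.Adj v w := (mem_lk_single.1 (h5 hw)).2
      have h7 := h4 w hw
      unfold proj at h7 ⊢
      rw [← LinearMap.comp_apply, ← Matrix.toLin'_mul, ← he.comm v w hadj i j 1 1,
        Matrix.toLin'_mul, LinearMap.comp_apply, h7]
  have hMb : ∀ i j (g : Finset V → ι → K) (τ : Finset V),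
      bd (fun σ => Matrix.toLin' (e v i j) (g σ)) τ = Matrix.toLin' (e v i j) (bd g τ) :=
    fun i j g τ => bd_mapl (K := K) (Matrix.toLin' (e v i j)) g τ
  obtain ⟨k1, hk1, hk1'⟩ := vertexC_aux hv h1 h2 (fun σ => Matrix.toLin' (e v 1 1) (f σ))
    (hM 1 1 f hf) (fun τ => by rw [hMb, hb, map_zero]) (fun σ => by
      change Matrix.toLin' (e v 1 1) (Matrix.toLin' (e v 1 1) (f σ)) = _
      rw [hmul, if_pos rfl])
  obtain ⟨k2, hk2, hk2'⟩ := vertexC_aux hv h1 h2 (fun σ => Matrix.toLin' (e v 1 0) (f σ))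
    (hM 1 0 f hf) (fun τ => by rw [hMb, hb, map_zero]) (fun σ => by
      change Matrix.toLin' (e v 1 1) (Matrix.toLin' (e v 1 0) (f σ)) = _
      rw [hmul, if_pos rfl])
  refine ⟨fun σ => k1 σ + Matrix.toLin' (e v 0 1) (k2 σ), fun σ =>
    Submodule.add_mem _ (hk1 σ) (hM 0 1 k2 hk2 σ), fun τ => ?_⟩
  rw [bd_add, hMb, hk1', hk2', hmul, if_pos rfl, add_comm]
  exact hone (f τ)

end Pool.Agent.H37.CD
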