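import Pool.Agent.H37.CD.Conc
import Pool.Agent.H37.CD.Euler
import Pool.Agent.H37.CD.Univ
import Pool.Agent.H37.CD.Union
import Pool.Agent.H37.CD.VertexC
import Pool.Agent.H37.CD.SplitEx
import Pool.Agent.H37.CD.States
import Pool.Agent.H37.CD.Odd

/-!
# helper37, CD, module MAIN: reducible sets are acyclic; the Charney-Davis inequality
-/

namespace Pool.Agent.H37.CD

open Finset

variable {V : Type} [Fintype V] [DecidableEq V]

theorem cs_of_msys {K : Type} [Field K] {ι : Type} [Fintype ι] [DecidableEq ι]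
    {G : SimpleGraph V} {e : V → Fin 2 → Fin 2 → Matrix ι ι K} (he : MSys G e) :
    CS G (proj e) := by
  refine ⟨fun v => ?_, fun v w hvw => ?_⟩
  · unfold proj
    rw [Module.End.mul_eq_comp, ← Matrix.toLin'_mul, (he.mu v).mul]
    simp
  · unfold proj
    rw [Module.End.mul_eq_comp, Module.End.mul_eq_comp, ← Matrix.toLin'_mul, ← Matrix.toLin'_mul,
      he.comm v w hvw]

theorem msys_mono {R : Type*} [Ring R] {G G' : SimpleGraph V} {e : V → Fin 2 → Fin 2 → R}
    (he : MSys G' e) (h : ∀ x y, G.Adj x y → G'.Adj x y) : MSys G e :=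
  ⟨he.mu, fun v w hvw => he.comm v w (h v w hvw)⟩

/-- the algebraic closure of the field with two elements -/
abbrev K2 : Type := AlgebraicClosure (ZMod 2)

/-- Reducible sets are M-acyclic. -/
theorem reducible_acy {G : SimpleGraph V} {A : Finset V} (h : Reducible G A) :
    Acy K2 G A := by
  induction h with
  | gen G A h => exact h
  | susp G A a v ha hv hav hn hB => exact acy_susp ha hv hav hn hB
  | states G A S st T h => exact acy_states h
  | congr G G' A h _ ih => exact acy_congr h ih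
  | vertexA G A v hv _ _ ih1 ih2 =>
    obtain ⟨ι, i1, i2, i3, e, he, hU⟩ := universal (K := K2) G
    exact ⟨ι, i1, i2, i3, e, he, Ex_iff.2 (fun i => R1 (cs_of_msys he) hv
      (Ex_iff.1 (hU _ ih1) i) (fun j _ => Ex_iff.1 (hU _ ih2) j))⟩
  | vertexB G A v hv _ _ ih1 ih2 =>
    obtain ⟨ι, i1, i2, i3, e, he, hU⟩ := universal (K := K2) G
    exact ⟨ι, i1, i2, i3, e, he, Ex_iff.2 (fun i => R2 (cs_of_msys he) hv
      (Ex_iff.1 (hU _ ih1) i) (Ex_iff.1 (hU _ ih2) i))⟩
  | vertexC G A v hv _ _ ih1 ih2 =>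
    obtain ⟨ι, i1, i2, i3, e, he, hU⟩ := universal (K := K2) G
    exact ⟨ι, i1, i2, i3, e, he, vertexC he hv (hU _ ih1) (hU _ ih2)⟩
  | unionA G A B hs _ _ _ ih1 ih2 ih3 =>
    obtain ⟨ι, i1, i2, i3, e, he, hU⟩ := universal (K := K2) G
    exact ⟨ι, i1, i2, i3, e, he, unionA hs (hU _ ih1) (hU _ ih2) (hU _ ih3)⟩
  | unionB G A B hs _ _ ih1 ih2 =>
    obtain ⟨ι, i1, i2, i3, e, he, hU⟩ := universal (K := K2) G
    exact ⟨ι, i1, i2, i3, e, he, unionB hs (hU _ ih1) (hU _ ih2)⟩
  | unionC G A B hs _ _ _ ih1 ih2 ih3 =>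
    obtain ⟨ι, i1, i2, i3, e, he, hU⟩ := universal (K := K2) G
    exact ⟨ι, i1, i2, i3, e, he, unionC hs (hU _ ih1) (hU _ ih2) (hU _ ih3)⟩
  | edge G A x y hx hy hxy hn _ _ ih1 ih2 =>
    obtain ⟨ι, i1, i2, i3, e, he, hU⟩ := universal (K := K2) (addEdge G x y)
    refine ⟨ι, i1, i2, i3, e, msys_mono he (fun u w h => ⟨G.ne_of_adj h, Or.inl h⟩), ?_⟩
    have hl : lk (addEdge G x y) A {x, y} = lk G A {x, y} := by
      ext z
      rw [mem_lk, mem_lk]
      simp only [mem_insert, mem_singleton, forall_eq_or_imp, forall_eq, addEdge]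
      constructor
      · rintro ⟨h0, ⟨h1, h2⟩, h3, h4⟩
        refine ⟨h0, ?_, ?_⟩
        · rcases h2 with h2 | h2 | h2
          · exact h2
          · exact absurd h2.2.symm h3
          · exact absurd h2.1 hxy
        · rcases h4 with h4 | h4 | h4
          · exact h4
          · exact absurd h4.1.symm hxy
          · exact absurd h4.2.symm h1
      · rintro ⟨h0, h1, h2⟩
        exact ⟨h0, ⟨G.ne_of_adj h1, Or.inl h1⟩, G.ne_of_adj h2, Or.inl h2⟩
    have h2 : Acy K2 (addEdge G x y) (lk G A {x, y}) := by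
      refine acy_congr (fun u hu w hw => ?_) ih2
      rw [mem_lk] at hu hw
      simp only [mem_insert, mem_singleton, forall_eq_or_imp, forall_eq] at hu hw
      constructor
      · intro h; exact ⟨G.ne_of_adj h, Or.inl h⟩
      · rintro ⟨_, h | h | h⟩
        · exact h
        · exact absurd h.1 (G.ne_of_adj hu.2.1).symm
        · exact absurd h.1 (G.ne_of_adj hu.2.2).symm
    refine edgeDel (G := addEdge G x y) (cs_of_msys he) hx hy ⟨hxy, Or.inr (Or.inl ⟨rfl, rfl⟩)⟩
      (fun u w => ?_) (hU _ ih1) (by rw [hl]; exact hU _ h2)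
    constructor
    · intro h
      refine ⟨⟨G.ne_of_adj h, Or.inl h⟩, ?_, ?_⟩
      · rintro ⟨rfl, rfl⟩; exact hn h
      · rintro ⟨rfl, rfl⟩; exact hn h.symm
    · rintro ⟨⟨_, h | h | h⟩, h3, h4⟩
      · exact h
      · exact absurd h h3
      · exact absurd h h4
  | split G A a b ha hb hab hx _ _ ih1 ih2 =>
    obtain ⟨ι, i1, i2, i3, e, he, hU⟩ := universal (K := K2) (contract G a b)
    have h2 : Acy K2 (contract G a b) (lk G A {a, b}) := by
      refine acy_congr (fun u hu w hw => ?_) ih2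
      rw [mem_lk] at hu hw
      simp only [mem_insert, mem_singleton, forall_eq_or_imp, forall_eq] at hu hw
      constructor
      · intro h; exact ⟨G.ne_of_adj h, Or.inl h⟩
      · rintro ⟨_, h | h | h⟩
        · exact h
        · exact absurd h.1 (G.ne_of_adj hu.2.2).symm
        · exact absurd h.1 (G.ne_of_adj hw.2.2).symm
    exact ⟨ι × Fin 2, inferInstance, inferInstance, inferInstance, splitE e a b,
      splitE_msys (G.ne_of_adj hab) he, split_ex ha hb hab hx he (hU _ ih1) (hU _ h2)⟩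

theorem main_K (K : Type) [Field K] [CharP K 2] [Infinite K] {G : SimpleGraph V} {n : ℕ}
    {A : Finset V} (hA : FlagSphere G (2 * n) A) (hB : Bnd G (Acy K G) (n + 1) A) :
    0 ≤ (-1 : ℚ) ^ n * omega G A := by
  obtain ⟨ι, i1, i2, i3, e, he, hU⟩ := universal (K := K) G
  refine euler he (fun i hi => ?_)
  rcases lt_or_gt_of_ne hi with h | h
  · exact lower (cs_of_msys he) hU hB (2 * n) hA i (by omega)
  · exact upper (cs_of_msys he) hU hB i h

theorem Bnd.imp {G : SimpleGraph V} {P Q : Finset V → Prop} (hPQ : ∀ A, P A → Q A) {t : ℕ}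
    {A : Finset V} (h : Bnd G P t A) : Bnd G Q t A := by
  induction h with
  | base t A h => exact Bnd.base _ _ (hPQ A h)
  | top t A h => exact Bnd.top _ _ h
  | step t A v hv _ _ ih1 ih2 => exact Bnd.step _ _ v hv ih1 ih2

/-- The Charney-Davis inequality for flag spheres with a certificate, in particular for those with
reducible odd links. -/
theorem main {G : SimpleGraph V} {n : ℕ} {A : Finset V} (hA : FlagSphere G (2 * n) A)
    (hB : Bnd G (Reducible G) (n + 1) A ∨
      ∀ τ ⊆ A, G.IsClique (τ : Set V) → Odd τ.card → Reducible G (lk G A τ)) :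
    0 ≤ (-1 : ℚ) ^ n * omega G A := by
  have hB' : Bnd G (Reducible G) (n + 1) A := by
    rcases hB with h | h
    · exact h
    · exact bnd_of_odd n A hA h
  exact main_K K2 hA (hB'.imp (fun A h => reducible_acy h))

end Pool.Agent.H37.CD
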