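import Pool.Agent.H37.CD.NerveA

/-!
# helper37, CD, module NERVE: vanishing in low degrees from the links of the simplices of `D`

Notation: `X(C, Z) = C.disjSum Z ⊆ V ⊕ V` for `C, Z ⊆ V`; exactness of `cell (dbl G) (p2 p) X(C, Z)`.
`nb G N τ` is the common closed neighbourhood of `τ` in `N`; for a clique `τ ⊆ N` it is the closed star.

`star_ex`: for a nonempty clique `τ ⊆ N`, and any degree `q`: exactness of `lk G N τ` in degree `q` implies
exactness of `nb G N τ = τ ∪ lk G N τ` in degree `q`: add the elements of `τ` one at a time with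
`cone` (an element of `τ` is adjacent to all other elements of `nb G N τ`). For instance by induction on
`ρ ⊆ τ`: exactness of `ρ ∪ lk G N τ` (`ρ` and `lk G N τ` are disjoint).

`nerve_c`: CLAIM: for every nonempty clique `τ ⊆ D`, every `Z ⊆ lk G D τ` and all `q` with
`q + τ.card ≤ i + 1`: `X(nb G N τ, Z)` is exact in degree `q`. Induction on `Z.card`. `Z = ∅`: transport of
`star_ex` along `Function.Embedding.inl` (`(nb G N τ).disjSum ∅` is the image of `nb G N τ`).
`z ∈ Z`: `R1` with the vertex `inr z`: deleting it gives `X(nb G N τ, Z.erase z)` (induction), its link is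
`X(nb G N (insert z τ), Z.filter (G.Adj z))`, needed in degree `q - 1`, with
`(q - 1) + (insert z τ).card = q + τ.card` (induction: `insert z τ ⊆ D` is a clique,
`Z.filter (G.Adj z) ⊆ lk G D (insert z τ)`, smaller cardinality).

`nerve`: CLAIM: for all `Z ⊆ D`: `X(N, Z)` is exact in degree `i`: start from `Z = D` (`nerve_b`) and delete
the elements of `D \ Z` one at a time with `R2`: to go from `insert z Z` to `Z` (`z ∉ Z`) we need the link of
`inr z` in `X(N, insert z Z)`, which is `X(nb G N {z}, Z.filter (G.Adj z))`, in degree `i`: `nerve_c` for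
`τ = {z}`. For `Z = ∅`, transport back along `Function.Embedding.inl`.
-/

namespace Pool.Agent.H37.CD

open Finset

variable {V : Type} [Fintype V] [DecidableEq V]
variable {K : Type} [Field K] [CharP K 2] {U : Type*} [AddCommGroup U] [Module K U]

theorem nrv_mem_lk {G : SimpleGraph V} {A τ : Finset V} {x : V} :
    x ∈ lk G A τ ↔ x ∈ A ∧ ∀ v ∈ τ, G.Adj v x := by
  simp [lk]

theorem nrv_mem_nb {G : SimpleGraph V} {D s : Finset V} {y : V} :
    y ∈ nb G D s ↔ y ∈ D ∧ ∀ z ∈ s, y = z ∨ G.Adj z y := by
  simp [nb]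

theorem nrv_nb_eq {G : SimpleGraph V} {N τ : Finset V} (hτ : τ ⊆ N)
    (hc : G.IsClique (τ : Set V)) : nb G N τ = τ ∪ lk G N τ := by
  ext y
  rw [mem_union, nrv_mem_nb, nrv_mem_lk]
  constructor
  · rintro ⟨h1, h2⟩
    by_cases hy : y ∈ τ
    · exact Or.inl hy
    · refine Or.inr ⟨h1, fun v hv => (h2 v hv).resolve_left fun h => hy (h ▸ hv)⟩
  · rintro (h | ⟨h1, h2⟩)
    · refine ⟨hτ h, fun z hz => ?_⟩
      by_cases hyz : y = z
      · exact Or.inl hyz
      · exact Or.inr (hc hz h (Ne.symm hyz))
    · exact ⟨h1, fun z hz => Or.inr (h2 z hz)⟩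

theorem star_ex {G : SimpleGraph V} {p : V → Module.End K U} (hp : CS G p) {N τ : Finset V}
    (hτ : τ ⊆ N) (hne : τ.Nonempty) (hc : G.IsClique (τ : Set V)) {q : ℕ}
    (h : ExAt (cell G p (lk G N τ)) q) : ExAt (cell G p (nb G N τ)) q := by
  rw [nrv_nb_eq hτ hc]
  have key : ∀ ρ ⊆ τ, ExAt (cell G p (ρ ∪ lk G N τ)) q := by
    intro ρ
    induction ρ using Finset.induction_on with
    | empty =>
      intro _
      rw [empty_union]
      exact h
    | insert v ρ hv ih =>
      intro hρ
      have hvτ : v ∈ τ := hρ (mem_insert_self _ _)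
      have hρτ : ρ ⊆ τ := fun x hx => hρ (mem_insert_of_mem hx)
      refine cone hp (v := v) (mem_union_left _ (mem_insert_self _ _)) ?_ ?_
      · intro x hx hxv
        rcases mem_union.1 hx with hx | hx
        · rcases mem_insert.1 hx with hx | hx
          · exact absurd hx hxv
          · exact hc hvτ (hρτ hx) (Ne.symm hxv)
        · exact (nrv_mem_lk.1 hx).2 v hvτ
      · have e : (insert v ρ ∪ lk G N τ).erase v = ρ ∪ lk G N τ := by
          rw [insert_union, erase_insert]
          intro hmem
          rcases mem_union.1 hmem with h1 | h1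
          · exact hv h1
          · exact G.irrefl ((nrv_mem_lk.1 h1).2 v hvτ)
        rw [e]
        exact ih hρτ
  exact key τ Subset.rfl

omit [Fintype V] in
/-- deletion of a vertex of the second copy -/
theorem nrv_erase (S Z : Finset V) (z : V) :
    (S.disjSum Z).erase (Sum.inr z) = S.disjSum (Z.erase z) := by
  ext x
  rcases x with x | x
  · simp
  · simp

open Classical in
/-- the link of a vertex of the second copy -/
theorem nrv_link (G : SimpleGraph V) (N τ Z : Finset V) (z : V) :
    lk (dbl G) ((nb G N τ).disjSum Z) {Sum.inr z} =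
      (nb G N (insert z τ)).disjSum (Z.filter (G.Adj z)) := by
  ext x
  rw [nrv_mem_lk]
  rcases x with x | x
  · rw [inl_mem_disjSum, inl_mem_disjSum, nrv_mem_nb, nrv_mem_nb]
    simp only [mem_singleton, forall_eq, mem_insert, forall_eq_or_imp]
    change (_ ∧ (z = x ∨ G.Adj z x)) ↔ _
    constructor
    · rintro ⟨⟨h1, h2⟩, h3⟩
      exact ⟨h1, h3.imp_left Eq.symm, h2⟩
    · rintro ⟨h1, h3, h2⟩
      exact ⟨⟨h1, h2⟩, h3.imp_left Eq.symm⟩
  · rw [inr_mem_disjSum, inr_mem_disjSum, mem_filter]
    simp only [mem_singleton, forall_eq]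
    rfl

theorem nrv_nb_empty (G : SimpleGraph V) (N : Finset V) : nb G N ∅ = N := by
  ext y
  rw [nrv_mem_nb]
  simp

theorem nerve_c {G : SimpleGraph V} {p : V → Module.End K U} (hp : CS G p) {N D : Finset V}
    (hD : D ⊆ N) {i : ℕ}
    (hl : ∀ τ ⊆ D, τ.Nonempty → G.IsClique (τ : Set V) → ∀ q, q + τ.card ≤ i + 1 →
      ExAt (cell G p (lk G N τ)) q) :
    ∀ τ ⊆ D, τ.Nonempty → G.IsClique (τ : Set V) → ∀ Z ⊆ lk G D τ, ∀ q, q + τ.card ≤ i + 1 →
      ExAt (cell (dbl G) (p2 p) ((nb G N τ).disjSum Z)) q := by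
  classical
  have key : ∀ n : ℕ, ∀ τ ⊆ D, τ.Nonempty → G.IsClique (τ : Set V) → ∀ Z ⊆ lk G D τ,
      Z.card ≤ n → ∀ q, q + τ.card ≤ i + 1 →
      ExAt (cell (dbl G) (p2 p) ((nb G N τ).disjSum Z)) q := by
    intro n
    induction n with
    | zero =>
      intro τ hτ hne hc Z hZ hn q hq
      have hZ0 : Z = ∅ := card_eq_zero.1 (Nat.le_zero.1 hn)
      subst hZ0
      rw [disjSum_empty]
      exact (transport (G := G) (G' := dbl G) (p := p) (p' := p2 p) Function.Embedding.inl
        (fun _ _ _ _ => Iff.rfl) (fun _ _ => rfl) q).1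
        (star_ex hp (hτ.trans hD) hne hc (hl τ hτ hne hc q hq))
    | succ n ih =>
      intro τ hτ hne hc Z hZ hn q hq
      rcases Z.eq_empty_or_nonempty with hZ0 | ⟨z, hz⟩
      · subst hZ0
        exact ih τ hτ hne hc ∅ (empty_subset _) (by simp) q hq
      · have hzl := nrv_mem_lk.1 (hZ hz)
        have hzτ : z ∉ τ := fun h => G.irrefl (hzl.2 z h)
        refine R1 (dbl_CS hp) (v := Sum.inr z) (inr_mem_disjSum.2 hz) ?_ ?_
        · rw [nrv_erase]
          refine ih τ hτ hne hc _ ((erase_subset _ _).trans hZ) ?_ q hq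
          rw [card_erase_of_mem hz]
          omega
        · intro j hj
          rw [nrv_link]
          refine ih (insert z τ) ?_ (insert_nonempty _ _) ?_ _ ?_ ?_ j ?_
          · exact insert_subset hzl.1 hτ
          · rw [coe_insert]
            exact hc.insert fun v hv _ => (hzl.2 v hv).symm
          · intro x hx
            obtain ⟨hx1, hx2⟩ := mem_filter.1 hx
            have hxl := nrv_mem_lk.1 (hZ hx1)
            refine nrv_mem_lk.2 ⟨hxl.1, fun v hv => ?_⟩
            rcases mem_insert.1 hv with rfl | hv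
            · exact hx2
            · exact hxl.2 v hv
          · have h1 : Z.filter (G.Adj z) ⊆ Z.erase z := by
              intro x hx
              obtain ⟨hx1, hx2⟩ := mem_filter.1 hx
              exact mem_erase.2 ⟨fun h => G.irrefl (h ▸ hx2), hx1⟩
            have h2 := card_le_card h1
            rw [card_erase_of_mem hz] at h2
            omega
          · rw [card_insert_of_notMem hzτ]
            omega
  intro τ hτ hne hc Z hZ q hq
  exact key Z.card τ hτ hne hc Z hZ le_rfl q hq

theorem nerve {G : SimpleGraph V} {p : V → Module.End K U} (hp : CS G p) {N D : Finset V}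
    (hD : D ⊆ N) {i : ℕ}
    (hs : ∀ s ⊆ N, G.IsClique (s : Set V) → AcyclicTwo G (nb G D s))
    (hl : ∀ τ ⊆ D, τ.Nonempty → G.IsClique (τ : Set V) → ∀ q, q + τ.card ≤ i + 1 →
      ExAt (cell G p (lk G N τ)) q) :
    ExAt (cell G p N) i := by
  classical
  have key : ∀ E ⊆ D, ExAt (cell (dbl G) (p2 p) (N.disjSum (D \ E))) i := by
    intro E
    induction E using Finset.induction_on with
    | empty =>
      intro _
      rw [sdiff_empty]
      exact Ex_iff.1 (nerve_b hp hD hs) i
    | insert z E hz ih =>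
      intro hE
      have hzD : z ∈ D := hE (mem_insert_self _ _)
      have hED : E ⊆ D := fun x hx => hE (mem_insert_of_mem hx)
      have e : D \ insert z E = (D \ E).erase z := by
        ext x
        simp only [mem_sdiff, mem_insert, mem_erase, not_or]
        tauto
      rw [e, ← nrv_erase]
      refine R2 (dbl_CS hp) (inr_mem_disjSum.2 (mem_sdiff.2 ⟨hzD, hz⟩)) (ih hED) ?_
      have hlk := nrv_link G N ∅ (D \ E) z
      rw [nrv_nb_empty, insert_empty_eq] at hlk
      rw [hlk]
      refine nerve_c hp hD hl {z} (singleton_subset_iff.2 hzD) (singleton_nonempty _) ?_ _ ?_ i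
        (by simp)
      · rw [coe_singleton]
        exact Set.pairwise_singleton _ _
      · intro x hx
        obtain ⟨hx1, hx2⟩ := mem_filter.1 hx
        refine nrv_mem_lk.2 ⟨(mem_sdiff.1 hx1).1, fun v hv => ?_⟩
        rw [mem_singleton.1 hv]
        exact hx2
  have h1 := key D Subset.rfl
  rw [sdiff_self, bot_eq_empty, disjSum_empty] at h1
  exact (transport (G := G) (G' := dbl G) (p := p) (p' := p2 p) Function.Embedding.inl
    (fun _ _ _ _ => Iff.rfl) (fun _ _ => rfl) i).2 h1

end Pool.Agent.H37.CD
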