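import Pool.Agent.H37.CD.Bd

/-!
# helper37, CD, module TRANSPORT: complexes along an injection of the vertex sets

`φ : V ↪ W`. For a chain `f : Finset V → U` let `push f : Finset W → U` be
`push f σ' = if σ' = σ.map φ for some σ then f σ else 0` (`σ ↦ σ.map φ` is injective,
`Finset.map_injective`), and for `f' : Finset W → U` let `pull f' σ = f' (σ.map φ)`.
Facts: `pull (push f) = f`; `bd (push f) = push (bd f)` (at `σ.map φ` the terms with `v' ∉ range φ`
vanish, the others are the terms of `bd f σ`, `Finset.map_insert`; at a set which is not of the form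
`σ.map φ` all terms vanish); if `f'` vanishes off the subsets of `A.map φ` then `f' = push (pull f')`.
`push` and `pull` map chains of `cell G p A` to chains of `cell G' p' (A.map φ)` and back (`hG`, `hp`),
and preserve degrees (`Finset.card_map`).
(→) `f'` a cycle of degree `i` of `A.map φ`: `pull f'` is a cycle (`pull (bd f') = bd (pull f')` for
`f' = push _`), `= bd h`, `f' = push (pull f') = push (bd h) = bd (push h)`.
(←) `f` a cycle of `A`: `push f = bd h'`, `h' = push (pull h')`, so `push f = push (bd (pull h'))`, and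
applying `pull`, `f = bd (pull h')`.
-/

namespace Pool.Agent.H37.CD

open Finset

variable {V : Type} [Fintype V] [DecidableEq V] {W : Type} [Fintype W] [DecidableEq W]
variable {K : Type} [Field K] {U : Type*} [AddCommGroup U] [Module K U]

/-- the preimage of a vertex set -/
def trPre (φ : V ↪ W) (σ' : Finset W) : Finset V := univ.filter (fun x => φ x ∈ σ')

theorem trPre_map (φ : V ↪ W) (σ : Finset V) : trPre φ (σ.map φ) = σ := by
  ext x; simp [trPre]

theorem map_trPre (φ : V ↪ W) {σ' : Finset W} (h : ∀ w ∈ σ', ∃ x, φ x = w) :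
    (trPre φ σ').map φ = σ' := by
  ext w
  simp only [mem_map, trPre, mem_filter, mem_univ, true_and]
  constructor
  · rintro ⟨x, hx, rfl⟩; exact hx
  · intro hw
    obtain ⟨x, rfl⟩ := h w hw
    exact ⟨x, hw, rfl⟩

open Classical in
/-- extension of a chain by zero -/
noncomputable def trPush (φ : V ↪ W) (f : Finset V → U) (σ' : Finset W) : U :=
  if (∀ w ∈ σ', ∃ x, φ x = w) then f (trPre φ σ') else 0

theorem trPush_map (φ : V ↪ W) (f : Finset V → U) (σ : Finset V) :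
    trPush φ f (σ.map φ) = f σ := by
  unfold trPush
  rw [if_pos, trPre_map]
  intro w hw
  obtain ⟨x, -, hx⟩ := mem_map.1 hw
  exact ⟨x, hx⟩

theorem trPush_ne (φ : V ↪ W) (f : Finset V → U) (σ' : Finset W) (h : trPush φ f σ' ≠ 0) :
    ∀ w ∈ σ', ∃ x, φ x = w := by
  by_contra hcon
  exact h (if_neg hcon)

theorem bd_tr (φ : V ↪ W) (f' : Finset W → U) (h : ∀ σ', f' σ' ≠ 0 → ∀ w ∈ σ', ∃ x, φ x = w)
    (σ : Finset V) : bd f' (σ.map φ) = bd (fun τ => f' (τ.map φ)) σ := by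
  unfold bd
  have e : ∑ v ∈ σᶜ, f' ((insert v σ).map φ) = ∑ w ∈ σᶜ.map φ, f' (insert w (σ.map φ)) := by
    rw [sum_map]
    refine sum_congr rfl (fun v _ => ?_)
    rw [Finset.map_insert]
  rw [e]
  symm
  refine sum_subset ?_ ?_
  · intro w hw
    obtain ⟨x, hx, rfl⟩ := mem_map.1 hw
    rw [mem_compl] at hx ⊢
    rw [mem_map' φ]
    exact hx
  · intro w hw hw'
    by_contra hne
    obtain ⟨x, rfl⟩ := h _ hne w (mem_insert_self _ _)
    apply hw'
    rw [mem_map' φ, mem_compl]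
    rw [mem_compl, mem_map' φ] at hw
    exact hw

theorem bd_tr_zero (φ : V ↪ W) (f' : Finset W → U)
    (h : ∀ σ', f' σ' ≠ 0 → ∀ w ∈ σ', ∃ x, φ x = w) (τ' : Finset W)
    (hτ : ¬ ∀ w ∈ τ', ∃ x, φ x = w) : bd f' τ' = 0 := by
  unfold bd
  refine sum_eq_zero (fun v _ => ?_)
  by_contra hne
  exact hτ (fun w hw => h _ hne w (mem_insert_of_mem hw))

theorem cell_tr (φ : V ↪ W) {G : SimpleGraph V} {G' : SimpleGraph W}
    {p : V → Module.End K U} {p' : W → Module.End K U} {A : Finset V}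
    (hG : ∀ x ∈ A, ∀ y ∈ A, (G.Adj x y ↔ G'.Adj (φ x) (φ y))) (hp : ∀ x ∈ A, p x = p' (φ x))
    (σ : Finset V) (x : U) : x ∈ cell G' p' (A.map φ) (σ.map φ) ↔ x ∈ cell G p A σ := by
  rw [mem_cell, mem_cell]
  by_cases hx : x = 0
  · subst hx
    simp
  have hcl : σ ⊆ A → (G'.IsClique ((σ.map φ : Finset W) : Set W) ↔ G.IsClique (σ : Set V)) := by
    intro hσ
    constructor
    · intro h a ha b hb hab
      rw [hG a (hσ ha) b (hσ hb)]
      exact h (mem_coe.2 (mem_map_of_mem φ ha)) (mem_coe.2 (mem_map_of_mem φ hb))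
        (fun h => hab (φ.injective h))
    · intro h a ha b hb hab
      obtain ⟨a', ha', rfl⟩ := mem_map.1 (mem_coe.1 ha)
      obtain ⟨b', hb', rfl⟩ := mem_map.1 (mem_coe.1 hb)
      rw [← hG a' (hσ ha') b' (hσ hb')]
      exact h (mem_coe.2 ha') (mem_coe.2 hb') (fun h => hab (congrArg φ h))
  constructor
  · rintro ⟨h1, h2⟩
    have h3 := h1 hx
    have h4 : σ ⊆ A := (map_subset_map).1 h3.1
    refine ⟨fun _ => ⟨h4, (hcl h4).1 h3.2⟩, fun v hv => ?_⟩
    rw [hp v (h4 hv)]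
    exact h2 _ (mem_map_of_mem φ hv)
  · rintro ⟨h1, h2⟩
    have h3 := h1 hx
    refine ⟨fun _ => ⟨map_subset_map.2 h3.1, (hcl h3.1).2 h3.2⟩, fun v hv => ?_⟩
    obtain ⟨v, hv', rfl⟩ := mem_map.1 hv
    rw [← hp v (h3.1 hv')]
    exact h2 v hv'

theorem cell_tr_range (φ : V ↪ W) {G' : SimpleGraph W} {p' : W → Module.End K U} {A : Finset V}
    {σ' : Finset W} {x : U} (h : x ∈ cell G' p' (A.map φ) σ') (hx : x ≠ 0) :
    ∀ w ∈ σ', ∃ x, φ x = w := by
  intro w hw
  obtain ⟨y, -, hy⟩ := mem_map.1 ((h.1 hx).1 hw)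
  exact ⟨y, hy⟩

theorem transport (φ : V ↪ W) {G : SimpleGraph V} {G' : SimpleGraph W}
    {p : V → Module.End K U} {p' : W → Module.End K U} {A : Finset V}
    (hG : ∀ x ∈ A, ∀ y ∈ A, (G.Adj x y ↔ G'.Adj (φ x) (φ y))) (hp : ∀ x ∈ A, p x = p' (φ x))
    (i : ℕ) : ExAt (cell G p A) i ↔ ExAt (cell G' p' (A.map φ)) i := by
  have hpush : ∀ h : Finset V → U, (∀ σ, h σ ∈ cell G p A σ) →
      ∀ σ', trPush φ h σ' ∈ cell G' p' (A.map φ) σ' := by
    intro h hh σ'
    by_cases hr : ∀ w ∈ σ', ∃ x, φ x = w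
    · obtain ⟨σ, rfl⟩ : ∃ σ : Finset V, σ.map φ = σ' := ⟨_, map_trPre φ hr⟩
      rw [trPush_map, cell_tr φ hG hp]
      exact hh σ
    · have : trPush φ h σ' = 0 := if_neg hr
      rw [this]
      exact zero_mem _
  constructor
  · intro hex f' hf' hdeg hb
    have hr : ∀ σ', f' σ' ≠ 0 → ∀ w ∈ σ', ∃ x, φ x = w := fun σ' h => cell_tr_range φ (hf' σ') h
    obtain ⟨h, hh, hbh⟩ := hex (fun σ => f' (σ.map φ))
      (fun σ => (cell_tr φ hG hp σ _).1 (hf' _))
      (fun σ hσ => hdeg _ (by rw [card_map]; exact hσ))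
      (fun τ => by rw [← bd_tr φ f' hr]; exact hb _)
    refine ⟨trPush φ h, hpush h hh, fun τ' => ?_⟩
    by_cases hτ : ∀ w ∈ τ', ∃ x, φ x = w
    · obtain ⟨τ, rfl⟩ : ∃ τ : Finset V, τ.map φ = τ' := ⟨_, map_trPre φ hτ⟩
      rw [bd_tr φ _ (trPush_ne φ h), ← hbh τ]
      exact bd_congr (fun σ => trPush_map φ h σ) τ
    · rw [bd_tr_zero φ _ (trPush_ne φ h) τ' hτ]
      by_contra hne
      exact hτ (hr τ' (Ne.symm hne))
  · intro hex f hf hdeg hb
    obtain ⟨h', hh', hbh'⟩ := hex (trPush φ f) (hpush f hf)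
      (fun σ' hσ' => by
        by_contra hne
        have hr := trPush_ne φ f σ' hne
        obtain ⟨σ, rfl⟩ : ∃ σ : Finset V, σ.map φ = σ' := ⟨_, map_trPre φ hr⟩
        rw [trPush_map] at hne
        rw [card_map] at hσ'
        exact hne (hdeg σ hσ'))
      (fun τ' => by
        by_cases hτ : ∀ w ∈ τ', ∃ x, φ x = w
        · obtain ⟨τ, rfl⟩ : ∃ τ : Finset V, τ.map φ = τ' := ⟨_, map_trPre φ hτ⟩
          rw [bd_tr φ _ (trPush_ne φ f), bd_congr (fun σ => trPush_map φ f σ) τ]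
          exact hb τ
        · exact bd_tr_zero φ _ (trPush_ne φ f) τ' hτ)
    have hr : ∀ σ', h' σ' ≠ 0 → ∀ w ∈ σ', ∃ x, φ x = w := fun σ' h => cell_tr_range φ (hh' σ') h
    refine ⟨fun σ => h' (σ.map φ), fun σ => (cell_tr φ hG hp σ _).1 (hh' _), fun τ => ?_⟩
    rw [← bd_tr φ h' hr, hbh', trPush_map]

end Pool.Agent.H37.CD
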