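import Pool.Agent.H37.CD.Rules
import Pool.Agent.H37.CD.Transport
import Pool.Agent.H37.CD.Coeff

/-!
# helper37, CD, module NERVEA: the double of a graph

`dbl G` is a graph on `V ⊕ V`: two copies of `G`, and `inl x ~ inr y` iff `x = y` or `x ~ y`.
`p2 p` is `p` on the first copy and `1` on the second. `nb G D s` is the set of the `y ∈ D` which are
equal or adjacent to every element of `s`.

`dbl_CS`: immediate from `hp` (case split; for `inl x ~ inl y` it is `hp.2`, all other commutations are
with `1`).

`nerve_a` (for all `s`, by strong induction on `Y.card`, for all cliques `s ⊆ N` and `Y ⊆ lk G N s`).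
`Y = ∅`: `∅.disjSum (nb G D s)` is the image of `nb G D s` under `Function.Embedding.inr`; use
`transport` with coefficients `1` and `coeff (hs s ..)` (and `Ex_iff`).
`Y ≠ ∅`: pick `x ∈ Y`; by `Ex_iff` and `R1` (vertex `Sum.inl x`) we need exactness in all degrees for
`(Y.disjSum (nb G D s)).erase (inl x) = (Y.erase x).disjSum (nb G D s)` (induction) and for the link
`lk (dbl G) (Y.disjSum (nb G D s)) {inl x} = (Y.filter (G.Adj x)).disjSum (nb G D (insert x s))`
(induction with the clique `insert x s ⊆ N` and `Y.filter (G.Adj x) ⊆ lk G N (insert x s)`,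
which has smaller cardinality since `x` is not adjacent to itself).

`nerve_b` is the statement for `s = ∅`, `Y = N` (`nb G D ∅ = D`, `lk G N ∅ = N`).
-/

set_option linter.unusedSectionVars false

namespace Pool.Agent.H37.CD

open Finset

variable {V : Type} [Fintype V] [DecidableEq V]
variable {K : Type} [Field K] [CharP K 2] {U : Type*} [AddCommGroup U] [Module K U]

/-- two copies of `G`; `inl x` is adjacent to `inr y` iff `x = y` or `x ~ y` -/
def dbl (G : SimpleGraph V) : SimpleGraph (V ⊕ V) where
  Adj a b := match a, b with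
    | Sum.inl x, Sum.inl y => G.Adj x y
    | Sum.inr x, Sum.inr y => G.Adj x y
    | Sum.inl x, Sum.inr y => x = y ∨ G.Adj x y
    | Sum.inr x, Sum.inl y => x = y ∨ G.Adj x y
  symm := ⟨by
    rintro (x | x) (y | y) h
    · exact G.adj_symm h
    · exact h.imp Eq.symm (fun h => G.adj_symm h)
    · exact h.imp Eq.symm (fun h => G.adj_symm h)
    · exact G.adj_symm h⟩
  loopless := ⟨by rintro (x | x) h <;> exact G.irrefl h⟩

/-- the coefficients on the double: `p` on the first copy, `1` on the second -/
def p2 (p : V → Module.End K U) : V ⊕ V → Module.End K U := Sum.elim p (fun _ => 1)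

open Classical in
/-- the common closed neighbourhood in `D` of `s` -/
noncomputable def nb (G : SimpleGraph V) (D s : Finset V) : Finset V :=
  D.filter (fun y => ∀ z ∈ s, y = z ∨ G.Adj z y)

theorem dbl_CS {G : SimpleGraph V} {p : V → Module.End K U} (hp : CS G p) :
    CS (dbl G) (p2 p) := by
  constructor
  · rintro (v | v)
    · exact hp.1 v
    · exact one_mul _
  · rintro (v | v) (w | w) h
    · exact hp.2 v w h
    · change p v * 1 = 1 * p v
      rw [mul_one, one_mul]
    · change 1 * p w = p w * 1
      rw [mul_one, one_mul]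
    · rfl


theorem mem_nb {G : SimpleGraph V} {D s : Finset V} {y : V} :
    y ∈ nb G D s ↔ y ∈ D ∧ ∀ z ∈ s, y = z ∨ G.Adj z y := by
  simp [nb]


theorem mem_lk_iff {G : SimpleGraph V} {A s : Finset V} {y : V} :
    y ∈ lk G A s ↔ y ∈ A ∧ ∀ z ∈ s, G.Adj z y := by
  simp [lk]

theorem nerve_a {G : SimpleGraph V} {p : V → Module.End K U} (hp : CS G p) {N D : Finset V}
    (hD : D ⊆ N)
    (hs : ∀ s ⊆ N, G.IsClique (s : Set V) → AcyclicTwo G (nb G D s)) :
    ∀ s ⊆ N, G.IsClique (s : Set V) → ∀ Y ⊆ lk G N s,
      Ex (cell (dbl G) (p2 p) (Y.disjSum (nb G D s))) := by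
  classical
  have key : ∀ n : ℕ, ∀ s ⊆ N, G.IsClique (s : Set V) → ∀ Y ⊆ lk G N s, Y.card = n →
      Ex (cell (dbl G) (p2 p) (Y.disjSum (nb G D s))) := by
    intro n
    induction n using Nat.strong_induction_on with
    | _ n ih =>
    intro s hsN hcl Y hY hn
    rcases Y.eq_empty_or_nonempty with rfl | ⟨x, hxY⟩
    · have e1 : (∅ : Finset V).disjSum (nb G D s) = (nb G D s).map Function.Embedding.inr :=
        Finset.empty_disjSum _
      rw [e1, Ex_iff]
      intro i
      refine (transport Function.Embedding.inr (G := G) (G' := dbl G)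
        (p := fun _ => (1 : Module.End K U)) (p' := p2 p) (fun _ _ _ _ => Iff.rfl)
        (fun _ _ => rfl) i).1 ?_
      exact Ex_iff.1 (coeff (hs s hsN hcl)) i
    · rw [Ex_iff]
      intro i
      obtain ⟨hxN, hxs⟩ := mem_lk_iff.1 (hY hxY)
      refine R1 (dbl_CS hp) (v := Sum.inl x) (inl_mem_disjSum.2 hxY) ?_ (fun j _ => ?_)
      · have e2 : (Y.disjSum (nb G D s)).erase (Sum.inl x) = (Y.erase x).disjSum (nb G D s) := by
          ext (y | y) <;> simp
        rw [e2]
        exact Ex_iff.1 (ih (Y.erase x).card (by rw [← hn]; exact card_erase_lt_of_mem hxY) s hsN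
          hcl _ ((erase_subset _ _).trans hY) rfl) i
      · have e3 : lk (dbl G) (Y.disjSum (nb G D s)) {Sum.inl x} =
            (Y.filter (fun y => G.Adj x y)).disjSum (nb G D (insert x s)) := by
          ext (y | y)
          · rw [mem_lk_singleton, inl_mem_disjSum, inl_mem_disjSum, mem_filter]
            exact Iff.rfl
          · rw [mem_lk_singleton, inr_mem_disjSum, inr_mem_disjSum, mem_nb, mem_nb]
            constructor
            · rintro ⟨⟨h1, h2⟩, h3⟩
              refine ⟨h1, fun z hz => ?_⟩
              rcases mem_insert.1 hz with rfl | hz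
              · exact h3.imp Eq.symm id
              · exact h2 z hz
            · rintro ⟨h1, h2⟩
              exact ⟨⟨h1, fun z hz => h2 z (mem_insert_of_mem hz)⟩,
                (h2 x (mem_insert_self x s)).imp Eq.symm id⟩
        rw [e3]
        refine Ex_iff.1 (ih _ ?_ (insert x s) ?_ ?_ _ ?_ rfl) j
        · rw [← hn]
          refine card_lt_card ⟨filter_subset _ _, fun h => ?_⟩
          exact G.irrefl (mem_filter.1 (h hxY)).2
        · exact insert_subset hxN hsN
        · rw [coe_insert, SimpleGraph.isClique_insert]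
          exact ⟨hcl, fun z hz _ => (hxs z hz).symm⟩
        · intro y hy
          obtain ⟨h1, h2⟩ := mem_filter.1 hy
          obtain ⟨h3, h4⟩ := mem_lk_iff.1 (hY h1)
          refine mem_lk_iff.2 ⟨h3, fun z hz => ?_⟩
          rcases mem_insert.1 hz with rfl | hz
          · exact h2
          · exact h4 z hz
  intro s hsN hcl Y hY
  exact key _ s hsN hcl Y hY rfl

theorem nerve_b {G : SimpleGraph V} {p : V → Module.End K U} (hp : CS G p) {N D : Finset V}
    (hD : D ⊆ N)
    (hs : ∀ s ⊆ N, G.IsClique (s : Set V) → AcyclicTwo G (nb G D s)) :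
    Ex (cell (dbl G) (p2 p) (N.disjSum D)) := by
  have h := nerve_a hp hD hs ∅ (empty_subset _) (by simp) N
    (fun x hx => mem_lk_iff.2 ⟨hx, fun z hz => absurd hz (notMem_empty z)⟩)
  have e : nb G D ∅ = D := by
    ext y; simp [mem_nb]
  rwa [e] at h

end Pool.Agent.H37.CD
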