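import Pool.Agent.H37.CD.Basic

/-!
# helper37, CD, module SWAP: two commuting systems of matrix units

`swapMU u w = ∑ i j, u i j * w j i`. With the rules `MU.mul` (e i j * e k l = [j = k] e i l), `MU.one` and
`u i j * w k l = w k l * u i j`:
`P * P = ∑ u i j * u k l * w j i * w l k = 1`; `P * u k l = w k l * P`: both are `∑ i, u i l * w k i`.
(Everything may be expanded over `Fin 2`.)
-/

namespace Pool.Agent.H37.CD

variable {R : Type*} [Ring R]

/-- the flip of two commuting systems of matrix units -/
def swapMU (u w : Fin 2 → Fin 2 → R) : R := ∑ i, ∑ j, u i j * w j i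

theorem swapMU_sq {u w : Fin 2 → Fin 2 → R} (hu : MU u) (hw : MU w)
    (hc : ∀ i j k l, u i j * w k l = w k l * u i j) : swapMU u w * swapMU u w = 1 := by
  have key : ∀ i j k l, u i j * w j i * (u k l * w l k) =
      (if j = k then u i l else 0) * (if i = l then w j k else 0) := by
    intro i j k l
    rw [← hu.mul, ← hw.mul, mul_assoc (u i j) (w j i), ← mul_assoc (w j i) (u k l), ← hc k l j i,
      mul_assoc (u k l), ← mul_assoc (u i j)]
  have h1 : swapMU u w * swapMU u w = (u 0 0 + u 1 1) * (w 0 0 + w 1 1) := by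
    unfold swapMU
    simp only [Fin.sum_univ_two, mul_add, add_mul, key]
    simp
  rw [h1, hu.one, hw.one, one_mul]

theorem swapMU_mul {u w : Fin 2 → Fin 2 → R} (hu : MU u) (hw : MU w)
    (hc : ∀ i j k l, u i j * w k l = w k l * u i j) (k l : Fin 2) :
    swapMU u w * u k l = w k l * swapMU u w := by
  have k1 : ∀ i j, u i j * w j i * u k l = (if j = k then u i l else 0) * w j i := by
    intro i j
    rw [← hu.mul, mul_assoc, ← hc k l j i, mul_assoc]
  have k2 : ∀ i j, w k l * (u i j * w j i) = u i j * (if l = j then w k i else 0) := by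
    intro i j
    rw [← hw.mul, ← mul_assoc, ← hc i j k l, mul_assoc]
  unfold swapMU
  simp only [Fin.sum_univ_two, mul_add, add_mul, k1, k2]
  fin_cases k <;> fin_cases l <;> simp

/-- conjugation of matrix units -/
theorem MU.conj {u : Fin 2 → Fin 2 → R} (hu : MU u) {g g' : R} (h1 : g * g' = 1)
    (h2 : g' * g = 1) : MU (fun i j => g * u i j * g') := by
  constructor
  · intro i j k l
    have h3 : g * u i j * g' * (g * u k l * g') = g * (u i j * (g' * g) * u k l) * g' := by
      simp only [mul_assoc]
    rw [h3, h2, mul_one, hu.mul]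
    split_ifs
    · rfl
    · rw [mul_zero, zero_mul]
  · rw [← add_mul, ← mul_add, hu.one, mul_one, h1]

end Pool.Agent.H37.CD
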