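import Pool.Agent.H37.CD.Bd

/-!
# helper37, CD, module TWIST: twisted differentials and conjugated projections

`g v` are involutions (`g v * g v = 1`); for adjacent `v`, `w` the operators `g v`, `p v` commute with
`g w`, `p w`. Let `q v = g v * p v * g v`. Then the complex with cells `cell G p A` and the twisted boundary
`bdg g` is isomorphic to the untwisted complex with cells `cell G q A`.
PROOF. For a clique `σ` let `Φ σ` be the product of the `g v`, `v ∈ σ` (they commute;
`Finset.noncommProd`; put `Φ σ = 1` if `σ` is not a clique). Facts: for `v ∉ τ` and `insert v τ` a clique,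
`Φ (insert v τ) = g v * Φ τ = Φ τ * g v`; `Φ σ * Φ σ = 1`; for `v ∈ σ`, `σ` a clique,
`q v * Φ σ = Φ σ * p v` and `p v * Φ σ = Φ σ * q v` (write `Φ σ = g v * Φ (σ.erase v)` and commute
`Φ (σ.erase v)` with `p v`, `g v`). So `Φ σ` maps `cell G p A σ` to `cell G q A σ` and back.
(→) Let `f'` be a cycle of `cell G q A` and `f σ = Φ σ (f' σ)`. Then
`bdg g f τ = ∑ g v (Φ (insert v τ) (f' (insert v τ))) = ∑ Φ τ (f' (insert v τ)) = Φ τ (bd f' τ) = 0`
(terms where `insert v τ` is not a clique vanish). So `f = bdg g h`, and `h' σ = Φ σ (h σ)` satisfies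
`bd h' τ = ∑ Φ (insert v τ) (h (insert v τ)) = Φ τ (bdg g h τ) = Φ τ (f τ) = f' τ`.
(←) Let `f` be a cycle of the twisted complex, `f' σ = Φ σ (f σ)`,
`bd f' τ = ∑ Φ τ (g v (f (insert v τ))) = Φ τ (bdg g f τ) = 0`; `f' = bd h'`, `h σ = Φ σ (h' σ)`,
`bdg g h τ = Φ τ (bd h' τ) = f τ`.
-/

namespace Pool.Agent.H37.CD

open Finset

variable {V : Type} [Fintype V] [DecidableEq V]
variable {K : Type} [Field K] {U : Type*} [AddCommGroup U] [Module K U]

section Aux

variable {G : SimpleGraph V} {g : V → Module.End K U}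

theorem tw_comm (hgg : ∀ v w, G.Adj v w → g v * g w = g w * g v) {σ : Finset V}
    (h : G.IsClique (σ : Set V)) : (σ : Set V).Pairwise (Function.onFun Commute g) :=
  fun x hx y hy hxy => hgg x y (h hx hy hxy)

open Classical in
/-- the product of the `g v`, `v ∈ σ`, for cliques `σ` -/
noncomputable def twPhi (G : SimpleGraph V) (g : V → Module.End K U)
    (hgg : ∀ v w, G.Adj v w → g v * g w = g w * g v) (σ : Finset V) : Module.End K U :=
  if h : G.IsClique (σ : Set V) then σ.noncommProd g (tw_comm hgg h) else 1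

theorem tw_sub {σ : Finset V} {v : V} (h : G.IsClique ((insert v σ : Finset V) : Set V)) :
    G.IsClique (σ : Set V) :=
  h.subset (by exact_mod_cast subset_insert v σ)

theorem tw_ins (hgg : ∀ v w, G.Adj v w → g v * g w = g w * g v) {σ : Finset V} {v : V}
    (hv : v ∉ σ) (h : G.IsClique ((insert v σ : Finset V) : Set V)) :
    twPhi G g hgg (insert v σ) = g v * twPhi G g hgg σ := by
  unfold twPhi
  rw [dif_pos h, dif_pos (tw_sub h), noncommProd_insert_of_notMem _ _ _ _ hv]

theorem tw_ins' (hgg : ∀ v w, G.Adj v w → g v * g w = g w * g v) {σ : Finset V} {v : V}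
    (hv : v ∉ σ) (h : G.IsClique ((insert v σ : Finset V) : Set V)) :
    twPhi G g hgg (insert v σ) = twPhi G g hgg σ * g v := by
  unfold twPhi
  rw [dif_pos h, dif_pos (tw_sub h), noncommProd_insert_of_notMem' _ _ _ _ hv]

theorem tw_sq (hg : ∀ v, g v * g v = 1) (hgg : ∀ v w, G.Adj v w → g v * g w = g w * g v)
    (σ : Finset V) : twPhi G g hgg σ * twPhi G g hgg σ = 1 := by
  induction σ using Finset.induction_on with
  | empty =>
    unfold twPhi
    rw [dif_pos (by simp)]
    simp
  | insert v σ hv ih =>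
    by_cases h : G.IsClique ((insert v σ : Finset V) : Set V)
    · rw [tw_ins hgg hv h]
      nth_rewrite 1 [← tw_ins hgg hv h]
      rw [tw_ins' hgg hv h, mul_assoc, ← mul_assoc (g v), hg, one_mul, ih]
    · unfold twPhi
      rw [dif_neg h, one_mul]

theorem tw_commute (hgg : ∀ v w, G.Adj v w → g v * g w = g w * g v) {σ : Finset V}
    {x : Module.End K U} (h : ∀ w ∈ σ, g w * x = x * g w) :
    twPhi G g hgg σ * x = x * twPhi G g hgg σ := by
  unfold twPhi
  split_ifs with hc
  · have h1 : Commute x (σ.noncommProd g (tw_comm hgg hc)) :=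
      noncommProd_commute _ _ _ _ (fun w hw => (h w hw).symm)
    exact h1.eq.symm
  · rw [one_mul, mul_one]

/-- adjacency inside a clique -/
theorem tw_adj {σ : Finset V} {v : V} (hv : v ∉ σ)
    (h : G.IsClique ((insert v σ : Finset V) : Set V)) : ∀ w ∈ σ, G.Adj w v := by
  intro w hw
  exact h (by simp [hw]) (by simp) (fun e => hv (e ▸ hw))

theorem tw_qP (hg : ∀ v, g v * g v = 1) (hgg : ∀ v w, G.Adj v w → g v * g w = g w * g v)
    {p : V → Module.End K U} (hgp : ∀ v w, G.Adj v w → g v * p w = p w * g v)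
    {σ : Finset V} (h : G.IsClique (σ : Set V)) {v : V} (hv : v ∈ σ) :
    g v * p v * g v * twPhi G g hgg σ = twPhi G g hgg σ * p v := by
  have hv' := notMem_erase v σ
  have h' : G.IsClique ((insert v (σ.erase v) : Finset V) : Set V) := by
    rw [insert_erase hv]; exact h
  have e := tw_ins hgg hv' h'
  rw [insert_erase hv] at e
  have hc : twPhi G g hgg (σ.erase v) * p v = p v * twPhi G g hgg (σ.erase v) :=
    tw_commute hgg (fun w hw => hgp w v (tw_adj hv' h' w hw))
  rw [e, mul_assoc (g v) _ (p v), hc, ← mul_assoc (g v * p v * g v), mul_assoc (g v * p v), hg,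
    mul_one, mul_assoc]

theorem tw_pP (hg : ∀ v, g v * g v = 1) (hgg : ∀ v w, G.Adj v w → g v * g w = g w * g v)
    {p : V → Module.End K U} (hgp : ∀ v w, G.Adj v w → g v * p w = p w * g v)
    {σ : Finset V} (h : G.IsClique (σ : Set V)) {v : V} (hv : v ∈ σ) :
    p v * twPhi G g hgg σ = twPhi G g hgg σ * (g v * p v * g v) := by
  have hv' := notMem_erase v σ
  have h' : G.IsClique ((insert v (σ.erase v) : Finset V) : Set V) := by
    rw [insert_erase hv]; exact h
  have e := tw_ins' hgg hv' h'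
  rw [insert_erase hv] at e
  have hc : twPhi G g hgg (σ.erase v) * p v = p v * twPhi G g hgg (σ.erase v) :=
    tw_commute hgg (fun w hw => hgp w v (tw_adj hv' h' w hw))
  rw [e, ← mul_assoc (p v), ← hc, mul_assoc _ (g v) (g v * p v * g v), ← mul_assoc (g v) (g v * p v),
    ← mul_assoc (g v) (g v), hg, one_mul, mul_assoc]

/-- the twisted boundary of `Φ f` -/
theorem tw_bdg (hg : ∀ v, g v * g v = 1) (hgg : ∀ v w, G.Adj v w → g v * g w = g w * g v)
    {f : Finset V → U} (hf : ∀ σ, f σ ≠ 0 → G.IsClique (σ : Set V)) (τ : Finset V) :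
    bdg g (fun σ => twPhi G g hgg σ (f σ)) τ = twPhi G g hgg τ (bd f τ) := by
  unfold bdg bd
  rw [map_sum]
  refine sum_congr rfl (fun v hv => ?_)
  beta_reduce
  by_cases h0 : f (insert v τ) = 0
  · rw [h0, map_zero, map_zero, map_zero]
  · rw [tw_ins hgg (mem_compl.1 hv) (hf _ h0), ← Module.End.mul_apply, ← mul_assoc, hg, one_mul]

/-- the boundary of `Φ f` -/
theorem tw_bd (hgg : ∀ v w, G.Adj v w → g v * g w = g w * g v)
    {f : Finset V → U} (hf : ∀ σ, f σ ≠ 0 → G.IsClique (σ : Set V)) (τ : Finset V) :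
    bd (fun σ => twPhi G g hgg σ (f σ)) τ = twPhi G g hgg τ (bdg g f τ) := by
  unfold bdg bd
  rw [map_sum]
  refine sum_congr rfl (fun v hv => ?_)
  beta_reduce
  by_cases h0 : f (insert v τ) = 0
  · rw [h0, map_zero, map_zero, map_zero]
  · rw [tw_ins' hgg (mem_compl.1 hv) (hf _ h0), Module.End.mul_apply]

theorem tw_cq (hg : ∀ v, g v * g v = 1) (hgg : ∀ v w, G.Adj v w → g v * g w = g w * g v)
    {p : V → Module.End K U} (hgp : ∀ v w, G.Adj v w → g v * p w = p w * g v) {A σ : Finset V}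
    {x : U} (hx : x ∈ cell G p A σ) :
    twPhi G g hgg σ x ∈ cell G (fun v => g v * p v * g v) A σ := by
  refine ⟨fun h => hx.1 (fun h0 => h (by rw [h0, map_zero])), fun v hv => ?_⟩
  by_cases h0 : x = 0
  · rw [h0, map_zero, map_zero]
  · have h1 := (hx.1 h0).2
    have h2 := congrArg (fun T : Module.End K U => T x) (tw_qP hg hgg hgp h1 hv)
    change (g v * p v * g v) (twPhi G g hgg σ x) = _
    change (g v * p v * g v) (twPhi G g hgg σ x) = twPhi G g hgg σ (p v x) at h2
    rw [h2, hx.2 v hv]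

theorem tw_cp (hg : ∀ v, g v * g v = 1) (hgg : ∀ v w, G.Adj v w → g v * g w = g w * g v)
    {p : V → Module.End K U} (hgp : ∀ v w, G.Adj v w → g v * p w = p w * g v) {A σ : Finset V}
    {x : U} (hx : x ∈ cell G (fun v => g v * p v * g v) A σ) :
    twPhi G g hgg σ x ∈ cell G p A σ := by
  refine ⟨fun h => hx.1 (fun h0 => h (by rw [h0, map_zero])), fun v hv => ?_⟩
  by_cases h0 : x = 0
  · rw [h0, map_zero, map_zero]
  · have h1 := (hx.1 h0).2
    have h2 := congrArg (fun T : Module.End K U => T x) (tw_pP hg hgg hgp h1 hv)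
    change p v (twPhi G g hgg σ x) = twPhi G g hgg σ ((g v * p v * g v) x) at h2
    have h3 : (g v * p v * g v) x = x := hx.2 v hv
    rw [h2, h3]

theorem tw_inv (hg : ∀ v, g v * g v = 1) (hgg : ∀ v w, G.Adj v w → g v * g w = g w * g v)
    (σ : Finset V) (x : U) : twPhi G g hgg σ (twPhi G g hgg σ x) = x := by
  have h2 := congrArg (fun T : Module.End K U => T x) (tw_sq hg hgg σ)
  exact h2

end Aux

theorem twist {G : SimpleGraph V} {p g : V → Module.End K U} (hp : CS G p)
    (hg : ∀ v, g v * g v = 1) (hgg : ∀ v w, G.Adj v w → g v * g w = g w * g v)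
    (hgp : ∀ v w, G.Adj v w → g v * p w = p w * g v) (A : Finset V) :
    ExG g (cell G p A) ↔ Ex (cell G (fun v => g v * p v * g v) A) := by
  constructor
  · intro H f' hf' hb
    obtain ⟨h, hh, hbh⟩ := H (fun σ => twPhi G g hgg σ (f' σ))
      (fun σ => tw_cp hg hgg hgp (hf' σ)) (fun τ => by
        rw [tw_bdg hg hgg (fun σ h0 => ((hf' σ).1 h0).2), hb, map_zero])
    refine ⟨fun σ => twPhi G g hgg σ (h σ), fun σ => tw_cq hg hgg hgp (hh σ), fun τ => ?_⟩
    rw [tw_bd hgg (fun σ h0 => ((hh σ).1 h0).2), hbh, tw_inv hg hgg]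
  · intro H f hf hb
    obtain ⟨h, hh, hbh⟩ := H (fun σ => twPhi G g hgg σ (f σ))
      (fun σ => tw_cq hg hgg hgp (hf σ)) (fun τ => by
        rw [tw_bd hgg (fun σ h0 => ((hf σ).1 h0).2), hb, map_zero])
    refine ⟨fun σ => twPhi G g hgg σ (h σ), fun σ => tw_cp hg hgg hgp (hh σ), fun τ => ?_⟩
    rw [tw_bdg hg hgg (fun σ h0 => ((hh σ).1 h0).2), hbh, tw_inv hg hgg]

/-- the twisted boundary squares to zero on chains -/
theorem bdg_bdg [CharP K 2] {G : SimpleGraph V} {p g : V → Module.End K U}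
    (hgg : ∀ v w, G.Adj v w → g v * g w = g w * g v) {A : Finset V} {f : Finset V → U}
    (hf : ∀ σ, f σ ∈ cell G p A σ) (τ : Finset V) : bdg g (fun σ => bdg g f σ) τ = 0 := by
  unfold bdg
  simp only [map_sum]
  rw [Finset.sum_sigma']
  refine Finset.sum_involution (fun x _ => ⟨x.2, x.1⟩) ?_ ?_ ?_ ?_
  · rintro ⟨v, w⟩ hx
    simp only [mem_sigma, mem_compl, mem_insert, not_or] at hx ⊢
    rw [Finset.insert_comm w v τ]
    by_cases h0 : f (insert v (insert w τ)) = 0
    · rw [h0]
      simp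
    · have hc := ((hf _).1 h0).2
      have hvw : G.Adj v w := hc (by simp) (by simp) (fun e => hx.2.1 e.symm)
      have h2 := congrArg (fun T : Module.End K U => T (f (insert v (insert w τ)))) (hgg v w hvw)
      change g v (g w (f (insert v (insert w τ)))) = g w (g v (f (insert v (insert w τ)))) at h2
      rw [h2]
      exact two_eq K _
  · rintro ⟨v, w⟩ hx _ h
    simp only [mem_sigma, mem_compl, mem_insert, not_or] at hx
    simp only [Sigma.mk.injEq] at h
    exact hx.2.1 h.1
  · rintro ⟨v, w⟩ hx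
    simp only [mem_sigma, mem_compl, mem_insert, not_or] at hx ⊢
    exact ⟨hx.2.2, fun h => hx.2.1 h.symm, hx.1⟩
  · rintro ⟨v, w⟩ hx
    rfl

/-- the twisted boundary preserves chains -/
theorem bdg_mem {G : SimpleGraph V} {p g : V → Module.End K U}
    (hgp : ∀ v w, G.Adj v w → g v * p w = p w * g v) {A : Finset V} {f : Finset V → U}
    (hf : ∀ σ, f σ ∈ cell G p A σ) (τ : Finset V) : bdg g f τ ∈ cell G p A τ := by
  refine Submodule.sum_mem _ (fun v hv => ?_)
  have hv' := mem_compl.1 hv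
  by_cases h0 : f (insert v τ) = 0
  · rw [h0, map_zero]
    exact zero_mem _
  · have hc := (hf _).1 h0
    refine ⟨fun _ => ⟨(subset_insert v τ).trans hc.1, tw_sub hc.2⟩, fun w hw => ?_⟩
    have hvw : G.Adj v w := (tw_adj hv' hc.2 w hw).symm
    have h2 := congrArg (fun T : Module.End K U => T (f (insert v τ))) (hgp v w hvw)
    change g v (p w (f (insert v τ))) = p w (g v (f (insert v τ))) at h2
    rw [← h2, (hf _).2 w (mem_insert_of_mem hw)]

end Pool.Agent.H37.CD
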