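import Pool.Agent.H37.CD.Pencil
import Pool.Agent.H37.CD.Twist
import Pool.Agent.H37.CD.Swap

/-!
# helper37, CD, module PROD: one M-system exact wherever one of two given ones is

`e1` on `ι`, `e2` on `κ`. On `ι × κ` put `u v i j = e1 v i j ⊗ₖ 1`, `w v i j = 1 ⊗ₖ e2 v i j`
(`Matrix.mul_kronecker_mul`, `Matrix.one_kronecker_one`): M-systems, and all `u v i j` commute with all
`w v' k l`.
`left_ex`, `right_ex`: `(M ⊗ₖ 1) *ᵥ x` at `(i, k)` is `M *ᵥ (fun i' => x (i', k))` at `i`. A chain `f` of the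
`u`-complex is for each `k` a chain `f_k σ = fun i => f σ (i, k)` of the `e1`-complex (for the clique condition:
if `f_k σ ≠ 0` then `f σ ≠ 0`), cycles give cycles, choose `h_k` and put `h σ (i, k) = h_k σ i`. Same on the
right.
`P v = swapMU (u v) (w v)`, `g t v = 1 + t • (1 + P v)`. In characteristic two
`g t v * g t v = 1 + t² (1 + P v)² = 1 + t² (1 + 2 P v + 1) = 1`, `g 0 v = 1`, `g 1 v = P v` (`1 + 1 = 0`).
For adjacent `v, v'` the `u v i j`, `w v i j` and `P v`, `g t v` commute with the same for `v'`.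
`e t v i j = g t v * u v i j * g t v` is an M-system (`MU.conj`); `e 1 v i j = P v * u v i j * P v = w v i j`.
Let `X` be the space of chains of `cell G (proj u) L` (a submodule of `Finset V → (ι × κ → K)`), and
`D_t = bdg (g t)` on `X` (`bdg_mem`); `D_t = D_0 + t • D'` with `D' = bdg (1 + P)`. `D_t ∘ D_t = 0`
(`bdg_bdg`). By `twist` (applied to the linear maps of the matrices), `D_t` is exact on `X` iff
`ExM G (e t) L`. For `t = 0` (`e 0 = u`): exact if `ExM G e1 L` (`left_ex`); for `t = 1` (`e 1 = w`): exact if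
`ExM G e2 L` (`right_ex`). So by `pencil`, for each `L` with `ExM G e1 L ∨ ExM G e2 L` the set of `t` with
`¬ ExM G (e t) L` is finite (`pencil_M`). There are finitely many `L : Finset V` and `K` is infinite:
take `t` outside the union of these finite sets (`Set.finite_iUnion`, `Set.Finite.infinite_compl`).
-/

namespace Pool.Agent.H37.CD

open Finset
open scoped Kronecker

variable {V : Type} [Fintype V] [DecidableEq V]
variable {K : Type} [Field K] {ι κ : Type} [Fintype ι] [DecidableEq ι] [Fintype κ]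
  [DecidableEq κ]

/-- `e1` acting on the first factor -/
def inL (κ : Type) [Fintype κ] [DecidableEq κ] (e1 : V → Fin 2 → Fin 2 → Matrix ι ι K) :
    V → Fin 2 → Fin 2 → Matrix (ι × κ) (ι × κ) K :=
  fun v i j => e1 v i j ⊗ₖ (1 : Matrix κ κ K)

/-- `e2` acting on the second factor -/
def inR (ι : Type) [Fintype ι] [DecidableEq ι] (e2 : V → Fin 2 → Fin 2 → Matrix κ κ K) :
    V → Fin 2 → Fin 2 → Matrix (ι × κ) (ι × κ) K :=
  fun v i j => (1 : Matrix ι ι K) ⊗ₖ e2 v i j

theorem inL_mul (A B : Matrix ι ι K) :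
    (A ⊗ₖ (1 : Matrix κ κ K)) * (B ⊗ₖ (1 : Matrix κ κ K)) = (A * B) ⊗ₖ (1 : Matrix κ κ K) := by
  rw [← Matrix.mul_kronecker_mul, one_mul]

theorem inR_mul (A B : Matrix κ κ K) :
    ((1 : Matrix ι ι K) ⊗ₖ A) * ((1 : Matrix ι ι K) ⊗ₖ B) = (1 : Matrix ι ι K) ⊗ₖ (A * B) := by
  rw [← Matrix.mul_kronecker_mul, one_mul]

theorem inL_msys {G : SimpleGraph V} {e1 : V → Fin 2 → Fin 2 → Matrix ι ι K} (h : MSys G e1) :
    MSys G (inL κ e1) := by
  refine ⟨fun v => ⟨fun i j k l => ?_, ?_⟩, fun v w hvw i j k l => ?_⟩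
  · simp only [inL]
    rw [inL_mul, (h.mu v).mul]
    split_ifs
    · rfl
    · simp
  · simp only [inL]
    rw [← Matrix.add_kronecker, (h.mu v).one, Matrix.one_kronecker_one]
  · simp only [inL]
    rw [inL_mul, inL_mul, h.comm v w hvw]

theorem inR_msys {G : SimpleGraph V} {e2 : V → Fin 2 → Fin 2 → Matrix κ κ K} (h : MSys G e2) :
    MSys G (inR ι e2) := by
  refine ⟨fun v => ⟨fun i j k l => ?_, ?_⟩, fun v w hvw i j k l => ?_⟩
  · simp only [inR]
    rw [inR_mul, (h.mu v).mul]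
    split_ifs
    · rfl
    · simp
  · simp only [inR]
    rw [← Matrix.kronecker_add, (h.mu v).one, Matrix.one_kronecker_one]
  · simp only [inR]
    rw [inR_mul, inR_mul, h.comm v w hvw]

theorem inL_inR_comm (e1 : V → Fin 2 → Fin 2 → Matrix ι ι K) (e2 : V → Fin 2 → Fin 2 → Matrix κ κ K)
    (v w : V) (i j k l : Fin 2) :
    inL κ e1 v i j * inR ι e2 w k l = inR ι e2 w k l * inL κ e1 v i j := by
  simp only [inL, inR]
  rw [← Matrix.mul_kronecker_mul, ← Matrix.mul_kronecker_mul, mul_one, one_mul, mul_one, one_mul]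

theorem kronL_mulVec (M : Matrix ι ι K) (x : ι × κ → K) (i : ι) (k : κ) :
    ((M ⊗ₖ (1 : Matrix κ κ K)).mulVec x) (i, k) = (M.mulVec (fun i' => x (i', k))) i := by
  simp only [Matrix.mulVec, dotProduct, Fintype.sum_prod_type, Matrix.kroneckerMap_apply,
    Matrix.one_apply]
  refine sum_congr rfl (fun a _ => ?_)
  rw [sum_eq_single k]
  · simp
  · intro b _ hb
    rw [if_neg (fun h => hb h.symm)]
    simp
  · intro hh
    exact absurd (mem_univ _) hh

theorem kronR_mulVec (M : Matrix κ κ K) (x : ι × κ → K) (i : ι) (k : κ) :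
    (((1 : Matrix ι ι K) ⊗ₖ M).mulVec x) (i, k) = (M.mulVec (fun k' => x (i, k'))) k := by
  simp only [Matrix.mulVec, dotProduct, Fintype.sum_prod_type, Matrix.kroneckerMap_apply,
    Matrix.one_apply]
  rw [sum_eq_single i]
  · simp
  · intro b _ hb
    refine sum_eq_zero (fun c _ => ?_)
    rw [if_neg (fun h => hb h.symm)]
    simp
  · intro hh
    exact absurd (mem_univ _) hh

theorem left_ex {G : SimpleGraph V} {e1 : V → Fin 2 → Fin 2 → Matrix ι ι K} {L : Finset V}
    (h : ExM G e1 L) : ExM G (inL κ e1) L := by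
  intro f hf hb
  have key : ∀ k : κ, ∃ h' : Finset V → (ι → K), (∀ σ, h' σ ∈ cell G (proj e1) L σ) ∧
      ∀ τ, bd h' τ = fun i => f τ (i, k) := by
    intro k
    refine h (fun σ i => f σ (i, k)) (fun σ => ⟨fun h0 => ?_, fun v hv => ?_⟩) (fun τ => ?_)
    · refine (hf σ).1 (fun h1 => h0 ?_)
      rw [h1]
      rfl
    · have h2 := (hf σ).2 v hv
      funext i
      have h3 := congrFun h2 (i, k)
      simp only [proj, Matrix.toLin'_apply, inL] at h3 ⊢
      rw [kronL_mulVec] at h3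
      exact h3
    · have h2 := hb τ
      have h3 := bd_mapl (LinearMap.funLeft K K (fun i : ι => (i, k))) f τ
      rw [h2, map_zero] at h3
      exact h3
  choose hk hk1 hk2 using key
  refine ⟨fun σ x => hk x.2 σ x.1, fun σ => ⟨fun h0 => ?_, fun v hv => ?_⟩, fun τ => ?_⟩
  · have h1 : ∃ k, hk k σ ≠ 0 := by
      by_contra hcon
      apply h0
      funext x
      have h2 : hk x.2 σ = 0 := by
        by_contra h3
        exact hcon ⟨x.2, h3⟩
      exact congrFun h2 x.1
    obtain ⟨k, hk0⟩ := h1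
    exact (hk1 k σ).1 hk0
  · funext x
    obtain ⟨i, k⟩ := x
    have h2 := (hk1 k σ).2 v hv
    have h3 := congrFun h2 i
    simp only [proj, Matrix.toLin'_apply, inL] at h3 ⊢
    rw [kronL_mulVec]
    exact h3
  · funext x
    obtain ⟨i, k⟩ := x
    have h2 := congrFun (hk2 k τ) i
    have h3 := congrFun (bd_mapl (LinearMap.funLeft K K (fun i : ι => (i, k)))
      (fun σ (x : ι × κ) => hk x.2 σ x.1) τ) i
    have h4 : (fun σ => (LinearMap.funLeft K K (fun i : ι => (i, k)))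
      (fun (x : ι × κ) => hk x.2 σ x.1)) = hk k := by
      funext σ i
      rfl
    rw [h4] at h3
    rw [h2] at h3
    exact h3.symm

theorem right_ex {G : SimpleGraph V} {e2 : V → Fin 2 → Fin 2 → Matrix κ κ K} {L : Finset V}
    (h : ExM G e2 L) : ExM G (inR ι e2) L := by
  intro f hf hb
  have key : ∀ i : ι, ∃ h' : Finset V → (κ → K), (∀ σ, h' σ ∈ cell G (proj e2) L σ) ∧
      ∀ τ, bd h' τ = fun k => f τ (i, k) := by
    intro i
    refine h (fun σ k => f σ (i, k)) (fun σ => ⟨fun h0 => ?_, fun v hv => ?_⟩) (fun τ => ?_)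
    · refine (hf σ).1 (fun h1 => h0 ?_)
      rw [h1]
      rfl
    · have h2 := (hf σ).2 v hv
      funext k
      have h3 := congrFun h2 (i, k)
      simp only [proj, Matrix.toLin'_apply, inR] at h3 ⊢
      rw [kronR_mulVec] at h3
      exact h3
    · have h2 := hb τ
      have h3 := bd_mapl (LinearMap.funLeft K K (fun k : κ => (i, k))) f τ
      rw [h2, map_zero] at h3
      exact h3
  choose hk hk1 hk2 using key
  refine ⟨fun σ x => hk x.1 σ x.2, fun σ => ⟨fun h0 => ?_, fun v hv => ?_⟩, fun τ => ?_⟩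
  · have h1 : ∃ i, hk i σ ≠ 0 := by
      by_contra hcon
      apply h0
      funext x
      have h2 : hk x.1 σ = 0 := by
        by_contra h3
        exact hcon ⟨x.1, h3⟩
      exact congrFun h2 x.2
    obtain ⟨i, hi0⟩ := h1
    exact (hk1 i σ).1 hi0
  · funext x
    obtain ⟨i, k⟩ := x
    have h2 := (hk1 i σ).2 v hv
    have h3 := congrFun h2 k
    simp only [proj, Matrix.toLin'_apply, inR] at h3 ⊢
    rw [kronR_mulVec]
    exact h3
  · funext x
    obtain ⟨i, k⟩ := x
    have h2 := congrFun (hk2 i τ) k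
    have h3 := congrFun (bd_mapl (LinearMap.funLeft K K (fun k : κ => (i, k)))
      (fun σ (x : ι × κ) => hk x.1 σ x.2) τ) k
    have h4 : (fun σ => (LinearMap.funLeft K K (fun k : κ => (i, k)))
      (fun (x : ι × κ) => hk x.1 σ x.2)) = hk i := by
      funext σ k
      rfl
    rw [h4] at h3
    rw [h2] at h3
    exact h3.symm

/-- the deformation from `inL e1` (`t = 0`) to `inR e2` (`t = 1`) -/
def defo (e1 : V → Fin 2 → Fin 2 → Matrix ι ι K) (e2 : V → Fin 2 → Fin 2 → Matrix κ κ K) (t : K) :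
    V → Fin 2 → Fin 2 → Matrix (ι × κ) (ι × κ) K :=
  fun v i j => (1 + t • (1 + swapMU (inL κ e1 v) (inR ι e2 v))) * inL κ e1 v i j *
    (1 + t • (1 + swapMU (inL κ e1 v) (inR ι e2 v)))

theorem gmat_sq [CharP K 2] {G : SimpleGraph V} {e1 : V → Fin 2 → Fin 2 → Matrix ι ι K}
    {e2 : V → Fin 2 → Fin 2 → Matrix κ κ K} (h1 : MSys G e1) (h2 : MSys G e2) (t : K) (v : V) :
    (1 + t • (1 + swapMU (inL κ e1 v) (inR ι e2 v))) *
      (1 + t • (1 + swapMU (inL κ e1 v) (inR ι e2 v))) = 1 := by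
  have hP : swapMU (inL κ e1 v) (inR ι e2 v) * swapMU (inL κ e1 v) (inR ι e2 v) = 1 :=
    swapMU_sq ((inL_msys h1).mu v) ((inR_msys h2).mu v) (fun i j k l => inL_inR_comm e1 e2 v v i j k l)
  generalize swapMU (inL κ e1 v) (inR ι e2 v) = P at hP ⊢
  have h3 : (1 + P) * (1 + P) = 0 := by
    have : (1 + P) * (1 + P) = (1 + 1) + (P + P) := by
      rw [add_mul, mul_add, mul_add, hP, one_mul, one_mul, mul_one]
      abel
    rw [this, two_eq K, two_eq K, add_zero]
  rw [add_mul, mul_add, mul_add, one_mul, one_mul, mul_one, smul_mul_smul_comm, h3, smul_zero,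
    add_zero, add_assoc, two_eq K, add_zero]

theorem swap_comm_L {G : SimpleGraph V} {e1 : V → Fin 2 → Fin 2 → Matrix ι ι K}
    {e2 : V → Fin 2 → Fin 2 → Matrix κ κ K} (h1 : MSys G e1) (v w : V)
    (hvw : G.Adj v w) (k l : Fin 2) :
    Commute (swapMU (inL κ e1 v) (inR ι e2 v)) (inL κ e1 w k l) := by
  unfold swapMU
  refine Commute.sum_left _ _ _ (fun i _ => Commute.sum_left _ _ _ (fun j _ => ?_))
  refine Commute.mul_left ?_ ?_
  · exact (inL_msys h1).comm v w hvw i j k l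
  · exact (inL_inR_comm e1 e2 w v k l j i).symm

theorem swap_comm_R {G : SimpleGraph V} {e1 : V → Fin 2 → Fin 2 → Matrix ι ι K}
    {e2 : V → Fin 2 → Fin 2 → Matrix κ κ K} (h2 : MSys G e2) (v w : V)
    (hvw : G.Adj v w) (k l : Fin 2) :
    Commute (swapMU (inL κ e1 v) (inR ι e2 v)) (inR ι e2 w k l) := by
  unfold swapMU
  refine Commute.sum_left _ _ _ (fun i _ => Commute.sum_left _ _ _ (fun j _ => ?_))
  refine Commute.mul_left ?_ ?_
  · exact inL_inR_comm e1 e2 v w i j k l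
  · exact (inR_msys h2).comm v w hvw j i k l

theorem swap_comm_swap {G : SimpleGraph V} {e1 : V → Fin 2 → Fin 2 → Matrix ι ι K}
    {e2 : V → Fin 2 → Fin 2 → Matrix κ κ K} (h1 : MSys G e1) (h2 : MSys G e2) (v w : V)
    (hvw : G.Adj v w) :
    Commute (swapMU (inL κ e1 v) (inR ι e2 v)) (swapMU (inL κ e1 w) (inR ι e2 w)) := by
  conv_rhs => unfold swapMU
  refine Commute.sum_right _ _ _ (fun i _ => Commute.sum_right _ _ _ (fun j _ => ?_))
  exact Commute.mul_right (swap_comm_L h1 v w hvw i j) (swap_comm_R h2 v w hvw j i)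

theorem g_comm {R : Type*} [Ring R] [Algebra K R] {P Q : R} (h : Commute P Q) (t : K) :
    Commute (1 + t • (1 + P)) Q :=
  (Commute.one_left Q).add_left (((Commute.one_left Q).add_left h).smul_left t)

theorem defo_msys [CharP K 2] {G : SimpleGraph V} {e1 : V → Fin 2 → Fin 2 → Matrix ι ι K}
    {e2 : V → Fin 2 → Fin 2 → Matrix κ κ K} (h1 : MSys G e1) (h2 : MSys G e2) (t : K) :
    MSys G (defo e1 e2 t) := by
  refine ⟨fun v => ?_, fun v w hvw i j k l => ?_⟩
  · exact MU.conj ((inL_msys h1).mu v) (gmat_sq h1 h2 t v) (gmat_sq h1 h2 t v)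
  · change Commute (defo e1 e2 t v i j) (defo e1 e2 t w k l)
    unfold defo
    have a1 : Commute (inL κ e1 v i j) (inL κ e1 w k l) := (inL_msys h1).comm v w hvw i j k l
    have a2 : Commute (1 + t • (1 + swapMU (inL κ e1 v) (inR ι e2 v))) (inL κ e1 w k l) :=
      g_comm (swap_comm_L h1 v w hvw k l) t
    have a3 : Commute (inL κ e1 v i j) (1 + t • (1 + swapMU (inL κ e1 w) (inR ι e2 w))) :=
      (g_comm (swap_comm_L h1 w v hvw.symm i j) t).symm
    have a4 : Commute (1 + t • (1 + swapMU (inL κ e1 v) (inR ι e2 v)))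
        (1 + t • (1 + swapMU (inL κ e1 w) (inR ι e2 w))) :=
      g_comm (g_comm (swap_comm_swap h1 h2 v w hvw).symm t).symm t
    exact ((a4.mul_left a3).mul_left a4).mul_right ((a2.mul_left a1).mul_left a2) |>.mul_right
      ((a4.mul_left a3).mul_left a4)

/-- the twisted boundary as a linear map -/
def bdgL {U : Type*} [AddCommGroup U] [Module K U] (g : V → Module.End K U) :
    (Finset V → U) →ₗ[K] (Finset V → U) where
  toFun f := fun τ => bdg g f τ
  map_add' f h := by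
    funext τ
    simp only [bdg, Pi.add_apply, map_add, sum_add_distrib]
  map_smul' c f := by
    funext τ
    simp only [bdg, Pi.smul_apply, map_smul, smul_sum, RingHom.id_apply]

/-- the space of chains -/
def chains {U : Type*} [AddCommGroup U] [Module K U] (Y : Finset V → Submodule K U) :
    Submodule K (Finset V → U) where
  carrier := {f | ∀ σ, f σ ∈ Y σ}
  add_mem' hf hg := fun σ => (Y σ).add_mem (hf σ) (hg σ)
  zero_mem' := fun σ => (Y σ).zero_mem
  smul_mem' c _ hf := fun σ => (Y σ).smul_mem c (hf σ)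

/-- the twisting operators -/
def gL (e1 : V → Fin 2 → Fin 2 → Matrix ι ι K) (e2 : V → Fin 2 → Fin 2 → Matrix κ κ K) (t : K)
    (v : V) : Module.End K (ι × κ → K) :=
  Matrix.toLin' (1 + t • (1 + swapMU (inL κ e1 v) (inR ι e2 v)))

theorem toLin'_mul' (A B : Matrix ι ι K) :
    (Matrix.toLin' A * Matrix.toLin' B : Module.End K (ι → K)) = Matrix.toLin' (A * B) :=
  (Matrix.toLin'_mul A B).symm

theorem proj_cs {G : SimpleGraph V} {e : V → Fin 2 → Fin 2 → Matrix ι ι K} (h : MSys G e) :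
    CS G (proj e) := by
  refine ⟨fun v => ?_, fun v w hvw => ?_⟩
  · simp only [proj]
    rw [toLin'_mul', (h.mu v).mul]
    simp
  · simp only [proj]
    rw [toLin'_mul', toLin'_mul', h.comm v w hvw]

theorem gL_comm_proj {G : SimpleGraph V} {e1 : V → Fin 2 → Fin 2 → Matrix ι ι K}
    {e2 : V → Fin 2 → Fin 2 → Matrix κ κ K} (h1 : MSys G e1) (t : K) (v w : V)
    (hvw : G.Adj v w) : gL e1 e2 t v * proj (inL κ e1) w = proj (inL κ e1) w * gL e1 e2 t v := by
  simp only [gL, proj]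
  rw [toLin'_mul', toLin'_mul', (g_comm (swap_comm_L h1 v w hvw 1 1) t).eq]

theorem gL_comm {G : SimpleGraph V} {e1 : V → Fin 2 → Fin 2 → Matrix ι ι K}
    {e2 : V → Fin 2 → Fin 2 → Matrix κ κ K} (h1 : MSys G e1) (h2 : MSys G e2) (t : K) (v w : V)
    (hvw : G.Adj v w) : gL e1 e2 t v * gL e1 e2 t w = gL e1 e2 t w * gL e1 e2 t v := by
  simp only [gL]
  rw [toLin'_mul', toLin'_mul',
    (g_comm (g_comm (swap_comm_swap h1 h2 v w hvw).symm t).symm t).eq]

theorem defo_iff [CharP K 2] {G : SimpleGraph V} {e1 : V → Fin 2 → Fin 2 → Matrix ι ι K}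
    {e2 : V → Fin 2 → Fin 2 → Matrix κ κ K} (h1 : MSys G e1) (h2 : MSys G e2) (L : Finset V)
    (t : K) : ExG (gL e1 e2 t) (cell G (proj (inL κ e1)) L) ↔ ExM G (defo e1 e2 t) L := by
  rw [twist (proj_cs (inL_msys h1)) (fun v => ?_) (gL_comm h1 h2 t) (gL_comm_proj h1 t) L]
  · unfold ExM
    have : proj (defo e1 e2 t) = fun v => gL e1 e2 t v * proj (inL κ e1) v * gL e1 e2 t v := by
      funext v
      simp only [gL, proj, defo]
      rw [toLin'_mul', toLin'_mul']
    rw [this]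
  · simp only [gL]
    rw [toLin'_mul', gmat_sq h1 h2 t v]
    exact Matrix.toLin'_one

theorem defo_zero (e1 : V → Fin 2 → Fin 2 → Matrix ι ι K)
    (e2 : V → Fin 2 → Fin 2 → Matrix κ κ K) : defo e1 e2 0 = inL κ e1 := by
  funext v i j
  simp [defo]

theorem defo_one [CharP K 2] {G : SimpleGraph V} {e1 : V → Fin 2 → Fin 2 → Matrix ι ι K}
    {e2 : V → Fin 2 → Fin 2 → Matrix κ κ K} (h1 : MSys G e1) (h2 : MSys G e2) :
    defo e1 e2 1 = inR ι e2 := by
  funext v i j
  have hP : swapMU (inL κ e1 v) (inR ι e2 v) * swapMU (inL κ e1 v) (inR ι e2 v) = 1 :=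
    swapMU_sq ((inL_msys h1).mu v) ((inR_msys h2).mu v) (fun i j k l => inL_inR_comm e1 e2 v v i j k l)
  have hS : swapMU (inL κ e1 v) (inR ι e2 v) * inL κ e1 v i j =
      inR ι e2 v i j * swapMU (inL κ e1 v) (inR ι e2 v) :=
    swapMU_mul ((inL_msys h1).mu v) ((inR_msys h2).mu v)
      (fun i j k l => inL_inR_comm e1 e2 v v i j k l) i j
  simp only [defo]
  have hg : (1 + (1 : K) • (1 + swapMU (inL κ e1 v) (inR ι e2 v))) =
      swapMU (inL κ e1 v) (inR ι e2 v) := by
    rw [one_smul, ← add_assoc, two_eq K, zero_add]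
  rw [hg, hS, mul_assoc, hP, mul_one]

theorem pencil_M [CharP K 2] {G : SimpleGraph V} {e1 : V → Fin 2 → Fin 2 → Matrix ι ι K}
    {e2 : V → Fin 2 → Fin 2 → Matrix κ κ K} (h1 : MSys G e1) (h2 : MSys G e2) (L : Finset V)
    (h : ExM G e1 L ∨ ExM G e2 L) : {t : K | ¬ ExM G (defo e1 e2 t) L}.Finite := by
  classical
  let Y := cell G (proj (inL κ e1)) L
  let X := chains Y
  let P1 : V → Module.End K (ι × κ → K) := fun v =>
    Matrix.toLin' (1 + swapMU (inL κ e1 v) (inR ι e2 v))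
  have hP1 : ∀ v w, G.Adj v w → P1 v * proj (inL κ e1) w = proj (inL κ e1) w * P1 v := by
    intro v w hvw
    simp only [P1, proj]
    rw [toLin'_mul', toLin'_mul', ((Commute.one_left _).add_left (swap_comm_L h1 v w hvw 1 1)).eq]
  have m0 : ∀ f ∈ X, bdgL (fun _ : V => (1 : Module.End K (ι × κ → K))) f ∈ X := fun f hf τ =>
    bdg_mem (g := fun _ : V => (1 : Module.End K (ι × κ → K))) (fun v w _ => by simp) hf τ
  have m1 : ∀ f ∈ X, bdgL P1 f ∈ X := fun f hf τ => bdg_mem (g := P1) hP1 hf τ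
  let D0 : X →ₗ[K] X := (bdgL (fun _ : V => (1 : Module.End K (ι × κ → K)))).restrict m0
  let D1 : X →ₗ[K] X := (bdgL P1).restrict m1
  have hD : ∀ (t : K) (x : X) (τ : Finset V),
      (((D0 + t • D1) x : X) : Finset V → (ι × κ → K)) τ = bdg (gL e1 e2 t) x τ := by
    intro t x τ
    change bdg (fun _ : V => (1 : Module.End K (ι × κ → K))) (x : Finset V → (ι × κ → K)) τ +
      t • bdg P1 (x : Finset V → (ι × κ → K)) τ = _
    simp only [bdg, gL, P1, smul_sum, ← sum_add_distrib]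
    refine sum_congr rfl (fun v _ => ?_)
    have h4 : Matrix.toLin' ((1 : Matrix (ι × κ) (ι × κ) K) +
        t • (1 + swapMU (inL κ e1 v) (inR ι e2 v))) =
        (1 : Module.End K (ι × κ → K)) +
          t • Matrix.toLin' (1 + swapMU (inL κ e1 v) (inR ι e2 v)) := by
      rw [map_add, map_smul, Matrix.toLin'_one]
      rfl
    rw [h4]
    rfl
  have hex : ∀ t : K, (∀ x, (D0 + t • D1) x = 0 → ∃ y, (D0 + t • D1) y = x) ↔
      ExM G (defo e1 e2 t) L := by
    intro t
    rw [← defo_iff h1 h2 L t]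
    constructor
    · intro hx f hf hb
      obtain ⟨y, hy⟩ := hx ⟨f, hf⟩ (by
        apply Subtype.ext
        funext τ
        rw [hD]
        exact hb τ)
      refine ⟨y, y.2, fun τ => ?_⟩
      rw [← hD, hy]
    · intro hx x hx0
      obtain ⟨y, hy, hy2⟩ := hx x x.2 (fun τ => by
        rw [← hD, hx0]
        rfl)
      refine ⟨⟨y, hy⟩, ?_⟩
      apply Subtype.ext
      funext τ
      rw [hD]
      exact hy2 τ
  have h2' : ∀ (t : K) (x : X), (D0 + t • D1) ((D0 + t • D1) x) = 0 := by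
    intro t x
    apply Subtype.ext
    funext τ
    rw [hD]
    have h3 : (((D0 + t • D1) x : X) : Finset V → (ι × κ → K)) =
        fun σ => bdg (gL e1 e2 t) x σ := by
      funext σ
      exact hD t x σ
    rw [h3]
    exact bdg_bdg (gL_comm h1 h2 t) x.2 τ
  have h3 : {t : K | ¬ ExM G (defo e1 e2 t) L} =
      {t : K | ¬ ∀ x, (D0 + t • D1) x = 0 → ∃ y, (D0 + t • D1) y = x} := by
    ext t
    simp only [Set.mem_ofPred_eq]
    rw [hex t]
  rw [h3]
  rcases h with h | h
  · refine pencil D0 D1 h2' 0 ?_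
    rw [hex 0, defo_zero]
    exact left_ex h
  · refine pencil D0 D1 h2' 1 ?_
    rw [hex 1, defo_one h1 h2]
    exact right_ex h

theorem msys_prod [CharP K 2] [Infinite K] {G : SimpleGraph V}
    {e1 : V → Fin 2 → Fin 2 → Matrix ι ι K} {e2 : V → Fin 2 → Fin 2 → Matrix κ κ K}
    (h1 : MSys G e1) (h2 : MSys G e2) :
    ∃ e : V → Fin 2 → Fin 2 → Matrix (ι × κ) (ι × κ) K, MSys G e ∧
      ∀ L, ExM G e1 L ∨ ExM G e2 L → ExM G e L := by
  have hfin : (⋃ L : {L : Finset V // ExM G e1 L ∨ ExM G e2 L},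
      {t : K | ¬ ExM G (defo e1 e2 t) L.1}).Finite :=
    Set.finite_iUnion (fun L => pencil_M h1 h2 L.1 L.2)
  obtain ⟨t, ht⟩ := hfin.infinite_compl.nonempty
  refine ⟨defo e1 e2 t, defo_msys h1 h2 t, fun L hL => ?_⟩
  by_contra hcon
  exact ht (Set.mem_iUnion.2 ⟨⟨L, hL⟩, hcon⟩)

end Pool.Agent.H37.CD
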