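import Pool.Agent.H37.CD.Collapse
import Pool.Agent.H37.CD.Rules

/-!
# helper37, CD, module SPLITK: the two auxiliary complexes of a splitting

`G' = contract G a b`: the neighbours of `a` are added to those of `b`; the adjacencies of `a` are the same as
in `G`. `G ≤ G'`; two vertices different from `b` are adjacent in `G'` iff they are in `G`.

`splitK1`. `Y0 = cell G' p (A.erase a)`, `Y1 = cell G' p A`, `Y2 = cell G p A`.
`Ex Y0 ↔ Ex Y1` by `collapse b (B := fun σ => a ∈ σ)`: `hc`: if `0 ≠ x ∈ Y1 σ`, `a ∈ σ`, then `insert b σ ⊆ A` is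
a `G'`-clique (`b ~ a`; for `z ∈ σ`, `z ≠ a, b`: `z ~ a` in `G`, so `z ~ b` in `G'`) and
`p b x = p a x = x`.
`Ex Y2 ↔ Ex Y1` by `collapse a (B := fun σ => b ∈ σ ∧ ∃ x ∈ σ, x ≠ a ∧ x ≠ b ∧ ¬ G.Adj b x)`: `hc`: let
`σ ⊆ A` be a `G'`-clique in `B`, with `x0 ∈ σ` not `G`-adjacent to `b`; `b ~ x0` in `G'` gives `a ~ x0` in `G`.
Let `z ∈ σ`, `z ≠ a, b`; if `z` is not `G`-adjacent to `a` then it is `G`-adjacent to `b`, `z ≠ x0`, and
`x0 ~ z` in `G'`, so in `G`: contradiction with `hx`. So `insert a σ` is a `G'`-clique; `p a x = p b x = x`.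
`h1`: a set in `B` is not a `G`-clique. `h2`: if `σ ⊆ A` is a `G'`-clique not in `B` it is a `G`-clique (only the
pairs `b, z` are in question).

`splitK0`: `edgeDel` for `G`, `p` and `H = G` minus the edge `a b`.
`CS G p` follows from `CS G' p` (`G ≤ G'`).
-/

namespace Pool.Agent.H37.CD

open Finset

variable {V : Type} [Fintype V] [DecidableEq V]
variable {K : Type} [Field K] [CharP K 2] {U : Type*} [AddCommGroup U] [Module K U]

/-- the graph `G` without the edge `a b` -/
def delEdge (G : SimpleGraph V) (a b : V) : SimpleGraph V where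
  Adj u w := G.Adj u w ∧ ¬ (u = a ∧ w = b) ∧ ¬ (u = b ∧ w = a)
  symm := ⟨by
    intro u w h
    exact ⟨h.1.symm, fun h' => h.2.2 ⟨h'.2, h'.1⟩, fun h' => h.2.1 ⟨h'.2, h'.1⟩⟩⟩
  loopless := ⟨fun _ h => G.irrefl h.1⟩

theorem splitK1 {G : SimpleGraph V} {p : V → Module.End K U} {A : Finset V} {a b : V}
    (ha : a ∈ A) (hb : b ∈ A) (hab : G.Adj a b)
    (hx : ∀ x ∈ A, ∀ y ∈ A, G.Adj a x → x ≠ b → ¬ G.Adj b x → G.Adj b y → y ≠ a → ¬ G.Adj a y →
      ¬ G.Adj x y)
    (hpab : p a = p b) (h : Ex (cell (contract G a b) p (A.erase a))) : Ex (cell G p A) := by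
  have hne : a ≠ b := hab.ne
  have e1 : Ex (cell (contract G a b) p (A.erase a)) ↔ Ex (cell (contract G a b) p A) := by
    refine collapse b (fun σ => a ∈ σ) (fun σ τ h => cell_anti _ _ _ h) (fun σ τ h h' => h h')
      (fun σ h => mem_erase.2 ⟨hne, h⟩) ?_ ?_ ?_
    · intro σ hσ x hx
      have hσ' : a ∈ σ := hσ
      obtain ⟨h1, h2⟩ := mem_cell.1 hx
      refine mem_cell.2 ⟨fun h0 => ?_, fun v hv => ?_⟩
      · obtain ⟨h3, h4⟩ := h1 h0
        refine ⟨insert_subset hb h3, ?_⟩
        rw [coe_insert, SimpleGraph.isClique_insert]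
        refine ⟨h4, fun z hz hbz => ?_⟩
        by_cases hza : z = a
        · subst hza
          exact ⟨hbz, Or.inl hab.symm⟩
        · have h5 := h4 (mem_coe.2 hσ') hz (fun h => hza h.symm)
          rcases h5.2 with h6 | h6 | h6
          · exact ⟨hbz, Or.inr (Or.inl ⟨rfl, h6⟩)⟩
          · exact absurd h6.1 hne
          · exact absurd h6.1.symm hbz
      · rcases mem_insert.1 hv with h3 | h3
        · rw [h3, ← hpab]
          exact h2 a hσ'
        · exact h2 v h3
    · intro σ hσ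
      rw [eq_bot_iff]
      intro x hx
      obtain ⟨h1, h2⟩ := mem_cell.1 hx
      by_contra h0
      have h3 := (h1 (fun h => h0 (by rw [h]; exact zero_mem _))).1 hσ
      exact (mem_erase.1 h3).1 rfl
    · intro σ hσ
      ext x
      rw [mem_cell, mem_cell]
      refine and_congr_left (fun _ => ?_)
      refine forall_congr' (fun _ => and_congr_left (fun _ => ?_))
      constructor
      · intro h
        exact h.trans (erase_subset _ _)
      · intro h y hy
        exact mem_erase.2 ⟨fun h' => hσ (h' ▸ hy), h hy⟩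
  have e2 : Ex (cell G p A) ↔ Ex (cell (contract G a b) p A) := by
    refine collapse a (fun σ => b ∈ σ ∧ ∃ x ∈ σ, x ≠ a ∧ x ≠ b ∧ ¬ G.Adj b x)
      (fun σ τ h => cell_anti _ _ _ h) ?_ ?_ ?_ ?_ ?_
    · rintro σ τ h ⟨h1, x, h2, h3⟩
      exact ⟨h h1, x, h h2, h3⟩
    · rintro σ ⟨h1, x, h2, h3⟩
      exact ⟨mem_erase.2 ⟨hne.symm, h1⟩, x, mem_erase.2 ⟨h3.1, h2⟩, h3⟩
    · rintro σ ⟨hbσ, x0, hx0, hx0a, hx0b, hbx0⟩ x hx'
      obtain ⟨h1, h2⟩ := mem_cell.1 hx'
      refine mem_cell.2 ⟨fun h0 => ?_, fun v hv => ?_⟩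
      · obtain ⟨h3, h4⟩ := h1 h0
        refine ⟨insert_subset ha h3, ?_⟩
        have hax0 : G.Adj a x0 := by
          have h5 := h4 (mem_coe.2 hbσ) (mem_coe.2 hx0) (fun h => hx0b h.symm)
          rcases h5.2 with h6 | h6 | h6
          · exact absurd h6 hbx0
          · exact h6.2
          · exact absurd h6.1 hx0b
        rw [coe_insert, SimpleGraph.isClique_insert]
        refine ⟨h4, fun z hz haz => ?_⟩
        refine ⟨haz, ?_⟩
        by_cases hzb : z = b
        · exact Or.inl (hzb ▸ hab)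
        · refine Or.inl ?_
          by_contra hnaz
          -- `z` is adjacent to `b` in `G`
          have h5 := h4 (mem_coe.2 hbσ) hz (fun h => hzb h.symm)
          have hbz : G.Adj b z := by
            rcases h5.2 with h6 | h6 | h6
            · exact h6
            · exact absurd h6.2 hnaz
            · exact absurd h6.1 hzb
          have hzx0 : x0 ≠ z := fun h => hbx0 (h ▸ hbz)
          have h7 := h4 (mem_coe.2 hx0) hz hzx0
          have h8 : G.Adj x0 z := by
            rcases h7.2 with h6 | h6 | h6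
            · exact h6
            · exact absurd h6.1 hx0b
            · exact absurd h6.1 hzb
          exact hx x0 (h3 hx0) z (h3 (mem_coe.1 hz)) hax0 hx0b hbx0 hbz (fun h => haz h.symm) hnaz h8
      · rcases mem_insert.1 hv with h3 | h3
        · rw [h3, hpab]
          exact h2 b hbσ
        · exact h2 v h3
    · rintro σ ⟨hbσ, x0, hx0, hx0a, hx0b, hbx0⟩
      rw [eq_bot_iff]
      intro x hx'
      obtain ⟨h1, h2⟩ := mem_cell.1 hx'
      by_contra h0
      have h3 := (h1 (fun h => h0 (by rw [h]; exact zero_mem _))).2 (mem_coe.2 hbσ) (mem_coe.2 hx0)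
        (fun h => hx0b h.symm)
      exact hbx0 h3
    · intro σ hσ
      have hσ' : b ∈ σ → ∀ x ∈ σ, x ≠ a → x ≠ b → G.Adj b x := by
        intro h1 x h2 h3 h4
        by_contra h5
        exact hσ ⟨h1, x, h2, h3, h4, h5⟩
      ext x
      rw [mem_cell, mem_cell]
      refine and_congr_left (fun _ => ?_)
      refine forall_congr' (fun _ => and_congr_right (fun _ => ?_))
      constructor
      · intro h u hu w hw huw
        exact ⟨huw, Or.inl (h hu hw huw)⟩
      · intro h u hu w hw huw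
        rcases (h hu hw huw).2 with h6 | h6 | h6
        · exact h6
        · obtain ⟨h7, h8⟩ := h6
          subst h7
          exact hσ' (mem_coe.1 hu) w (mem_coe.1 hw) h8.ne.symm (fun h => huw h.symm)
        · obtain ⟨h7, h8⟩ := h6
          subst h7
          exact (hσ' (mem_coe.1 hw) u (mem_coe.1 hu) h8.ne.symm huw).symm
  exact e2.2 (e1.1 h)

theorem splitK0 {G : SimpleGraph V} {p : V → Module.End K U} {A : Finset V} {a b : V}
    (ha : a ∈ A) (hb : b ∈ A) (hab : G.Adj a b) (hp : CS (contract G a b) p)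
    (h1 : Ex (cell G p A)) (h2 : Ex (cell G p (lk G A {a, b}))) :
    Ex (cell (delEdge G a b) p A) := by
  have hp' : CS G p := ⟨hp.1, fun v w h => hp.2 v w ⟨h.ne, Or.inl h⟩⟩
  exact edgeDel hp' ha hb hab (fun u w => Iff.rfl) h1 h2

end Pool.Agent.H37.CD
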